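import Mathlib
import Pool.Agent.Helper35.YG.QE

set_option autoImplicit false

open Matrix Pool.Agent.Helper35.YG

namespace Pool.Agent.Helper61.YG

/-! ### entries -/

section entries
variable {R : Type*} [CommRing R]

theorem sl_ext {A B : SpecialLinearGroup (Fin 2) R} (h00 : A.1 0 0 = B.1 0 0)
    (h01 : A.1 0 1 = B.1 0 1) (h10 : A.1 1 0 = B.1 1 0) (h11 : A.1 1 1 = B.1 1 1) : A = B := by
  apply Subtype.ext
  ext i j
  fin_cases i <;> fin_cases j <;> assumption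

theorem mul_entry (A B : SpecialLinearGroup (Fin 2) R) (i j : Fin 2) :
    (A * B).1 i j = A.1 i 0 * B.1 0 j + A.1 i 1 * B.1 1 j := by
  rw [Matrix.SpecialLinearGroup.coe_mul, Matrix.mul_apply, Fin.sum_univ_two]

@[simp] theorem one00 : (1 : SpecialLinearGroup (Fin 2) R).1 0 0 = 1 := rfl
@[simp] theorem one01 : (1 : SpecialLinearGroup (Fin 2) R).1 0 1 = 0 := rfl
@[simp] theorem one10 : (1 : SpecialLinearGroup (Fin 2) R).1 1 0 = 0 := rfl
@[simp] theorem one11 : (1 : SpecialLinearGroup (Fin 2) R).1 1 1 = 1 := rfl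

@[simp] theorem uu00 (x : R) : (uu x).1 0 0 = 1 := rfl
@[simp] theorem uu01 (x : R) : (uu x).1 0 1 = x := rfl
@[simp] theorem uu10 (x : R) : (uu x).1 1 0 = 0 := rfl
@[simp] theorem uu11 (x : R) : (uu x).1 1 1 = 1 := rfl

@[simp] theorem vv00 (x : R) : (vv x).1 0 0 = 1 := rfl
@[simp] theorem vv01 (x : R) : (vv x).1 0 1 = 0 := rfl
@[simp] theorem vv10 (x : R) : (vv x).1 1 0 = x := rfl
@[simp] theorem vv11 (x : R) : (vv x).1 1 1 = 1 := rfl

@[simp] theorem dd00 (x y : R) (h : x * y = 1) : (dd x y h).1 0 0 = x := rfl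
@[simp] theorem dd01 (x y : R) (h : x * y = 1) : (dd x y h).1 0 1 = 0 := rfl
@[simp] theorem dd10 (x y : R) (h : x * y = 1) : (dd x y h).1 1 0 = 0 := rfl
@[simp] theorem dd11 (x y : R) (h : x * y = 1) : (dd x y h).1 1 1 = y := rfl

@[simp] theorem JJ00 (h2 : (2 : R) = 0) : (JJ h2).1 0 0 = 0 := rfl
@[simp] theorem JJ01 (h2 : (2 : R) = 0) : (JJ h2).1 0 1 = 1 := rfl
@[simp] theorem JJ10 (h2 : (2 : R) = 0) : (JJ h2).1 1 0 = 1 := rfl
@[simp] theorem JJ11 (h2 : (2 : R) = 0) : (JJ h2).1 1 1 = 0 := rfl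

/-- a matrix of determinant one, characteristic two -/
def mk2 (h2 : (2 : R) = 0) (a b c d : R) (h : a * d + b * c = 1) :
    SpecialLinearGroup (Fin 2) R :=
  ⟨!![a, b; c, d], by
    rw [Matrix.det_fin_two_of]
    linear_combination h - b * c * h2⟩

@[simp] theorem mk00 (h2 : (2 : R) = 0) (a b c d : R) (h : a * d + b * c = 1) :
    (mk2 h2 a b c d h).1 0 0 = a := rfl
@[simp] theorem mk01 (h2 : (2 : R) = 0) (a b c d : R) (h : a * d + b * c = 1) :
    (mk2 h2 a b c d h).1 0 1 = b := rfl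
@[simp] theorem mk10 (h2 : (2 : R) = 0) (a b c d : R) (h : a * d + b * c = 1) :
    (mk2 h2 a b c d h).1 1 0 = c := rfl
@[simp] theorem mk11 (h2 : (2 : R) = 0) (a b c d : R) (h : a * d + b * c = 1) :
    (mk2 h2 a b c d h).1 1 1 = d := rfl

theorem add_self_of_two (h2 : (2 : R) = 0) (x : R) : x + x = 0 := by
  rw [← two_mul, h2, zero_mul]

theorem uu_mul (x y : R) : (uu x : SpecialLinearGroup (Fin 2) R) * uu y = uu (x + y) := by
  apply sl_ext <;> simp [mul_entry, add_comm]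

theorem uu_zero : (uu (0 : R) : SpecialLinearGroup (Fin 2) R) = 1 := by
  apply sl_ext <;> simp

theorem JJ_sq (h2 : (2 : R) = 0) :
    (JJ h2 : SpecialLinearGroup (Fin 2) R) * JJ h2 = 1 := by
  apply sl_ext <;> simp [mul_entry]

theorem JJ_uu_JJ (h2 : (2 : R) = 0) (x : R) :
    (JJ h2 : SpecialLinearGroup (Fin 2) R) * uu x * JJ h2 = vv x := by
  apply sl_ext <;> simp [mul_entry]

end entries

/-! ### odd order -/

theorem sq_eq_trace {F : Type*} [Field F] (h2 : (2 : F) = 0)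
    (A : Matrix.SpecialLinearGroup (Fin 2) F) :
    (A : Matrix (Fin 2) (Fin 2) F) * (A : Matrix (Fin 2) (Fin 2) F)
      = (A : Matrix (Fin 2) (Fin 2) F).trace • (A : Matrix (Fin 2) (Fin 2) F)
        + (1 : Matrix (Fin 2) (Fin 2) F) := by
  have hd := A.det_coe
  rw [Matrix.det_fin_two] at hd
  ext i j
  fin_cases i <;> fin_cases j <;>
    simp [Matrix.mul_apply, Fin.sum_univ_two, Matrix.trace_fin_two] <;>
    first
      | linear_combination (-1 : F) * hd - h2 * (A.1 0 1 * A.1 1 0 - A.1 0 0 * A.1 1 1)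
      | linear_combination (-1 : F) * hd + h2
      | linear_combination (-1 : F) * hd - h2
      | ring_nf

theorem two_pow_pow {F : Type*} [Field F] [CharP F 2]
    (M : Matrix (Fin 2) (Fin 2) F) (t : F) (hM : M * M = t • M + 1) (i : ℕ) :
    ∃ b : F, M ^ (2 ^ i) = t ^ (2 ^ i - 1) • M + b • (1 : Matrix (Fin 2) (Fin 2) F) := by
  induction i with
  | zero => exact ⟨0, by simp⟩
  | succ i ih =>
    obtain ⟨b, hb⟩ := ih
    refine ⟨t ^ (2 ^ i - 1) * t ^ (2 ^ i - 1) + b * b, ?_⟩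
    have h2 : (2 : Matrix (Fin 2) (Fin 2) F) = 0 := by
      have := CharP.cast_eq_zero (Matrix (Fin 2) (Fin 2) F) 2
      exact_mod_cast this
    have hexp : 2 ^ i * 2 - 1 = (2 ^ i - 1) + (2 ^ i - 1) + 1 := by
      have : 1 ≤ 2 ^ i := Nat.one_le_two_pow
      omega
    rw [pow_succ 2 i, pow_mul, pow_two, hb, hexp, pow_add, pow_add, pow_one]
    generalize t ^ (2 ^ i - 1) = c
    have : (c • M + b • (1 : Matrix (Fin 2) (Fin 2) F)) * (c • M + b • 1)
        = (c * c) • (M * M) + (2 : Matrix (Fin 2) (Fin 2) F) * ((c * b) • M) + (b * b) • 1 := by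
      rw [add_mul, mul_add, mul_add, smul_mul_smul_comm, smul_mul_smul_comm, smul_mul_smul_comm,
        smul_mul_smul_comm, mul_one, one_mul, mul_one, mul_comm b c, two_mul]
      abel
    rw [this, h2, zero_mul, hM, smul_add, smul_smul, add_smul (c * c) (b * b)]
    simp only [add_zero, add_assoc]

theorem odd_of_trace {F : Type*} [Field F] [Finite F] [CharP F 2]
    (A : Matrix.SpecialLinearGroup (Fin 2) F)
    (h : (A : Matrix (Fin 2) (Fin 2) F).trace ≠ 0) : ∃ k : ℕ, Odd k ∧ A ^ k = 1 := by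
  have : Fintype F := Fintype.ofFinite F
  have h2 : (2 : F) = 0 := by
    have := CharP.cast_eq_zero F 2
    exact_mod_cast this
  set M : Matrix (Fin 2) (Fin 2) F := (A : Matrix (Fin 2) (Fin 2) F) with hMdef
  obtain ⟨n, -, hn⟩ := FiniteField.card F 2
  set r : ℕ := (n : ℕ) with hr
  obtain ⟨b, hb⟩ := two_pow_pow M M.trace (sq_eq_trace h2 A) r
  have ht : M.trace ^ (2 ^ r - 1) = 1 := by
    rw [← hn]; exact FiniteField.pow_card_sub_one_eq_one _ h
  rw [ht, one_smul] at hb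
  have hcomm : Commute M (b • (1 : Matrix (Fin 2) (Fin 2) F)) :=
    (Commute.one_right M).smul_right b
  have hbq : (b • (1 : Matrix (Fin 2) (Fin 2) F)) ^ (2 ^ r) = b • 1 := by
    rw [smul_pow, one_pow, ← hn, FiniteField.pow_card]
  have hM2 : M ^ (2 ^ r * 2 ^ r) = M := by
    rw [pow_mul, hb, add_pow_char_pow_of_commute _ _ hcomm, hbq, hb, add_assoc, ← add_smul]
    have : b + b = 0 := by rw [← two_mul, h2, zero_mul]
    rw [this, zero_smul, add_zero]
  have hA : A ^ (2 ^ r * 2 ^ r) = A := by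
    apply Subtype.ext
    have : ((A ^ (2 ^ r * 2 ^ r) : Matrix.SpecialLinearGroup (Fin 2) F) :
      Matrix (Fin 2) (Fin 2) F) = M ^ (2 ^ r * 2 ^ r) := by
      rw [Matrix.SpecialLinearGroup.coe_pow]
    exact this.trans hM2
  have hr0 : r ≠ 0 := n.ne_zero
  obtain ⟨s, hs⟩ := Nat.exists_eq_succ_of_ne_zero hr0
  have hpos : 1 ≤ 2 ^ r * 2 ^ r := Nat.one_le_iff_ne_zero.2 (by positivity)
  refine ⟨2 ^ r * 2 ^ r - 1, ?_, ?_⟩
  · refine Nat.Even.sub_odd hpos ?_ odd_one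
    exact (Even.mul_right (by rw [hs, pow_succ]; exact even_two.mul_left _) _)
  · have : A ^ (2 ^ r * 2 ^ r - 1) * A = A := by
      rw [← pow_succ, Nat.sub_add_cancel hpos, hA]
    exact mul_eq_right.mp this

/-- an element of odd order is a power of its square -/
theorem mem_of_sq_mem {G : Type*} [Group G] (H : Subgroup G) (a : G) (k : ℕ) (hk : Odd k)
    (ha : a ^ k = 1) (h : a * a ∈ H) : a ∈ H := by
  obtain ⟨m, rfl⟩ := hk
  have : a = (a * a) ^ (m + 1) := by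
    have e : (a * a) ^ (m + 1) = a ^ (2 * m + 1) * a := by
      rw [← pow_two, ← pow_mul, ← pow_succ]
      congr 1
    rw [e, ha, one_mul]
  rw [this]
  exact H.pow_mem h _

theorem ratio {F : Type*} [Field F] [Finite F] [CharP F 2] (h2 : (2 : F) = 0)
    (M : Subgroup (Matrix.SpecialLinearGroup (Fin 2) F)) (hJ : JJ h2 ∈ M) (α β : F)
    (hα : α ≠ 0) (_hβ : β ≠ 0) (h1 : uu α ∈ M) (h2' : uu (α * β) ∈ M)
    (hgen : ∀ S : Subring F, β ∈ S → S = ⊤) : ∀ x, uu x ∈ M := by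
  have hneg : ∀ x : F, -x = x := fun x => by linear_combination (-x) * h2
  -- square roots
  have hsqrt : ∀ x : F, ∃ r : F, r * r = x := by
    intro x
    have hi : Function.Injective (fun r : F => r ^ 2) := by
      intro a b hab
      have hab' : a ^ 2 = b ^ 2 := hab
      have : (a - b) ^ 2 = 0 := by linear_combination hab' - (a * b - b ^ 2) * h2
      exact sub_eq_zero.1 (pow_eq_zero_iff (two_ne_zero) |>.1 this)
    obtain ⟨r, hr⟩ := (Finite.injective_iff_surjective.1 hi) x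
    exact ⟨r, by rw [← hr]; ring⟩
  have hσ : ∀ x r : F, x ≠ 0 → r * r = x → uu x ∈ M → ∀ (σ : SpecialLinearGroup (Fin 2) F),
      σ.1 0 0 = r⁻¹ * (x + 1) → σ.1 0 1 = r⁻¹ → σ.1 1 0 = r⁻¹ → σ.1 1 1 = r⁻¹ → σ ∈ M := by
    intro x r hx hr hux σ s00 s01 s10 s11
    have hr0 : r ≠ 0 := by rintro rfl; exact hx (by rw [← hr, mul_zero])
    have htr : (σ : Matrix (Fin 2) (Fin 2) F).trace ≠ 0 := by
      rw [Matrix.trace_fin_two, s00, s11]
      have : r⁻¹ * (x + 1) + r⁻¹ = r := by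
        field_simp
        linear_combination (-1 : F) * hr + h2
      rw [this]; exact hr0
    obtain ⟨k, hk, hk1⟩ := odd_of_trace σ htr
    refine mem_of_sq_mem M σ k hk hk1 ?_
    have : σ * σ = uu x * JJ h2 := by
      subst hr
      apply sl_ext <;> simp only [mul_entry, s00, s01, s10, s11, uu00, uu01, uu10, uu11, JJ00, JJ01,
        JJ10, JJ11] <;> field_simp
      · linear_combination (r ^ 2 + 1) * h2
      · linear_combination h2
      · linear_combination h2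
      · linear_combination h2
    rw [this]
    exact M.mul_mem hux hJ
  have hvv : ∀ y, uu y ∈ M → vv y ∈ M := by
    intro y hy
    rw [← JJ_uu_JJ h2]
    exact M.mul_mem (M.mul_mem hJ hy) hJ
  have hvu : ∀ y, vv y ∈ M → uu y ∈ M := by
    intro y hy
    have : uu y = JJ h2 * vv y * JJ h2 := by
      apply sl_ext <;> simp [mul_entry]
    rw [this]
    exact M.mul_mem (M.mul_mem hJ hy) hJ
  have hmul : ∀ x₁ x₂ y : F, x₁ ≠ 0 → x₂ ≠ 0 → uu x₁ ∈ M → uu x₂ ∈ M → uu y ∈ M →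
      uu (x₁ / x₂ * y) ∈ M := by
    intro x₁ x₂ y hx₁ hx₂ hu₁ hu₂ huy
    obtain ⟨r₁, hr₁⟩ := hsqrt x₁
    obtain ⟨r₂, hr₂⟩ := hsqrt x₂
    have hr₁0 : r₁ ≠ 0 := by rintro rfl; exact hx₁ (by rw [← hr₁, mul_zero])
    have hr₂0 : r₂ ≠ 0 := by rintro rfl; exact hx₂ (by rw [← hr₂, mul_zero])
    have hdet : ∀ r : F, r ≠ 0 → (r⁻¹ * (r * r + 1)) * r⁻¹ + r⁻¹ * r⁻¹ = 1 := by
      intro r hr
      field_simp
      linear_combination h2
    let σ₁ := mk2 h2 (r₁⁻¹ * (r₁ * r₁ + 1)) r₁⁻¹ r₁⁻¹ r₁⁻¹ (hdet r₁ hr₁0)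
    let σ₂ := mk2 h2 (r₂⁻¹ * (r₂ * r₂ + 1)) r₂⁻¹ r₂⁻¹ r₂⁻¹ (hdet r₂ hr₂0)
    have m₁ : σ₁ ∈ M := hσ x₁ r₁ hx₁ hr₁ hu₁ σ₁ (by simp [σ₁, hr₁]) rfl rfl rfl
    have m₂ : σ₂ ∈ M := hσ x₂ r₂ hx₂ hr₂ hu₂ σ₂ (by simp [σ₂, hr₂]) rfl rfl rfl
    -- σ₁⁻¹ σ₂ as a lower triangular matrix
    have hD : σ₁ * mk2 h2 (r₂ / r₁) 0 ((r₁ ^ 2 + r₂ ^ 2) / (r₁ * r₂)) (r₁ / r₂)
        (by field_simp; ring) = σ₂ := by
      apply sl_ext <;> simp only [mul_entry, σ₁, σ₂, mk00, mk01, mk10, mk11] <;> field_simp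
      · linear_combination (r₂ ^ 2) * h2
      · ring
      · linear_combination (r₂ ^ 2) * h2
      · ring
    set D := mk2 h2 (r₂ / r₁) 0 ((r₁ ^ 2 + r₂ ^ 2) / (r₁ * r₂)) (r₁ / r₂) (by field_simp; ring)
      with hDdef
    have hDm : D ∈ M := by
      have : D = σ₁⁻¹ * σ₂ := by rw [← hD]; group
      rw [this]
      exact M.mul_mem (M.inv_mem m₁) m₂
    have hconj : D * vv y = vv (x₁ / x₂ * y) * D := by
      apply sl_ext <;> simp only [mul_entry, hDdef, mk00, mk01, mk10, mk11, vv00, vv01, vv10, vv11]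
      · ring
      · ring
      · rw [← hr₁, ← hr₂]; field_simp; ring
      · ring
    have : vv (x₁ / x₂ * y) = D * vv y * D⁻¹ := by rw [hconj]; group
    apply hvu
    rw [this]
    exact M.mul_mem (M.mul_mem hDm (hvv y huy)) (M.inv_mem hDm)
  let S : Subring F :=
    { carrier := {s | uu (α * s) ∈ M}
      mul_mem' := by
        intro s t hs ht
        by_cases hs0 : s = 0
        · subst hs0; simpa using hs
        · have := hmul (α * s) α (α * t) (mul_ne_zero hα hs0) hα hs h1 ht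
          have e : α * s / α * (α * t) = α * (s * t) := by field_simp
          rw [e] at this
          exact this
      one_mem' := by simpa using h1
      add_mem' := by
        intro s t hs ht
        have : uu (α * (s + t)) = uu (α * s) * uu (α * t) := by rw [uu_mul, mul_add]
        change uu (α * (s + t)) ∈ M
        rw [this]
        exact M.mul_mem hs ht
      zero_mem' := by
        change uu (α * 0) ∈ M
        rw [mul_zero, uu_zero]
        exact M.one_mem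
      neg_mem' := by
        intro s hs
        rw [hneg s]; exact hs }
  have hS : S = ⊤ := hgen S h2'
  intro x
  have hx : x / α ∈ S := by rw [hS]; exact Subring.mem_top _
  have hx' : uu (α * (x / α)) ∈ M := hx
  rwa [mul_div_cancel₀ x hα] at hx'

/-! ### generation -/

theorem weyl_mem {R : Type*} [Field R] (h2 : (2 : R) = 0)
    (H : Subgroup (SpecialLinearGroup (Fin 2) R)) (hJ : JJ h2 ∈ H) (hu : ∀ x, uu x ∈ H)
    (s : R) (hs : s ≠ 0) (h : 0 * 0 + s * s⁻¹ = 1) : mk2 h2 0 s s⁻¹ 0 h ∈ H := by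
  have : mk2 h2 0 s s⁻¹ 0 h = uu s * (JJ h2 * uu s⁻¹ * JJ h2) * uu s := by
    rw [JJ_uu_JJ]
    apply sl_ext <;> simp only [mul_entry, mk00, mk01, mk10, mk11, uu00, uu01, uu10, uu11, vv00,
      vv01, vv10, vv11] <;> field_simp
    · linear_combination (-1 : R) * h2
    · linear_combination (-s) * h2
    · ring
    · linear_combination (-1 : R) * h2
  rw [this]
  exact H.mul_mem (H.mul_mem (hu _) (H.mul_mem (H.mul_mem hJ (hu _)) hJ)) (hu _)

theorem sl_gen {F : Type*} [Field F] (h2 : (2 : F) = 0) :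
    Subgroup.closure (Set.range (uu : F → _) ∪ {JJ h2}) =
      (⊤ : Subgroup (Matrix.SpecialLinearGroup (Fin 2) F)) := by
  rw [eq_top_iff]
  rintro A -
  set H := Subgroup.closure (Set.range (uu : F → _) ∪ {JJ h2}) with hH
  have hu : ∀ x : F, uu x ∈ H := fun x => Subgroup.subset_closure (Or.inl ⟨x, rfl⟩)
  have hJ : JJ h2 ∈ H := Subgroup.subset_closure (Or.inr rfl)
  have hd := A.det_coe
  rw [Matrix.det_fin_two] at hd
  by_cases hc : A.1 1 0 = 0
  · rw [hc, mul_zero, sub_zero] at hd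
    have ha : A.1 0 0 ≠ 0 := left_ne_zero_of_mul_eq_one hd
    have hW := weyl_mem h2 H hJ hu (A.1 0 0) ha (by rw [mul_inv_cancel₀ ha]; ring)
    have h11 : A.1 1 1 = (A.1 0 0)⁻¹ := by
      field_simp; linear_combination hd
    have : A = mk2 h2 0 (A.1 0 0) (A.1 0 0)⁻¹ 0 (by rw [mul_inv_cancel₀ ha]; ring) * JJ h2 *
        uu (A.1 0 1 / A.1 0 0) := by
      apply sl_ext <;> simp only [mul_entry, mk00, mk01, mk10, mk11, uu00, uu01, uu10, uu11,
        JJ00, JJ01, JJ10, JJ11, hc, h11] <;> field_simp <;> ring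
    rw [this]
    exact H.mul_mem (H.mul_mem hW hJ) (hu _)
  · have hW := weyl_mem h2 H hJ hu (A.1 1 0)⁻¹ (inv_ne_zero hc)
      (by rw [mul_inv_cancel₀ (inv_ne_zero hc)]; ring)
    have : A = uu (A.1 0 0 / A.1 1 0) * mk2 h2 0 (A.1 1 0)⁻¹ ((A.1 1 0)⁻¹)⁻¹ 0
        (by rw [mul_inv_cancel₀ (inv_ne_zero hc)]; ring) * uu (A.1 1 1 / A.1 1 0) := by
      apply sl_ext <;> simp only [mul_entry, mk00, mk01, mk10, mk11, uu00, uu01, uu10, uu11] <;>
        field_simp <;> ring_nf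
      linear_combination (-1 : F) * hd - h2
    rw [this]
    exact H.mul_mem (H.mul_mem (hu _) hW) (hu _)

end Pool.Agent.Helper61.YG
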