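import Mathlib
import Pool.Agent.Helper35.YG.QE
import Pool.Agent.Helper61.YGRatio

set_option autoImplicit false

open Matrix Pool.Agent.Helper35.YG

namespace Pool.Agent.Helper61.YG

/-! ### norm one elements have odd order -/

theorem alg_two_pow {F A : Type*} [Field F] [CommRing A] [Algebra F A] (h2 : (2 : A) = 0) (x : A)
    (t : F) (hx : x * x = algebraMap F A t * x + 1) (i : ℕ) :
    ∃ b : F, x ^ (2 ^ i) = algebraMap F A (t ^ (2 ^ i - 1)) * x + algebraMap F A b := by
  induction i with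
  | zero => exact ⟨0, by simp⟩
  | succ i ih =>
    obtain ⟨b, hb⟩ := ih
    refine ⟨t ^ (2 ^ i - 1) * t ^ (2 ^ i - 1) + b * b, ?_⟩
    have hexp : 2 ^ i * 2 - 1 = (2 ^ i - 1) + (2 ^ i - 1) + 1 := by
      have : 1 ≤ 2 ^ i := Nat.one_le_two_pow
      omega
    rw [pow_succ 2 i, pow_mul, pow_two, hb, hexp, pow_add, pow_add, pow_one]
    generalize t ^ (2 ^ i - 1) = c
    simp only [map_mul, map_add]
    grind

theorem odd_order {F E : Type*} [Field F] [Finite F] [CharP F 2] [CommRing E] [Algebra F E]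
    [Nontrivial E] (h2 : (2 : E) = 0) (q : QE F E) (ξ : E) (h : ξ * q.bar ξ = 1) :
    ∃ m : ℕ, Odd m ∧ ξ ^ m = 1 := by
  have : Fintype F := Fintype.ofFinite F
  have hinj : Function.Injective (algebraMap F E) := (algebraMap F E).injective
  have hT : algebraMap F E (q.T ξ) = ξ + q.bar ξ := q.T_eq ξ
  have hx : ξ * ξ = algebraMap F E (q.T ξ) * ξ + 1 := by
    rw [hT]; grind
  obtain ⟨n, -, hn⟩ := FiniteField.card F 2
  set r : ℕ := (n : ℕ) with hr
  by_cases ht : q.T ξ = 0
  · -- `ξ` lies in `F` and has square one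
    refine ⟨1, odd_one, ?_⟩
    obtain ⟨a, b, hab⟩ := q.span ξ
    have hb : b = 0 := by
      have e1 : ξ + q.bar ξ = 0 := by rw [← hT, ht, map_zero]
      have e2 : q.bar ξ = algebraMap F E a + algebraMap F E b * q.bar (q.η * q.η) := by
        conv_lhs => rw [hab]
        rw [map_add, map_mul, q.bar_alg, q.bar_alg]
      have e3 : algebraMap F E (b * q.T (q.η * q.η)) = 0 := by
        rw [map_mul, q.T_eq]
        rw [e2] at e1
        grind
      have e4 : b * q.T (q.η * q.η) = 0 := by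
        apply hinj; rw [e3, map_zero]
      exact (mul_eq_zero.1 e4).resolve_right q.s_ne
    rw [hb, map_zero, zero_mul, add_zero] at hab
    rw [ht, map_zero, zero_mul, zero_add, hab, ← map_mul] at hx
    have e5 : a * a = 1 := hinj (by rw [hx, map_one])
    have h2F : (2 : F) = 0 := by
      have := CharP.cast_eq_zero F 2
      exact_mod_cast this
    have e6 : (a - 1) ^ 2 = 0 := by linear_combination e5 + (1 - a) * h2F
    have e7 : a = 1 := sub_eq_zero.1 (pow_eq_zero_iff (two_ne_zero) |>.1 e6)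
    rw [pow_one, hab, e7, map_one]
  · obtain ⟨b, hb⟩ := alg_two_pow h2 ξ (q.T ξ) hx r
    have ht1 : (q.T ξ) ^ (2 ^ r - 1) = 1 := by
      rw [← hn]; exact FiniteField.pow_card_sub_one_eq_one _ ht
    rw [ht1, map_one, one_mul] at hb
    have hchar : CharP E 2 := by
      refine (CharP.charP_iff_prime_eq_zero Nat.prime_two).2 ?_
      exact_mod_cast h2
    have hbq : (algebraMap F E b) ^ (2 ^ r) = algebraMap F E b := by
      rw [← map_pow, ← hn, FiniteField.pow_card]
    have hM2 : ξ ^ (2 ^ r * 2 ^ r) = ξ := by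
      rw [pow_mul, hb, add_pow_char_pow, hbq, hb]
      grind
    have hr0 : r ≠ 0 := n.ne_zero
    obtain ⟨s, hs⟩ := Nat.exists_eq_succ_of_ne_zero hr0
    have hpos : 1 ≤ 2 ^ r * 2 ^ r := Nat.one_le_iff_ne_zero.2 (by positivity)
    refine ⟨2 ^ r * 2 ^ r - 1, ?_, ?_⟩
    · refine Nat.Even.sub_odd hpos ?_ odd_one
      exact (Even.mul_right (by rw [hs, pow_succ]; exact even_two.mul_left _) _)
    · have e : ξ ^ (2 ^ r * 2 ^ r - 1) * ξ = ξ := by
        rw [← pow_succ, Nat.sub_add_cancel hpos, hM2]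
      calc ξ ^ (2 ^ r * 2 ^ r - 1) = ξ ^ (2 ^ r * 2 ^ r - 1) * ξ * q.bar ξ := by
            rw [mul_assoc, h, mul_one]
        _ = 1 := by rw [e, h]

/-! ### the elements `T_x` -/

section
variable {F E Γ : Type*} [Field F] [CommRing E] [Algebra F E] [Group Γ]

theorem barSL_entry (q : QE F E) (g : SpecialLinearGroup (Fin 2) E) (i j : Fin 2) :
    (q.barSL g).1 i j = q.bar (g.1 i j) := rfl

theorem T_conj (q : QE F E) (φ : SpecialLinearGroup (Fin 2) E →* Γ) (τ : Γ) (hτ : τ * τ = 1)
    (hφτ : ∀ g, τ * φ g * τ = φ (q.barSL g)) (a g g' : SpecialLinearGroup (Fin 2) E)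
    (h : a * g = g' * q.barSL a) : φ a * (φ g * τ) = (φ g' * τ) * φ a := by
  rw [← mul_assoc, ← map_mul, h, map_mul, ← hφτ a]
  simp only [mul_assoc, hτ, mul_one]

theorem T_three (q : QE F E) (φ : SpecialLinearGroup (Fin 2) E →* Γ) (τ : Γ) (hτ : τ * τ = 1)
    (hφτ : ∀ g, τ * φ g * τ = φ (q.barSL g)) (y x : SpecialLinearGroup (Fin 2) E) :
    (φ y * τ) * (φ x * τ) * (φ y * τ) = φ (y * q.barSL x * y) * τ := by
  rw [map_mul, map_mul, ← hφτ x]
  simp only [mul_assoc]

theorem T_sq (q : QE F E) (φ : SpecialLinearGroup (Fin 2) E →* Γ) (τ : Γ) (hτ : τ * τ = 1)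
    (hφτ : ∀ g, τ * φ g * τ = φ (q.barSL g)) (g : SpecialLinearGroup (Fin 2) E)
    (h : g * q.barSL g = 1) : (φ g * τ) * (φ g * τ) = 1 := by
  have : (φ g * τ) * (φ g * τ) = φ g * (τ * φ g * τ) := by simp only [mul_assoc]
  rw [this, hφτ, ← map_mul, h, map_one]

end


/-! ### group-theoretic helpers -/

theorem commute_conj_invol {Γ : Type*} [Group Γ] (t a b : Γ) (ht : t * t = 1)
    (h : Commute a b) : Commute (t * a * t) (t * b * t) := by
  have h' : a * b = b * a := h
  change t * a * t * (t * b * t) = t * b * t * (t * a * t)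
  have e1 : t * a * t * (t * b * t) = t * a * (t * t) * b * t := by simp only [mul_assoc]
  have e2 : t * b * t * (t * a * t) = t * b * (t * t) * a * t := by simp only [mul_assoc]
  rw [e1, e2, ht, mul_one, mul_one, mul_assoc t a b, mul_assoc t b a, h']

theorem commute_conj {Γ : Type*} [Group Γ] (t a b : Γ) (h : Commute a b) :
    Commute (t * a * t⁻¹) (t * b * t⁻¹) := by
  have h' : a * b = b * a := h
  change t * a * t⁻¹ * (t * b * t⁻¹) = t * b * t⁻¹ * (t * a * t⁻¹)
  have e1 : t * a * t⁻¹ * (t * b * t⁻¹) = t * (a * b) * t⁻¹ := by group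
  have e2 : t * b * t⁻¹ * (t * a * t⁻¹) = t * (b * a) * t⁻¹ := by group
  rw [e1, e2, h']

/-! ### matrix identities -/

section mats
variable {F E : Type*} [Field F] [CommRing E] [Algebra F E] (h2 : (2 : E) = 0) (q : QE F E)

theorem bar_one' : q.bar 1 = 1 := map_one _

/-- `g3 y c = [[y, c], [0, bar y]]` -/
def g3 (y c : E) (h : y * q.bar y = 1) : SpecialLinearGroup (Fin 2) E :=
  mk2 h2 y c 0 (q.bar y) (by rw [h]; ring)

/-- `g4 y c = [[y, 0], [c, bar y]]` -/
def g4 (y c : E) (h : y * q.bar y = 1) : SpecialLinearGroup (Fin 2) E :=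
  mk2 h2 y 0 c (q.bar y) (by rw [h]; ring)

theorem g3_eq (y c : E) (h : y * q.bar y = 1) :
    g3 h2 q y c h = dd y (q.bar y) h * uu (c * q.bar y) := by
  apply sl_ext <;> simp only [g3, mul_entry, mk00, mk01, mk10, mk11, dd00, dd01, dd10, dd11, uu00,
    uu01, uu10, uu11] <;> grind

theorem J_g3_J (y c : E) (h : y * q.bar y = 1) (hc : q.bar c = c) :
    JJ h2 * q.barSL (g3 h2 q y c h) * JJ h2 = g4 h2 q y c h := by
  have hb := q.bar_bar y
  apply sl_ext <;> simp only [g3, g4, mul_entry, barSL_entry, mk00, mk01, mk10, mk11, JJ00, JJ01,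
    JJ10, JJ11, map_zero, hb, hc] <;> grind

/-- `Ze e = [[e, 1 + N e], [1, bar e]]` -/
def Ze (e : E) : SpecialLinearGroup (Fin 2) E :=
  mk2 h2 e (1 + e * q.bar e) 1 (q.bar e) (by linear_combination (e * q.bar e) * h2)

theorem uu_J_Ze (e : E) : uu e * JJ h2 = Ze h2 q e * q.barSL (uu e) := by
  apply sl_ext <;> simp only [Ze, mul_entry, barSL_entry, mk00, mk01, mk10, mk11, JJ00, JJ01,
    JJ10, JJ11, uu00, uu01, uu10, uu11, map_zero, map_one] <;> grind

/-- antidiagonal -/
def anti (k k' : E) (h : k * k' = 1) : SpecialLinearGroup (Fin 2) E :=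
  mk2 h2 0 k' k 0 (by rw [mul_comm k' k, h]; ring)

theorem Z_three (s : F) (hs : s ≠ 0) (hs1 : 1 + s ≠ 0) (z : E) (hz : z * q.bar z = 1)
    (hT : z + q.bar z = algebraMap F E s) (k k' : E) (hk : k * k' = 1)
    (hkdef : k = 1 + algebraMap F E s⁻¹) (e₁ e₂ : E)
    (he₁ : e₁ = (1 + z) * algebraMap F E (1 + s)⁻¹)
    (he₂ : e₂ = (1 + z) * algebraMap F E (1 + s)⁻¹ * algebraMap F E s⁻¹) :
    Ze h2 q e₁ * q.barSL (Ze h2 q e₂) * Ze h2 q e₁ = anti h2 k k' hk := by
  have hS : algebraMap F E s * algebraMap F E s⁻¹ = 1 := by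
    rw [← map_mul, mul_inv_cancel₀ hs, map_one]
  have hP : (1 + algebraMap F E s) * algebraMap F E (1 + s)⁻¹ = 1 := by
    rw [← map_one (algebraMap F E), ← map_add, ← map_mul, mul_inv_cancel₀ hs1]
  have hb₁ : q.bar e₁ = (1 + q.bar z) * algebraMap F E (1 + s)⁻¹ := by
    rw [he₁, map_mul, map_add, map_one, q.bar_alg]
  have hb₂ : q.bar e₂ = (1 + q.bar z) * algebraMap F E (1 + s)⁻¹ * algebraMap F E s⁻¹ := by
    rw [he₂, map_mul, map_mul, map_add, map_one, q.bar_alg, q.bar_alg]
  have hbb := q.bar_bar e₂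
  have hk' : k' = algebraMap F E s * algebraMap F E (1 + s)⁻¹ := by
    have : k * (algebraMap F E s * algebraMap F E (1 + s)⁻¹) = 1 := by
      rw [hkdef]; grind
    calc k' = k' * (k * (algebraMap F E s * algebraMap F E (1 + s)⁻¹)) := by rw [this, mul_one]
      _ = (k * k') * (algebraMap F E s * algebraMap F E (1 + s)⁻¹) := by ring
      _ = _ := by rw [hk, one_mul]
  apply sl_ext <;> simp only [Ze, anti, mul_entry, barSL_entry, mk00, mk01, mk10, mk11, map_add,
    map_mul, map_one, hbb] <;> rw [hb₁, hb₂, he₁, he₂] <;>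
    generalize algebraMap F E s = S at * <;> generalize algebraMap F E s⁻¹ = Si at * <;>
    generalize algebraMap F E (1 + s)⁻¹ = P at * <;> generalize q.bar z = zb at * <;>
    subst hkdef <;> subst hk' <;> clear hb₁ hb₂ he₁ he₂ hbb
  · grind
  · grind
  · grind
  · grind

end mats


section mats2
variable {F E : Type*} [Field F] [CommRing E] [Algebra F E] (h2 : (2 : E) = 0) (q : QE F E)

/-- the element `x_*` -/
def gstar (z P S : E) (hz : z * q.bar z = 1) (hP : (1 + S) * P = 1) :
    SpecialLinearGroup (Fin 2) E :=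
  mk2 h2 (z * z * P) (S * (P * P)) S (q.bar z * q.bar z * P) (by grind)

/-- the element `x_0` -/
def gx (P S : E) (hP : (1 + S) * P = 1) : SpecialLinearGroup (Fin 2) E :=
  mk2 h2 P (S * (P * P)) S P (by grind)

theorem star_one (z P S : E) (hz : z * q.bar z = 1) (hP : (1 + S) * P = 1)
    (hT : z + q.bar z = S) (hbP : q.bar P = P) (h1 : (1 : E) * q.bar 1 = 1) :
    uu ((1 + z) * P) * g4 h2 q 1 S h1
      = gstar h2 q z P S hz hP * q.barSL (uu ((1 + z) * P)) := by
  apply sl_ext <;> simp only [gstar, g4, mul_entry, barSL_entry, mk00, mk01, mk10, mk11, uu00,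
    uu01, uu10, uu11, map_add, map_mul, map_one, map_zero, hbP] <;> clear h1 hbP <;>
    generalize q.bar z = zb at * <;> grind

theorem star_two (z P S Si : E) (hz : z * q.bar z = 1) (hP : (1 + S) * P = 1)
    (hT : z + q.bar z = S) (hbP : q.bar P = P) (hbS : q.bar Si = Si) (hSi : S * Si = 1) :
    uu ((1 + z) * P * Si) * g4 h2 q z S hz
      = gstar h2 q z P S hz hP * q.barSL (uu ((1 + z) * P * Si)) := by
  apply sl_ext <;> simp only [gstar, g4, mul_entry, barSL_entry, mk00, mk01, mk10, mk11, uu00,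
    uu01, uu10, uu11, map_add, map_mul, map_one, map_zero, hbP, hbS] <;> clear hbS hbP <;>
    generalize q.bar z = zb at * <;> grind

theorem x_zero (z P S : E) (hz : z * q.bar z = 1) (hP : (1 + S) * P = 1)
    (hz' : q.bar z * z = 1) :
    dd (q.bar z) z hz' * gstar h2 q z P S hz hP = gx h2 P S hP * q.barSL (dd (q.bar z) z hz') := by
  have hb := q.bar_bar z
  apply sl_ext <;> simp only [gstar, gx, mul_entry, barSL_entry, mk00, mk01, mk10, mk11, dd00,
    dd01, dd10, dd11, map_zero, hb] <;> clear hb <;>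
    generalize q.bar z = zb at * <;> grind

theorem anti_dd (k k' : E) (hk : k * k' = 1) (y : E) (hy : y * q.bar y = 1) :
    dd y (q.bar y) hy * anti h2 k k' hk = anti h2 k k' hk * q.barSL (dd y (q.bar y) hy) := by
  have hb := q.bar_bar y
  apply sl_ext <;> simp only [anti, mul_entry, barSL_entry, mk00, mk01, mk10, mk11, dd00,
    dd01, dd10, dd11, map_zero, hb] <;> ring

theorem anti_bar (k k' : E) (hk : k * k' = 1) (hbk : q.bar k = k) (hbk' : q.bar k' = k') :
    q.barSL (anti h2 k k' hk) = anti h2 k k' hk := by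
  apply sl_ext <;> simp only [anti, barSL_entry, mk00, mk01, mk10, mk11, map_zero, hbk, hbk']

theorem anti_uu (k k' : E) (hk : k * k' = 1) (e : E) :
    anti h2 k k' hk * uu e = vv (k * k * e) * anti h2 k k' hk := by
  apply sl_ext <;> simp only [anti, mul_entry, mk00, mk01, mk10, mk11, uu00,
    uu01, uu10, uu11, vv00, vv01, vv10, vv11] <;> grind

theorem anti_eq (k k' : E) (hk : k * k' = 1) :
    anti h2 k k' hk = uu k' * vv k * uu k' := by
  apply sl_ext <;> simp only [anti, mul_entry, mk00, mk01, mk10, mk11, uu00,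
    uu01, uu10, uu11, vv00, vv01, vv10, vv11] <;> grind

theorem dd_eq_anti (x y : E) (h : x * y = 1) (h' : y * x = 1) :
    dd x y h = anti h2 y x h' * anti h2 1 1 (mul_one 1) := by
  apply sl_ext <;> simp only [anti, mul_entry, mk00, mk01, mk10, mk11, dd00,
    dd01, dd10, dd11] <;> ring

/-- the matrix `g₁` -/
def gone (m β η ηb : E) (h : m * β * (m * ηb) + m * β * η * m = 1) :
    SpecialLinearGroup (Fin 2) E :=
  mk2 h2 (m * β) (m * β * η) m (m * ηb) h

theorem gone_J (m β η : E) (h : m * β * (m * q.bar η) + m * β * η * m = 1)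
    (hη : η * q.bar η = 1) (hbm : q.bar m = m) (hbβ : q.bar β = β) :
    gone h2 m β η (q.bar η) h * JJ h2
      = dd η (q.bar η) hη * q.barSL (gone h2 m β η (q.bar η) h) := by
  have hb := q.bar_bar η
  apply sl_ext <;> simp only [gone, mul_entry, barSL_entry, mk00, mk01, mk10, mk11, dd00,
    dd01, dd10, dd11, JJ00, JJ01, JJ10, JJ11, map_zero, map_mul, hb, hbm, hbβ] <;>
    clear hb hbm hbβ <;>
    generalize q.bar η = ηb at * <;> grind

theorem gone_alpha (m β η : E) (h : m * β * (m * q.bar η) + m * β * η * m = 1)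
    (hbm : q.bar m = m) (hbβ : q.bar β = β) :
    gone h2 m β η (q.bar η) h * uu (η + q.bar η)
      = 1 * q.barSL (gone h2 m β η (q.bar η) h) := by
  have hb := q.bar_bar η
  rw [one_mul]
  apply sl_ext <;> simp only [gone, mul_entry, barSL_entry, mk00, mk01, mk10, mk11, uu00,
    uu01, uu10, uu11, map_zero, map_mul, hb, hbm, hbβ] <;>
    clear hb hbm hbβ <;>
    generalize q.bar η = ηb at * <;> grind

theorem gone_x (m S β η : E) (h : m * β * (m * q.bar η) + m * β * η * m = 1)
    (hβ : (1 + S) * β = 1)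
    (hbm : q.bar m = m) (hbβ : q.bar β = β) :
    gone h2 m β η (q.bar η) h * uu ((η + q.bar η) * β)
      = gx h2 β S hβ * q.barSL (gone h2 m β η (q.bar η) h) := by
  have hb := q.bar_bar η
  apply sl_ext <;> simp only [gone, gx, mul_entry, barSL_entry, mk00, mk01, mk10, mk11, uu00,
    uu01, uu10, uu11, map_zero, map_mul, hb, hbm, hbβ] <;>
    clear hb hbm hbβ <;>
    generalize q.bar η = ηb at * <;> grind

end mats2


/-! ### the element `X` -/

section main
variable {F E Γ : Type*} [Field F] [CommRing E] [Algebra F E] [Group Γ] (h2 : (2 : E) = 0)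
  (q : QE F E) (φ : SpecialLinearGroup (Fin 2) E →* Γ) (τ s : Γ)

include q in
theorem comm_g3 (hsτ : Commute s τ) (hsu : ∀ e, Commute s (φ (uu e))) (y c : E)
    (h : y * q.bar y = 1) (hy : Commute s (φ (dd y (q.bar y) h))) :
    Commute s (φ (g3 h2 q y c h) * τ) := by
  rw [g3_eq, map_mul]
  exact (hy.mul_right (hsu _)).mul_right hsτ

theorem comm_g4 (hτ : τ * τ = 1) (hφτ : ∀ g, τ * φ g * τ = φ (q.barSL g)) (hsτ : Commute s τ)
    (hsu : ∀ e, Commute s (φ (uu e))) (y c : E) (hc : q.bar c = c)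
    (h : y * q.bar y = 1) (hy : Commute s (φ (dd y (q.bar y) h))) :
    Commute ((φ (JJ h2) * τ) * s * (φ (JJ h2) * τ)) (φ (g4 h2 q y c h) * τ) := by
  have hJ : (φ (JJ h2) * τ) * (φ (JJ h2) * τ) = 1 := by
    apply T_sq q φ τ hτ hφτ
    apply sl_ext <;> simp [mul_entry, barSL_entry]
  have := commute_conj_invol (φ (JJ h2) * τ) s (φ (g3 h2 q y c h) * τ) hJ
    (comm_g3 h2 q φ τ s hsτ hsu y c h hy)
  rwa [T_three q φ τ hτ hφτ, J_g3_J h2 q y c h hc] at this

theorem comm_X (hτ : τ * τ = 1) (hs : s * s = 1)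
    (hφτ : ∀ g, τ * φ g * τ = φ (q.barSL g)) (hsτ : Commute s τ)
    (hsu : ∀ e, Commute s (φ (uu e)))
    (hbr : s * (φ (JJ h2) * τ) * s = (φ (JJ h2) * τ) * s * (φ (JJ h2) * τ))
    (s0 : F) (hs0 : s0 ≠ 0) (hs1 : 1 + s0 ≠ 0) (z : E) (hz : z * q.bar z = 1)
    (hT : z + q.bar z = algebraMap F E s0)
    (hsz : Commute s (φ (dd z (q.bar z) hz)))
    (k k' : E) (hk : k * k' = 1)
    (hkdef : k = 1 + algebraMap F E s0⁻¹)
    (hP : (1 + algebraMap F E s0) * algebraMap F E (1 + s0)⁻¹ = 1) :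
    Commute (s * (φ (anti h2 k k' hk) * τ) * s)
      (φ (gx h2 (algebraMap F E (1 + s0)⁻¹) (algebraMap F E s0) hP) * τ) := by
  have hSi : algebraMap F E s0 * algebraMap F E s0⁻¹ = 1 := by
    rw [← map_mul, mul_inv_cancel₀ hs0, map_one]
  have h1 : (1 : E) * q.bar 1 = 1 := by rw [map_one, mul_one]
  have hbP : q.bar (algebraMap F E (1 + s0)⁻¹) = algebraMap F E (1 + s0)⁻¹ := q.bar_alg _
  have hbS : q.bar (algebraMap F E s0⁻¹) = algebraMap F E s0⁻¹ := q.bar_alg _
  set P := algebraMap F E (1 + s0)⁻¹ with hPdef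
  set e₁ := (1 + z) * P with he₁
  set e₂ := (1 + z) * P * algebraMap F E s0⁻¹ with he₂
  set W := (φ (JJ h2) * τ) * s * (φ (JJ h2) * τ) with hW
  -- the conjugates
  have hZ : ∀ e, φ (Ze h2 q e) * τ = φ (uu e) * (φ (JJ h2) * τ) * (φ (uu e))⁻¹ := by
    intro e
    rw [T_conj q φ τ hτ hφτ (uu e) (JJ h2) (Ze h2 q e) (uu_J_Ze h2 q e)]
    group
  have hsZ : ∀ e, s * (φ (Ze h2 q e) * τ) * s = φ (uu e) * W * (φ (uu e))⁻¹ := by
    intro e
    rw [hZ, ← hbr]
    have c1 : s * φ (uu e) = φ (uu e) * s := hsu e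
    have c2 : (φ (uu e))⁻¹ * s = s * (φ (uu e))⁻¹ := ((hsu e).inv_right.eq).symm
    calc s * (φ (uu e) * (φ (JJ h2) * τ) * (φ (uu e))⁻¹) * s
        = (s * φ (uu e)) * (φ (JJ h2) * τ) * ((φ (uu e))⁻¹ * s) := by group
      _ = φ (uu e) * (s * (φ (JJ h2) * τ) * s) * (φ (uu e))⁻¹ := by rw [c1, c2]; group
  -- commutation with the star element
  have hdd1 : Commute s (φ (dd 1 (q.bar 1) h1)) := by
    have : dd (1 : E) (q.bar 1) h1 = 1 := by
      apply sl_ext <;> simp
    rw [this, map_one]; exact Commute.one_right s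
  have hst₁ : Commute (φ (uu e₁) * W * (φ (uu e₁))⁻¹)
      (φ (gstar h2 q z P (algebraMap F E s0) hz hP) * τ) := by
    have h4 := comm_g4 h2 q φ τ s hτ hφτ hsτ hsu 1 (algebraMap F E s0) (q.bar_alg _) h1 hdd1
    have h5 := commute_conj (φ (uu e₁)) _ _ h4
    have h6 := T_conj q φ τ hτ hφτ (uu e₁) _ _
      (star_one h2 q z P (algebraMap F E s0) hz hP hT hbP h1)
    have h7 : φ (uu e₁) * (φ (g4 h2 q 1 (algebraMap F E s0) h1) * τ) * (φ (uu e₁))⁻¹
        = φ (gstar h2 q z P (algebraMap F E s0) hz hP) * τ := by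
      rw [h6]; group
    rwa [h7] at h5
  have hst₂ : Commute (φ (uu e₂) * W * (φ (uu e₂))⁻¹)
      (φ (gstar h2 q z P (algebraMap F E s0) hz hP) * τ) := by
    have h4 := comm_g4 h2 q φ τ s hτ hφτ hsτ hsu z (algebraMap F E s0) (q.bar_alg _) hz hsz
    have h5 := commute_conj (φ (uu e₂)) _ _ h4
    have h6 := T_conj q φ τ hτ hφτ (uu e₂) _ _
      (star_two h2 q z P (algebraMap F E s0) (algebraMap F E s0⁻¹) hz hP hT hbP hbS hSi)
    have h7 : φ (uu e₂) * (φ (g4 h2 q z (algebraMap F E s0) hz) * τ) * (φ (uu e₂))⁻¹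
        = φ (gstar h2 q z P (algebraMap F E s0) hz hP) * τ := by
      rw [h6]; group
    rwa [h7] at h5
  -- `X` as a product
  have hX : s * (φ (anti h2 k k' hk) * τ) * s
      = (φ (uu e₁) * W * (φ (uu e₁))⁻¹) * (φ (uu e₂) * W * (φ (uu e₂))⁻¹) *
        (φ (uu e₁) * W * (φ (uu e₁))⁻¹) := by
    rw [← Z_three h2 q s0 hs0 hs1 z hz hT k k' hk hkdef e₁ e₂ he₁ he₂, ← T_three q φ τ hτ hφτ,
      ← hsZ, ← hsZ]
    have : ∀ a b : Γ, s * (a * b * a) * s = (s * a * s) * (s * b * s) * (s * a * s) := by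
      intro a b
      have e : (s * a * s) * (s * b * s) * (s * a * s) = s * a * (s * s) * b * (s * s) * a * s := by
        simp only [mul_assoc]
      rw [e, hs]; simp only [mul_one, mul_assoc]
    exact this _ _
  have hXstar : Commute (s * (φ (anti h2 k k' hk) * τ) * s)
      (φ (gstar h2 q z P (algebraMap F E s0) hz hP) * τ) := by
    rw [hX]
    exact (hst₁.mul_left hst₂).mul_left hst₁
  -- conjugation by the diagonal element
  have hz' : q.bar z * z = 1 := by rw [mul_comm]; exact hz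
  have hDs : Commute s (φ (dd (q.bar z) z hz')) := by
    have : dd (q.bar z) z hz' = (dd z (q.bar z) hz)⁻¹ := by
      rw [eq_inv_iff_mul_eq_one]
      apply sl_ext <;> simp [mul_entry, hz, hz']
    rw [this, map_inv]
    exact hsz.inv_right
  have hDT : Commute (φ (dd (q.bar z) z hz')) (φ (anti h2 k k' hk) * τ) := by
    have hb : q.bar (q.bar z) = z := q.bar_bar z
    have e : dd (q.bar z) z hz' * anti h2 k k' hk
        = anti h2 k k' hk * q.barSL (dd (q.bar z) z hz') := by
      apply sl_ext <;> simp only [anti, mul_entry, barSL_entry, mk00, mk01, mk10, mk11, dd00,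
        dd01, dd10, dd11, map_zero, hb] <;> ring
    exact T_conj q φ τ hτ hφτ _ _ _ e
  have hDX : Commute (φ (dd (q.bar z) z hz')) (s * (φ (anti h2 k k' hk) * τ) * s) :=
    (hDs.symm.mul_right hDT).mul_right hDs.symm
  have h8 := T_conj q φ τ hτ hφτ (dd (q.bar z) z hz') _ _ (x_zero h2 q z P _ hz hP hz')
  have h9 : φ (gx h2 P (algebraMap F E s0) hP) * τ = φ (dd (q.bar z) z hz') *
      (φ (gstar h2 q z P (algebraMap F E s0) hz hP) * τ) * (φ (dd (q.bar z) z hz'))⁻¹ := by
    rw [h8]; group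
  rw [h9]
  exact (hDX.symm.mul_right hXstar).mul_right hDX.symm.inv_right

end main



/-! ### the real subgroup -/

section polys
variable {E : Type*} [CommRing E] (h2 : (2 : E) = 0)
include h2

theorem poly_sq (a b : E) : (a + b) * (a + b) = a * a + b * b := by
  grind

theorem poly_det (η ηb ξ ξb ai : E) (hη : η * ηb = 1) (hξ : ξ * ξb = 1) (ha : (η + ηb) * ai = 1) :
    ai * (ξ * ηb + ξb * η) * (ai * (ξ * η + ξb * ηb)) + ai * (ξ + ξb) * (ai * (ξ + ξb)) = 1 := by
  grind

theorem poly_e00 (η ηb ξ ξb ai mm bb : E) (hη : η * ηb = 1)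
    (ha : (η + ηb) * ai = 1) :
    mm * bb * (ai * (ξ * ηb + ξb * η)) + mm * bb * η * (ai * (ξ + ξb))
      = ξ * (mm * bb) + 0 * mm := by
  grind

theorem poly_e01 (η ηb ξ ξb ai mm bb : E) (hη : η * ηb = 1)
    (ha : (η + ηb) * ai = 1) :
    mm * bb * (ai * (ξ + ξb)) + mm * bb * η * (ai * (ξ * η + ξb * ηb))
      = ξ * (mm * bb * η) + 0 * (mm * ηb) := by
  grind

theorem poly_e10 (η ηb ξ ξb ai mm bb : E) (hη : η * ηb = 1)
    (ha : (η + ηb) * ai = 1) :
    mm * (ai * (ξ * ηb + ξb * η)) + mm * ηb * (ai * (ξ + ξb))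
      = 0 * (mm * bb) + ξb * mm := by
  grind

theorem poly_e11 (η ηb ξ ξb ai mm bb : E) (hη : η * ηb = 1)
    (ha : (η + ηb) * ai = 1) :
    mm * (ai * (ξ + ξb)) + mm * ηb * (ai * (ξ * η + ξb * ηb))
      = 0 * (mm * bb * η) + ξb * (mm * ηb) := by
  grind

end polys

section real
variable {F E Γ : Type*} [Field F] [Finite F] [CharP F 2] [CommRing E] [Algebra F E] [Group Γ]
  [Nontrivial E] (h2 : (2 : E) = 0)
  (q : QE F E) (φ : SpecialLinearGroup (Fin 2) E →* Γ) (τ : Γ)

theorem real_comm (hq : 4 ≤ Nat.card F) (hτ : τ * τ = 1)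
    (hφτ : ∀ g, τ * φ g * τ = φ (q.barSL g)) (X : Γ) (hXτ : Commute X τ)
    (η : E) (hη : η * q.bar η = 1) (s0 : F) (hs0 : s0 ≠ 0)
    (hs0E : algebraMap F E s0 = η * η + q.bar η * q.bar η)
    (hgen : ∀ S : Subring F, s0 ∈ S → S = ⊤)
    (hXη : Commute X (φ (dd η (q.bar η) hη) * τ))
    (hs1 : 1 + s0 ≠ 0)
    (hP : (1 + algebraMap F E s0) * algebraMap F E (1 + s0)⁻¹ = 1)
    (hXx : Commute X (φ (gx h2 (algebraMap F E (1 + s0)⁻¹)
      (algebraMap F E s0) hP) * τ)) (ξ : E) (hξ : ξ * q.bar ξ = 1) :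
    Commute X (φ (dd ξ (q.bar ξ) hξ)) := by
  have hinj : Function.Injective (algebraMap F E) := (algebraMap F E).injective
  have h2F : (2 : F) = 0 := by
    have := CharP.cast_eq_zero F 2
    exact_mod_cast this
  obtain ⟨α, hαE⟩ : ∃ α : F, algebraMap F E α = η + q.bar η := ⟨q.T η, q.T_eq η⟩
  have hαα : α * α = s0 := by
    apply hinj
    rw [map_mul, hαE, hs0E]
    exact poly_sq h2 _ _
  have hα : α ≠ 0 := by rintro h; rw [h, mul_zero] at hαα; exact hs0 hαα.symm
  obtain ⟨β, hβdef⟩ : ∃ β : F, β = (1 + s0)⁻¹ := ⟨_, rfl⟩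
  have hβ : β ≠ 0 := by rw [hβdef]; exact inv_ne_zero hs1
  have hP' : (1 + algebraMap F E s0) * algebraMap F E β = 1 := by rw [hβdef]; exact hP
  have hXx' : Commute X (φ (gx h2 (algebraMap F E β) (algebraMap F E s0) hP') * τ) := by
    subst hβdef; exact hXx
  -- square root
  obtain ⟨m, hm⟩ : ∃ m : F, m * m = (α * β)⁻¹ := by
    have hi : Function.Injective (fun r : F => r ^ 2) := by
      intro a b hab
      have hab' : a ^ 2 = b ^ 2 := hab
      have : (a - b) ^ 2 = 0 := by linear_combination hab' - (a * b - b ^ 2) * h2F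
      exact sub_eq_zero.1 (pow_eq_zero_iff (two_ne_zero) |>.1 this)
    obtain ⟨r, hr⟩ := (Finite.injective_iff_surjective.1 hi) (α * β)⁻¹
    exact ⟨r, by rw [← hr]; ring⟩
  have hmE : algebraMap F E m * algebraMap F E m * algebraMap F E α * algebraMap F E β = 1 := by
    rw [← map_mul, ← map_mul, ← map_mul, hm, mul_assoc, inv_mul_cancel₀ (mul_ne_zero hα hβ),
      map_one]
  have hdet : algebraMap F E m * algebraMap F E β * (algebraMap F E m * q.bar η)
      + algebraMap F E m * algebraMap F E β * η * algebraMap F E m = 1 := by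
    rw [hαE] at hmE
    rw [← hmE]; ring
  have hbm : q.bar (algebraMap F E m) = algebraMap F E m := q.bar_alg m
  have hbβ : q.bar (algebraMap F E β) = algebraMap F E β := q.bar_alg β
  set g := gone h2 (algebraMap F E m) (algebraMap F E β) η (q.bar η) hdet with hg
  -- the real representation
  let Φ : SpecialLinearGroup (Fin 2) F →* Γ :=
    (MulAut.conj (φ g)).toMonoidHom.comp
      (φ.comp (SpecialLinearGroup.map (algebraMap F E)))
  have hΦ : ∀ A, Φ A = φ g * φ (SpecialLinearGroup.map (algebraMap F E) A) * (φ g)⁻¹ :=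
    fun A => rfl
  set τ₁ : Γ := φ g * τ * (φ g)⁻¹ with hτ₁
  have hτ₁sq : τ₁ * τ₁ = 1 := by
    rw [hτ₁]
    calc φ g * τ * (φ g)⁻¹ * (φ g * τ * (φ g)⁻¹) = φ g * (τ * τ) * (φ g)⁻¹ := by group
      _ = 1 := by rw [hτ]; group
  have hΦτ : ∀ A, Commute (Φ A) τ₁ := by
    intro A
    rw [hΦ, hτ₁]
    apply commute_conj
    have h1 := hφτ (SpecialLinearGroup.map (algebraMap F E) A)
    have h3 : q.barSL (SpecialLinearGroup.map (algebraMap F E) A)
        = SpecialLinearGroup.map (algebraMap F E) A := by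
      apply sl_ext <;> exact q.bar_alg _
    rw [h3] at h1
    change _ * τ = τ * _
    calc φ (SpecialLinearGroup.map (algebraMap F E) A) * τ
        = (τ * φ (SpecialLinearGroup.map (algebraMap F E) A) * τ) * τ := by rw [h1]
      _ = τ * φ (SpecialLinearGroup.map (algebraMap F E) A) * (τ * τ) := by
          simp only [mul_assoc]
      _ = _ := by rw [hτ, mul_one]
  -- the bridge
  have hbridge : ∀ (A : SpecialLinearGroup (Fin 2) F) (g' : SpecialLinearGroup (Fin 2) E),
      g * SpecialLinearGroup.map (algebraMap F E) A = g' * q.barSL g →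
      φ g' * τ = Φ A * τ₁ := by
    intro A g' h
    have h1 := T_conj q φ τ hτ hφτ g _ g' h
    have h3 : φ g' * τ = φ g * (φ (SpecialLinearGroup.map (algebraMap F E) A) * τ) * (φ g)⁻¹ := by
      rw [h1]; group
    rw [h3, hΦ, hτ₁]
    group
  have hmapJ : SpecialLinearGroup.map (algebraMap F E) (JJ h2F) = JJ h2 := by
    apply sl_ext
    · exact map_zero (algebraMap F E)
    · exact map_one (algebraMap F E)
    · exact map_one (algebraMap F E)
    · exact map_zero (algebraMap F E)
  have hmapu : ∀ x, SpecialLinearGroup.map (algebraMap F E) (uu x) = uu (algebraMap F E x) := by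
    intro x
    apply sl_ext
    · exact map_one (algebraMap F E)
    · rfl
    · exact map_zero (algebraMap F E)
    · exact map_one (algebraMap F E)
  have hXJ : Commute X (Φ (JJ h2F) * τ₁) := by
    rw [← hbridge (JJ h2F) (dd η (q.bar η) hη)]
    · exact hXη
    · rw [hmapJ]; exact gone_J h2 q _ _ η hdet hη hbm hbβ
  have hXα : Commute X (Φ (uu α) * τ₁) := by
    rw [← hbridge (uu α) 1]
    · rw [map_one, one_mul]; exact hXτ
    · rw [hmapu, hαE]; exact gone_alpha h2 q _ _ η hdet hbm hbβ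
  have hXαβ : Commute X (Φ (uu (α * β)) * τ₁) := by
    rw [← hbridge (uu (α * β)) _]
    · exact hXx'
    · rw [hmapu, map_mul, hαE]; exact gone_x h2 q _ _ _ η hdet hP' hbm hbβ
  -- the subgroup `M`
  let M : Subgroup (SpecialLinearGroup (Fin 2) F) :=
    { carrier := {A | Commute X (Φ A) ∨ Commute X (Φ A * τ₁)}
      one_mem' := by
        left
        rw [map_one]; exact Commute.one_right X
      mul_mem' := by
        intro A B hA hB
        change Commute X (Φ (A * B)) ∨ Commute X (Φ (A * B) * τ₁)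
        have c := (hΦτ B).eq
        rcases hA with hA | hA <;> rcases hB with hB | hB
        · left; rw [map_mul]; exact hA.mul_right hB
        · right
          have := hA.mul_right hB
          rwa [← mul_assoc, ← map_mul] at this
        · right
          have := hA.mul_right hB
          rwa [mul_assoc, ← c, ← mul_assoc, ← map_mul] at this
        · left
          have := hA.mul_right hB
          have e : Φ A * τ₁ * (Φ B * τ₁) = Φ (A * B) := by
            rw [c, mul_assoc, ← mul_assoc τ₁ τ₁ (Φ B), hτ₁sq, one_mul, map_mul]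
          rwa [e] at this
      inv_mem' := by
        intro A hA
        change Commute X (Φ A⁻¹) ∨ Commute X (Φ A⁻¹ * τ₁)
        rcases hA with hA | hA
        · left; rw [map_inv]; exact hA.inv_right
        · right
          have e : Φ A⁻¹ * τ₁ = (Φ A * τ₁)⁻¹ := by
            have hi : τ₁⁻¹ = τ₁ := inv_eq_of_mul_eq_one_left hτ₁sq
            rw [_root_.mul_inv_rev, hi, map_inv]
            exact (hΦτ A).inv_left.eq
          rw [e]; exact hA.inv_right }
  have hMu : ∀ x, uu x ∈ M := by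
    refine ratio h2F M (Or.inr hXJ) α β hα hβ (Or.inr hXα) (Or.inr hXαβ) ?_
    intro S hS
    apply hgen
    -- `S` contains the inverse of `β`
    have hfin : Finite F := inferInstance
    have hβpow : ∃ n : ℕ, 0 < n ∧ β ^ n = 1 := by
      have := isOfFinOrder_of_finite (Units.mk0 β hβ)
      obtain ⟨n, hn, hn1⟩ := isOfFinOrder_iff_pow_eq_one.1 this
      refine ⟨n, hn, ?_⟩
      have := congrArg Units.val hn1
      simpa using this
    obtain ⟨n, hn, hn1⟩ := hβpow
    have hinv : β⁻¹ ∈ S := by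
      have e : β⁻¹ = β ^ (n - 1) := by
        have e' : β ^ (n - 1) * β = 1 := by
          rw [← pow_succ, Nat.sub_add_cancel hn, hn1]
        exact (eq_inv_of_mul_eq_one_left e').symm
      rw [e]; exact S.pow_mem hS _
    have hinv' : 1 + s0 ∈ S := by
      rwa [hβdef, inv_inv] at hinv
    have := S.sub_mem hinv' S.one_mem
    rwa [add_sub_cancel_left] at this
  -- `X` commutes with `Φ (uu x * J)` for `x ≠ 0`
  have hXuJ : ∀ x, x ≠ 0 → Commute X (Φ (uu x * JJ h2F)) := by
    intro x hx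
    have hA : uu x * JJ h2F ∈ M := M.mul_mem (hMu x) (Or.inr hXJ)
    have htr : ((uu x * JJ h2F : SpecialLinearGroup (Fin 2) F) : Matrix (Fin 2) (Fin 2) F).trace
        ≠ 0 := by
      rw [Matrix.trace_fin_two, mul_entry, mul_entry]
      simpa using hx
    obtain ⟨k, hk, hk1⟩ := odd_of_trace _ htr
    rcases hA with hA | hA
    · exact hA
    · have h3 := hA.pow_right (k + 1)
      have e : (Φ (uu x * JJ h2F) * τ₁) ^ (k + 1) = Φ (uu x * JJ h2F) := by
        obtain ⟨j, hj⟩ := hk
        have hτp : τ₁ ^ (k + 1) = 1 := by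
          have : k + 1 = 2 * (j + 1) := by omega
          rw [this, pow_mul, pow_two, hτ₁sq, one_pow]
        rw [(hΦτ _).mul_pow, hτp, mul_one, ← map_pow, pow_succ, hk1, one_mul]
      rwa [e] at h3
  have hXu : ∀ x, Commute X (Φ (uu x)) := by
    intro x
    obtain ⟨y, hy0, hyx⟩ : ∃ y : F, y ≠ 0 ∧ y ≠ x := by
      by_contra hcon
      push Not at hcon
      have : Nat.card F ≤ 2 := by
        have hsub : (Set.univ : Set F) ⊆ {0, x} := by
          intro y _
          by_cases hy : y = 0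
          · left; exact hy
          · right; exact hcon y hy
        have h3 : (Set.univ : Set F).ncard ≤ ({0, x} : Set F).ncard :=
          Set.ncard_le_ncard hsub (Set.toFinite _)
        have h4 : ({0, x} : Set F).ncard ≤ 2 := by
          refine le_trans (Set.ncard_insert_le _ _) ?_
          rw [Set.ncard_singleton]
        rw [Set.ncard_univ] at h3
        omega
      omega
    have hxy : x + y ≠ 0 := by
      intro h
      apply hyx
      linear_combination h - x * h2F
    have e : (uu x : SpecialLinearGroup (Fin 2) F)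
        = (uu (x + y) * JJ h2F) * (uu y * JJ h2F)⁻¹ := by
      rw [eq_mul_inv_iff_mul_eq, ← mul_assoc, uu_mul]
    rw [e, map_mul, map_inv]
    exact (hXuJ _ hxy).mul_right (hXuJ y hy0).inv_right
  have hXall : ∀ A, Commute X (Φ A) := by
    intro A
    let C : Subgroup (SpecialLinearGroup (Fin 2) F) :=
      { carrier := {A | Commute X (Φ A)}
        one_mem' := by
          change Commute X (Φ 1)
          rw [map_one]; exact Commute.one_right X
        mul_mem' := by
          intro A B hA hB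
          change Commute X (Φ (A * B))
          rw [map_mul]; exact Commute.mul_right hA hB
        inv_mem' := by
          intro A hA
          change Commute X (Φ A⁻¹)
          rw [map_inv]; exact Commute.inv_right hA }
    have hC : C = ⊤ := by
      rw [eq_top_iff, ← sl_gen h2F, Subgroup.closure_le]
      rintro B (⟨x, rfl⟩ | hB)
      · exact hXu x
      · rw [Set.mem_singleton_iff] at hB
        subst hB
        have e : JJ h2F = (uu 1)⁻¹ * (uu 1 * JJ h2F) := by group
        change Commute X (Φ (JJ h2F))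
        rw [e, map_mul, map_inv]
        exact (hXu 1).inv_right.mul_right (hXuJ 1 one_ne_zero)
    have : A ∈ C := by rw [hC]; exact Subgroup.mem_top _
    exact this
  -- the diagonal element is real
  have hαi : algebraMap F E α * algebraMap F E α⁻¹ = 1 := by
    rw [← map_mul, mul_inv_cancel₀ hα, map_one]
  have hT1 : algebraMap F E (q.T (ξ * q.bar η)) = ξ * q.bar η + q.bar ξ * η := by
    rw [q.T_eq, map_mul, q.bar_bar]
  have hT2 : algebraMap F E (q.T ξ) = ξ + q.bar ξ := q.T_eq ξ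
  have hT3 : algebraMap F E (q.T (ξ * η)) = ξ * η + q.bar ξ * q.bar η := by
    rw [q.T_eq, map_mul]
  have hBdet : α⁻¹ * q.T (ξ * q.bar η) * (α⁻¹ * q.T (ξ * η)) + α⁻¹ * q.T ξ * (α⁻¹ * q.T ξ) = 1 := by
    apply hinj
    rw [map_add, map_mul, map_mul, map_mul, map_mul, map_mul, hT1, hT2, hT3, map_one]
    rw [hαE] at hαi
    exact poly_det h2 _ _ _ _ _ hη hξ hαi
  have hfin : Φ (mk2 h2F (α⁻¹ * q.T (ξ * q.bar η)) (α⁻¹ * q.T ξ) (α⁻¹ * q.T ξ)
      (α⁻¹ * q.T (ξ * η)) hBdet) = φ (dd ξ (q.bar ξ) hξ) := by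
    rw [hΦ, mul_inv_eq_iff_eq_mul, ← map_mul, ← map_mul]
    congr 1
    have hmk : ∀ (a b c d : F) (h : a * d + b * c = 1) (i j : Fin 2),
        (SpecialLinearGroup.map (algebraMap F E) (mk2 h2F a b c d h)).1 i j
          = algebraMap F E ((mk2 h2F a b c d h).1 i j) := fun _ _ _ _ _ _ _ => rfl
    rw [hαE] at hαi
    apply sl_ext
    · rw [mul_entry, mul_entry, hmk, hmk]
      simp only [hg, gone, mk00, mk01, mk10, mk11, dd00, dd01, dd10, dd11, map_mul, hT1, hT2, hT3]
      exact poly_e00 h2 _ _ _ _ _ _ _ hη hαi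
    · rw [mul_entry, mul_entry, hmk, hmk]
      simp only [hg, gone, mk00, mk01, mk10, mk11, dd00, dd01, dd10, dd11, map_mul, hT1, hT2, hT3]
      exact poly_e01 h2 _ _ _ _ _ _ _ hη hαi
    · rw [mul_entry, mul_entry, hmk, hmk]
      simp only [hg, gone, mk00, mk01, mk10, mk11, dd00, dd01, dd10, dd11, map_mul, hT1, hT2, hT3]
      exact poly_e10 h2 _ _ _ _ _ _ _ hη hαi
    · rw [mul_entry, mul_entry, hmk, hmk]
      simp only [hg, gone, mk00, mk01, mk10, mk11, dd00, dd01, dd10, dd11, map_mul, hT1, hT2, hT3]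
      exact poly_e11 h2 _ _ _ _ _ _ _ hη hαi
  rw [← hfin]
  exact hXall _

end real


/-! ### the main statement -/

theorem card_le_two_of_gen_one {F : Type*} [Field F] [CharP F 2]
    (hgen : ∀ S : Subring F, (1 : F) ∈ S → S = ⊤) : Nat.card F ≤ 2 := by
  have h2F : (2 : F) = 0 := by
    have := CharP.cast_eq_zero F 2
    exact_mod_cast this
  have h11 : (1 : F) + 1 = 0 := by rw [one_add_one_eq_two, h2F]
  let S : Subring F :=
    { carrier := {0, 1}
      mul_mem' := by
        rintro a b (rfl | rfl) (rfl | rfl) <;> simp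
      one_mem' := by simp
      add_mem' := by
        rintro a b (rfl | rfl) (rfl | rfl) <;> simp [h11]
      zero_mem' := by simp
      neg_mem' := by
        rintro a (rfl | rfl)
        · simp
        · right
          have : (-1 : F) = 1 := by linear_combination (-1 : F) * h2F
          exact this }
  have hS : S = ⊤ := hgen S (by change (1 : F) ∈ ({0, 1} : Set F); simp)
  have huniv : (Set.univ : Set F) ⊆ {0, 1} := by
    intro x _
    have : x ∈ S := by rw [hS]; exact Subring.mem_top _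
    exact this
  have h3 : (Set.univ : Set F).ncard ≤ ({0, 1} : Set F).ncard :=
    Set.ncard_le_ncard huniv (Set.toFinite _)
  have h4 : ({0, 1} : Set F).ncard ≤ 2 := by
    refine le_trans (Set.ncard_insert_le _ _) ?_
    rw [Set.ncard_singleton]
  rw [Set.ncard_univ] at h3
  omega

theorem comm_torus {F E Γ : Type*} [Field F] [Finite F] [CharP F 2] [CommRing E] [Algebra F E]
    [Group Γ] (h2 : (2 : E) = 0) (hq : 4 ≤ Nat.card F) (q : QE F E)
    (φ : Matrix.SpecialLinearGroup (Fin 2) E →* Γ) (τ s : Γ) (hτ : τ * τ = 1) (hs : s * s = 1)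
    (hφτ : ∀ g, τ * φ g * τ = φ (q.barSL g)) (hsτ : Commute s τ)
    (hsd : Commute s (φ (dd q.η (q.bar q.η) q.η_bar))) (hsu : ∀ e, Commute s (φ (uu e)))
    (hbr : s * (φ (JJ h2) * τ) * s = (φ (JJ h2) * τ) * s * (φ (JJ h2) * τ)) :
    ∀ (ξ : E) (h : ξ * q.bar ξ = 1), Commute s (φ (dd ξ (q.bar ξ) h)) := by
  intro ξ hξ
  rcases subsingleton_or_nontrivial E with hE | hE
  · have : dd ξ (q.bar ξ) hξ = 1 := by
      apply sl_ext <;> exact Subsingleton.elim _ _
    rw [this, map_one]; exact Commute.one_right s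
  have hinj : Function.Injective (algebraMap F E) := (algebraMap F E).injective
  have h2F : (2 : F) = 0 := by
    have := CharP.cast_eq_zero F 2
    exact_mod_cast this
  -- the scalar `s0`
  obtain ⟨s0, hs0def⟩ : ∃ s0 : F, s0 = q.T (q.η * q.η) := ⟨_, rfl⟩
  have hs0 : s0 ≠ 0 := by rw [hs0def]; exact q.s_ne
  have hgen : ∀ S : Subring F, s0 ∈ S → S = ⊤ := by
    rw [hs0def]; exact q.gen
  have hs1 : 1 + s0 ≠ 0 := by
    intro h
    have h1 : s0 = 1 := by linear_combination h - h2F
    subst h1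
    have := card_le_two_of_gen_one hgen
    omega
  have hη : q.η * q.bar q.η = 1 := q.η_bar
  have hz : (q.η * q.η) * q.bar (q.η * q.η) = 1 := by
    rw [map_mul]
    calc q.η * q.η * (q.bar q.η * q.bar q.η) = (q.η * q.bar q.η) * (q.η * q.bar q.η) := by ring
      _ = 1 := by rw [hη, one_mul]
  have hT : q.η * q.η + q.bar (q.η * q.η) = algebraMap F E s0 := by
    rw [hs0def, q.T_eq]
  have hs0E : algebraMap F E s0 = q.η * q.η + q.bar q.η * q.bar q.η := by
    rw [← hT, map_mul]
  have hsz : Commute s (φ (dd (q.η * q.η) (q.bar (q.η * q.η)) hz)) := by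
    have : dd (q.η * q.η) (q.bar (q.η * q.η)) hz
        = dd q.η (q.bar q.η) hη * dd q.η (q.bar q.η) hη := by
      apply sl_ext <;> simp [mul_entry]
    rw [this, map_mul]
    exact hsd.mul_right hsd
  have hP : (1 + algebraMap F E s0) * algebraMap F E (1 + s0)⁻¹ = 1 := by
    rw [← map_one (algebraMap F E), ← map_add, ← map_mul, mul_inv_cancel₀ hs1]
  have hκ0 : 1 + s0⁻¹ ≠ 0 := by
    intro h
    apply hs1
    have : s0 * (1 + s0⁻¹) = 1 + s0 := by field_simp; ring
    rw [← this, h, mul_zero]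
  obtain ⟨k, hkdef⟩ : ∃ k : E, k = 1 + algebraMap F E s0⁻¹ := ⟨_, rfl⟩
  obtain ⟨k', hk'def⟩ : ∃ k' : E, k' = algebraMap F E (1 + s0⁻¹)⁻¹ := ⟨_, rfl⟩
  have hk : k * k' = 1 := by
    rw [hkdef, hk'def, ← map_one (algebraMap F E), ← map_add, ← map_mul, mul_inv_cancel₀ hκ0]
  have hk2 : k' * k = 1 := by rw [mul_comm]; exact hk
  have hbk : q.bar k = k := by rw [hkdef, map_add, map_one, q.bar_alg]
  have hbk' : q.bar k' = k' := by rw [hk'def, q.bar_alg]
  obtain ⟨T, hTdef⟩ : ∃ T : Γ, T = φ (anti h2 k k' hk) * τ := ⟨_, rfl⟩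
  have hXx := comm_X h2 q φ τ s hτ hs hφτ hsτ hsu hbr s0 hs0 hs1 (q.η * q.η) hz hT hsz k k' hk
    hkdef hP
  rw [← hTdef] at hXx
  -- `T` commutes with `τ` and with the torus
  have hTτ : Commute T τ := by
    rw [hTdef]
    have h1 := hφτ (anti h2 k k' hk)
    rw [anti_bar h2 q k k' hk hbk hbk'] at h1
    have h3 : Commute (φ (anti h2 k k' hk)) τ := by
      change _ * τ = τ * _
      calc φ (anti h2 k k' hk) * τ = (τ * φ (anti h2 k k' hk) * τ) * τ := by rw [h1]
        _ = τ * φ (anti h2 k k' hk) * (τ * τ) := by simp only [mul_assoc]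
        _ = _ := by rw [hτ, mul_one]
    exact h3.mul_left (Commute.refl τ)
  have hTd : ∀ (y : E) (hy : y * q.bar y = 1), Commute T (φ (dd y (q.bar y) hy)) := by
    intro y hy
    rw [hTdef]
    exact (T_conj q φ τ hτ hφτ _ _ _ (anti_dd h2 q k k' hk y hy) :
      φ (dd y (q.bar y) hy) * (φ (anti h2 k k' hk) * τ)
        = (φ (anti h2 k k' hk) * τ) * φ (dd y (q.bar y) hy)).symm
  have hX : ∀ a : Γ, Commute s a → Commute T a → Commute (s * T * s) a :=
    fun a h1 h3 => (h1.mul_left h3).mul_left h1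
  have hXτ : Commute (s * T * s) τ := hX _ hsτ hTτ
  have hXη : Commute (s * T * s) (φ (dd q.η (q.bar q.η) hη) * τ) :=
    hX _ (hsd.mul_right hsτ) ((hTd _ _).mul_right hTτ)
  have hXall : ∀ (y : E) (hy : y * q.bar y = 1), Commute (s * T * s) (φ (dd y (q.bar y) hy)) :=
    fun y hy => real_comm h2 q φ τ hq hτ hφτ (s * T * s) hXτ q.η hη s0 hs0 hs0E hgen hXη hs1 hP
      hXx y hy
  -- the elements `k_ξ`
  let H : ∀ (y : E), y * q.bar y = 1 → Γ := fun y hy => φ (dd y (q.bar y) hy)
  let K : ∀ (y : E), y * q.bar y = 1 → Γ := fun y hy => s * H y hy * s * (H y hy)⁻¹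
  have hKT : ∀ y hy, Commute (K y hy) T := by
    intro y hy
    have h1 : Commute (s * H y hy * s) T := by
      have h3 : (s * T * s) * H y hy = H y hy * (s * T * s) := hXall y hy
      change s * H y hy * s * T = T * (s * H y hy * s)
      calc s * H y hy * s * T = s * (H y hy * (s * T * s)) * s := by
            have : s * (H y hy * (s * T * s)) * s = s * H y hy * s * T * (s * s) := by
              simp only [mul_assoc]
            rw [this, hs, mul_one]
        _ = s * ((s * T * s) * H y hy) * s := by rw [h3]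
        _ = (s * s) * T * (s * H y hy * s) := by simp only [mul_assoc]
        _ = T * (s * H y hy * s) := by rw [hs, one_mul]
    exact h1.mul_left (hTd y hy).symm.inv_left
  have hKu : ∀ y hy e, Commute (K y hy) (φ (uu e)) := by
    intro y hy e
    -- `H⁻¹ U(e) H = U(e')`
    have h1 : uu e * dd y (q.bar y) hy = dd y (q.bar y) hy * uu (q.bar y * q.bar y * e) := by
      apply sl_ext <;> simp only [mul_entry, uu00, uu01, uu10, uu11, dd00, dd01, dd10, dd11]
      · ring
      · linear_combination (-(e * q.bar y)) * hy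
      · ring
      · ring
    have h3 : φ (uu e) * H y hy = H y hy * φ (uu (q.bar y * q.bar y * e)) := by
      change φ _ * φ _ = φ _ * φ _
      rw [← map_mul, ← map_mul, h1]
    have c1 := (hsu e).eq
    have c2 := (hsu (q.bar y * q.bar y * e)).eq
    have h4 : (H y hy)⁻¹ * φ (uu e) = φ (uu (q.bar y * q.bar y * e)) * (H y hy)⁻¹ := by
      rw [inv_mul_eq_iff_eq_mul, ← mul_assoc, ← h3]; group
    change s * H y hy * s * (H y hy)⁻¹ * φ (uu e) = φ (uu e) * (s * H y hy * s * (H y hy)⁻¹)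
    calc s * H y hy * s * (H y hy)⁻¹ * φ (uu e)
        = s * H y hy * s * ((H y hy)⁻¹ * φ (uu e)) := by simp only [mul_assoc]
      _ = s * H y hy * (s * φ (uu (q.bar y * q.bar y * e))) * (H y hy)⁻¹ := by
          rw [h4]; simp only [mul_assoc]
      _ = s * (H y hy * φ (uu (q.bar y * q.bar y * e))) * s * (H y hy)⁻¹ := by
          rw [c2]; simp only [mul_assoc]
      _ = (s * φ (uu e)) * H y hy * s * (H y hy)⁻¹ := by
          rw [← h3]; simp only [mul_assoc]
      _ = _ := by rw [c1]; simp only [mul_assoc]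
  have hKv : ∀ y hy e, Commute (K y hy) (φ (vv e)) := by
    intro y hy e
    -- `T U(e') T⁻¹ = V(..)`
    have h1 : anti h2 k k' hk * uu (k' * k' * e) = vv e * anti h2 k k' hk := by
      rw [anti_uu]
      congr 2
      calc k * k * (k' * k' * e) = (k * k') * (k * k') * e := by ring
        _ = e := by rw [hk]; ring
    have h3 : φ (vv e) = φ (anti h2 k k' hk) * φ (uu (k' * k' * e)) *
        (φ (anti h2 k k' hk))⁻¹ := by
      rw [← map_mul, h1, map_mul]; group
    have h5 : φ (uu (k' * k' * e)) = τ * φ (uu (q.bar (k' * k' * e))) * τ := by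
      rw [hφτ]
      congr 1
      apply sl_ext
      · exact (map_one q.bar).symm
      · exact (q.bar_bar _).symm
      · exact (map_zero q.bar).symm
      · exact (map_one q.bar).symm
    have hτi : τ⁻¹ = τ := inv_eq_of_mul_eq_one_left hτ
    have h6 : φ (vv e) = T * φ (uu (q.bar (k' * k' * e))) * T⁻¹ := by
      rw [h3, h5, hTdef, _root_.mul_inv_rev, hτi]
      simp only [mul_assoc]
    rw [h6]
    exact ((hKT y hy).mul_right (hKu y hy _)).mul_right (hKT y hy).inv_right
  have hKanti : ∀ y hy (a b : E) (hab : a * b = 1), Commute (K y hy) (φ (anti h2 a b hab)) := by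
    intro y hy a b hab
    rw [anti_eq, map_mul, map_mul]
    exact ((hKu y hy _).mul_right (hKv y hy _)).mul_right (hKu y hy _)
  have hKτ : ∀ y hy, Commute (K y hy) τ := by
    intro y hy
    have : τ = (φ (anti h2 k k' hk))⁻¹ * T := by rw [hTdef]; group
    rw [this]
    exact (hKanti y hy k k' hk).inv_right.mul_right (hKT y hy)
  have hKH : ∀ y hy (x : E) (hx : x * q.bar x = 1), Commute (K y hy) (H x hx) := by
    intro y hy x hx
    have hx' : q.bar x * x = 1 := by rw [mul_comm]; exact hx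
    change Commute (K y hy) (φ (dd x (q.bar x) hx))
    rw [dd_eq_anti h2 x (q.bar x) hx hx', map_mul]
    exact (hKanti y hy _ _ _).mul_right (hKanti y hy _ _ _)
  -- multiplicativity
  have hHmul : ∀ (x y : E) (hx : x * q.bar x = 1) (hy : y * q.bar y = 1)
      (hxy : (x * y) * q.bar (x * y) = 1), H (x * y) hxy = H x hx * H y hy := by
    intro x y hx hy hxy
    change φ _ = φ _ * φ _
    rw [← map_mul]
    congr 1
    apply sl_ext <;> simp [mul_entry]
  have hKmul : ∀ (x y : E) (hx : x * q.bar x = 1) (hy : y * q.bar y = 1)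
      (hxy : (x * y) * q.bar (x * y) = 1), K (x * y) hxy = K x hx * K y hy := by
    intro x y hx hy hxy
    have c := (hKH y hy x hx).eq
    have e : K y hy = H x hx * K y hy * (H x hx)⁻¹ := by rw [← c]; group
    change s * H (x * y) hxy * s * (H (x * y) hxy)⁻¹ = K x hx * K y hy
    rw [hHmul x y hx hy hxy, e]
    change _ = s * H x hx * s * (H x hx)⁻¹ * (H x hx * (s * H y hy * s * (H y hy)⁻¹) * (H x hx)⁻¹)
    have : s * H x hx * s * (H x hx)⁻¹ * (H x hx * (s * H y hy * s * (H y hy)⁻¹) * (H x hx)⁻¹)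
        = s * H x hx * (s * s) * H y hy * s * (H y hy)⁻¹ * (H x hx)⁻¹ := by group
    rw [this, hs, _root_.mul_inv_rev]
    group
  have hτH : ∀ y hy (hy' : q.bar y * q.bar (q.bar y) = 1), τ * H y hy * τ = H (q.bar y) hy' := by
    intro y hy hy'
    change τ * φ _ * τ = φ _
    rw [hφτ]
    congr 1
    apply sl_ext
    · rfl
    · exact map_zero q.bar
    · exact map_zero q.bar
    · rfl
  have hKone : ∀ (h1 : (1 : E) * q.bar 1 = 1), K 1 h1 = 1 := by
    intro h1
    have : H 1 h1 = 1 := by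
      change φ _ = 1
      have : dd (1 : E) (q.bar 1) h1 = 1 := by apply sl_ext <;> simp
      rw [this, map_one]
    change s * H 1 h1 * s * (H 1 h1)⁻¹ = 1
    rw [this]; simp [hs]
  have hKsq : ∀ y hy, K y hy * K y hy = 1 := by
    intro y hy
    have hy' : q.bar y * q.bar (q.bar y) = 1 := by rw [q.bar_bar, mul_comm]; exact hy
    have c := (hKτ y hy).eq
    have cs := hsτ.eq
    have e1 : K (q.bar y) hy' = K y hy := by
      have e3 : τ * K y hy * τ = K (q.bar y) hy' := by
        change τ * (s * H y hy * s * (H y hy)⁻¹) * τ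
          = s * H (q.bar y) hy' * s * (H (q.bar y) hy')⁻¹
        rw [← hτH y hy hy', _root_.mul_inv_rev, _root_.mul_inv_rev]
        have hτi : τ⁻¹ = τ := inv_eq_of_mul_eq_one_left hτ
        rw [hτi]
        calc τ * (s * H y hy * s * (H y hy)⁻¹) * τ
            = (τ * s) * H y hy * s * (H y hy)⁻¹ * τ := by simp only [mul_assoc]
          _ = s * τ * H y hy * s * (H y hy)⁻¹ * τ := by rw [← cs]
          _ = s * τ * H y hy * (s * (τ * τ)) * (H y hy)⁻¹ * τ := by rw [hτ, mul_one]
          _ = s * τ * H y hy * ((s * τ) * τ) * (H y hy)⁻¹ * τ := by simp only [mul_assoc]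
          _ = s * τ * H y hy * ((τ * s) * τ) * (H y hy)⁻¹ * τ := by rw [cs]
          _ = _ := by simp only [mul_assoc]
      rw [← e3, ← c, mul_assoc, hτ, mul_one]
    have hyy : (y * q.bar y) * q.bar (y * q.bar y) = 1 := by
      rw [hy, map_one, mul_one]
    have e4 := hKmul y (q.bar y) hy hy' hyy
    rw [e1] at e4
    rw [← e4]
    have h1 : (1 : E) * q.bar 1 = 1 := by rw [map_one, mul_one]
    have : ∀ (w : E) (hw : w * q.bar w = 1), w = 1 → K w hw = 1 := by
      rintro w hw rfl; exact hKone hw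
    exact this _ _ hy
  have hKpow : ∀ y hy (n : ℕ) (hn : y ^ n * q.bar (y ^ n) = 1), K (y ^ n) hn = (K y hy) ^ n := by
    intro y hy n
    induction n with
    | zero =>
      intro hn
      have : ∀ (w : E) (hw : w * q.bar w = 1), w = 1 → K w hw = 1 := by
        rintro w hw rfl; exact hKone hw
      exact (this _ _ (pow_zero y)).trans (pow_zero _).symm
    | succ n ih =>
      intro hn
      have hn' : y ^ n * q.bar (y ^ n) = 1 := by
        rw [map_pow, ← mul_pow, hy, one_pow]
      have hc : (y ^ n * y) * q.bar (y ^ n * y) = 1 := by rw [← pow_succ]; exact hn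
      have e1 : K (y ^ (n + 1)) hn = K (y ^ n * y) hc := by
        congr 1
        exact pow_succ y n
      rw [e1, hKmul (y ^ n) y hn' hy hc, ih hn', pow_succ]
  -- the conclusion
  obtain ⟨m, hm, hm1⟩ := odd_order h2 q ξ hξ
  have hKξ : K ξ hξ = 1 := by
    have hmm : ξ ^ m * q.bar (ξ ^ m) = 1 := by rw [map_pow, ← mul_pow, hξ, one_pow]
    have e1 := hKpow ξ hξ m hmm
    have : ∀ (w : E) (hw : w * q.bar w = 1), w = 1 → K w hw = 1 := by
      rintro w hw rfl; exact hKone hw
    rw [this _ _ hm1] at e1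
    obtain ⟨j, hj⟩ := hm
    rw [hj, pow_succ, pow_mul, pow_two, hKsq, one_pow, one_mul] at e1
    exact e1.symm
  have e1 : s * H ξ hξ * s * (H ξ hξ)⁻¹ = 1 := hKξ
  have e3 : s * H ξ hξ * s = H ξ hξ := mul_inv_eq_one.1 e1
  change s * H ξ hξ = H ξ hξ * s
  calc s * H ξ hξ = s * H ξ hξ * (s * s) := by rw [hs, mul_one]
    _ = (s * H ξ hξ * s) * s := by simp only [mul_assoc]
    _ = H ξ hξ * s := by rw [e3]

end Pool.Agent.Helper61.YG
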