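import Mathlib

set_option autoImplicit false
set_option linter.unusedTactic false
set_option linter.unreachableTactic false

namespace Pool.Agent.Helper61.Stack

open Relation

/-! ### Rooted trees given by a parent map -/

/-- A rooted tree on the vertex type `V`, given by a parent map and a depth function. -/
structure RTree (V : Type) where
  p : V → V
  r : V
  d : V → ℕ
  pr : p r = r
  dr : d r = 0
  dp : ∀ v, v ≠ r → d v = d (p v) + 1

/-- `Desc p u v` : the vertex `v` is a descendant of `u`. -/
def Desc {V : Type} (p : V → V) (u v : V) : Prop := ∃ i : ℕ, p^[i] v = u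

lemma Desc.rfl' {V : Type} {p : V → V} {u : V} : Desc p u u := ⟨0, rfl⟩

lemma Desc.trans {V : Type} {p : V → V} {u v w : V} (h1 : Desc p u v) (h2 : Desc p v w) :
    Desc p u w := by
  obtain ⟨i, hi⟩ := h1
  obtain ⟨j, hj⟩ := h2
  exact ⟨i + j, by rw [Function.iterate_add_apply, hj, hi]⟩

lemma Desc.par_of_ne {V : Type} {p : V → V} {u v : V} (h : Desc p u v) (hne : v ≠ u) :
    Desc p u (p v) := by
  obtain ⟨i, hi⟩ := h
  cases i with
  | zero => exact absurd hi hne
  | succ i => exact ⟨i, by rwa [Function.iterate_succ_apply] at hi⟩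

lemma Desc.of_par {V : Type} {p : V → V} {u v : V} (h : Desc p u (p v)) : Desc p u v := by
  obtain ⟨i, hi⟩ := h
  exact ⟨i + 1, by rwa [Function.iterate_succ_apply]⟩

/-- equal or joined by a tree edge -/
def nr {V : Type} (p : V → V) (x y : V) : Prop := x = y ∨ p x = y ∨ p y = x

lemma nr.symm {V : Type} {p : V → V} {x y : V} (h : nr p x y) : nr p y x := by
  rcases h with h | h | h
  · exact Or.inl h.symm
  · exact Or.inr (Or.inr h)
  · exact Or.inr (Or.inl h)

lemma nr.refl {V : Type} {p : V → V} (x : V) : nr p x x := Or.inl rfl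

lemma nr.par {V : Type} {p : V → V} (x : V) : nr p x (p x) := Or.inr (Or.inl rfl)

lemma nr.par' {V : Type} {p : V → V} (x : V) : nr p (p x) x := Or.inr (Or.inr rfl)

section generic

variable {F B : Type} (TF : RTree F) (TB : RTree B) (f : F × B → ℕ) (t : ℕ) (U : F × B → ZMod 2)

/-- equal or adjacent in the strong product -/
def Nr (a b : F × B) : Prop := nr TF.p a.1 b.1 ∧ nr TB.p a.2 b.2

lemma Nr.symm {a b : F × B} (h : Nr TF TB a b) : Nr TF TB b a := ⟨h.1.symm, h.2.symm⟩

/-- the mod 2 weight of a pair -/
def E (α : ℕ) (a b : F × B) : ZMod 2 :=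
  if (f a < α ∧ t ≤ f b) ∨ (f b < α ∧ t ≤ f a) then U a + U b else 0

lemma zadd_self (x : ZMod 2) : x + x = 0 := CharTwo.add_self_eq_zero x

lemma E_self (α : ℕ) (a : F × B) : E f t U α a a = 0 := by
  unfold E
  split_ifs
  · exact zadd_self _
  · rfl

lemma E_symm (α : ℕ) (a b : F × B) : E f t U α a b = E f t U α b a := by
  unfold E
  by_cases h : (f a < α ∧ t ≤ f b) ∨ (f b < α ∧ t ≤ f a)
  · rw [if_pos h, if_pos h.symm, add_comm]
  · rw [if_neg h, if_neg (fun h' => h h'.symm)]

/-- rainbow triangle for the thresholds `α`, `t` -/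
def Rb (α : ℕ) (a b c : F × B) : Prop :=
  (f a < α ∧ α ≤ f b ∧ f b < t ∧ t ≤ f c) ∧ Nr TF TB a b ∧ Nr TF TB b c ∧ Nr TF TB a c

/-- If a triangle has no rainbow ordering then its mod 2 sum is zero. -/
lemma E_even {α : ℕ} (hα : α ≤ t) (S : Set (F × B))
    (hno : ∀ a ∈ S, ∀ b ∈ S, ∀ c ∈ S, ¬ Rb TF TB f t α a b c)
    (hU : ∀ a ∈ S, ∀ b ∈ S, Nr TF TB a b → (f a < t ↔ f b < t) → U a = U b)
    {a b c : F × B} (ha : a ∈ S) (hb : b ∈ S) (hc : c ∈ S)
    (hab : Nr TF TB a b) (hbc : Nr TF TB b c) (hac : Nr TF TB a c) :
    E f t U α a b + E f t U α b c + E f t U α a c = 0 := by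
  have habs := hab.symm
  have hbcs := hbc.symm
  have hacs := hac.symm
  have r1 := hno a ha b hb c hc
  have r2 := hno a ha c hc b hb
  have r3 := hno b hb a ha c hc
  have r4 := hno b hb c hc a ha
  have r5 := hno c hc a ha b hb
  have r6 := hno c hc b hb a ha
  simp only [Rb, hab, hbc, hac, habs, hbcs, hacs, and_true, not_and, not_le] at r1 r2 r3 r4 r5 r6
  have uab := hU a ha b hb hab
  have ubc := hU b hb c hc hbc
  have uac := hU a ha c hc hac
  unfold E
  have z : ∀ x y z : ZMod 2, x = y → x + z + (y + z) = 0 := by decide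
  have z2 : ∀ x y z : ZMod 2, x = y → (x + z) + (z + y) = 0 := by decide
  have z3 : ∀ x y z : ZMod 2, x = y → (z + x) + (y + z) = 0 := by decide
  have z4 : ∀ x y z : ZMod 2, x = y → (z + x) + (z + y) = 0 := by decide
  split_ifs with h1 h2 h3 h3 h2 h3 h3
  all_goals first
    | rfl
    | (exfalso; omega)
    | skip
  all_goals simp only [add_zero, zero_add]
  all_goals first
    | (apply z; first | exact uab (by omega) | exact (uab (by omega)).symm | exact uac (by omega) | exact (uac (by omega)).symm | exact ubc (by omega) | exact (ubc (by omega)).symm)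
    | (apply z2; first | exact uab (by omega) | exact (uab (by omega)).symm | exact uac (by omega) | exact (uac (by omega)).symm | exact ubc (by omega) | exact (ubc (by omega)).symm)
    | (apply z3; first | exact uab (by omega) | exact (uab (by omega)).symm | exact uac (by omega) | exact (uac (by omega)).symm | exact ubc (by omega) | exact (ubc (by omega)).symm)
    | (apply z4; first | exact uab (by omega) | exact (uab (by omega)).symm | exact uac (by omega) | exact (uac (by omega)).symm | exact ubc (by omega) | exact (ubc (by omega)).symm)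

/-- horizontal potential in the row over `y` -/
def hp (α : ℕ) (y : B) (x : F) : ZMod 2 :=
  ∑ i ∈ Finset.range (TF.d x), E f t U α (TF.p^[i] x, y) (TF.p^[i + 1] x, y)

/-- vertical potential in the column over `x` -/
def vp (α : ℕ) (x : F) (y : B) : ZMod 2 :=
  ∑ i ∈ Finset.range (TB.d y), E f t U α (x, TB.p^[i] y) (x, TB.p^[i + 1] y)

lemma hp_root (α : ℕ) (y : B) : hp TF f t U α y TF.r = 0 := by
  unfold hp
  rw [TF.dr]
  simp

lemma hp_step (α : ℕ) (y : B) (x : F) :
    hp TF f t U α y x + hp TF f t U α y (TF.p x) = E f t U α (x, y) (TF.p x, y) := by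
  by_cases hx : x = TF.r
  · subst hx
    rw [TF.pr, zadd_self, E_self]
  · have h : hp TF f t U α y x = E f t U α (x, y) (TF.p x, y) + hp TF f t U α y (TF.p x) := by
      unfold hp
      rw [TF.dp x hx, Finset.sum_range_succ']
      simp only [Function.iterate_succ_apply, Function.iterate_zero, id_eq]
      rw [add_comm]
    rw [h, add_assoc, zadd_self, add_zero]

lemma vp_step (α : ℕ) (x : F) (y : B) :
    vp TB f t U α x y + vp TB f t U α x (TB.p y) = E f t U α (x, y) (x, TB.p y) := by
  by_cases hy : y = TB.r
  · subst hy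
    rw [TB.pr, zadd_self, E_self]
  · have h : vp TB f t U α x y = E f t U α (x, y) (x, TB.p y) + vp TB f t U α x (TB.p y) := by
      unfold vp
      rw [TB.dp y hy, Finset.sum_range_succ']
      simp only [Function.iterate_succ_apply, Function.iterate_zero, id_eq]
      rw [add_comm]
    rw [h, add_assoc, zadd_self, add_zero]

/-- the potential on the part of the product above the descendants of `u` -/
def W (α : ℕ) (u : B) (v : F × B) : ZMod 2 :=
  hp TF f t U α u v.1 + vp TB f t U α v.1 v.2 + vp TB f t U α v.1 u

lemma W_vert (α : ℕ) (u : B) (x : F) (y y' : B) (h : nr TB.p y y') :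
    W TF TB f t U α u (x, y) + W TF TB f t U α u (x, y') = E f t U α (x, y) (x, y') := by
  have key : ∀ y : B, W TF TB f t U α u (x, y) + W TF TB f t U α u (x, TB.p y)
      = E f t U α (x, y) (x, TB.p y) := by
    intro y
    rw [← vp_step]
    unfold W
    simp only
    generalize hp TF f t U α u x = a
    generalize vp TB f t U α x y = b
    generalize vp TB f t U α x u = c
    generalize vp TB f t U α x (TB.p y) = e
    revert a b c e
    decide
  rcases h with h | h | h
  · subst h
    rw [zadd_self, E_self]
  · subst h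
    exact key y
  · subst h
    rw [add_comm, key y', E_symm]

/-- On a parent closed region without rainbow triangles, `E` is the coboundary of `W`. -/
lemma W_cob {α : ℕ} (hα : α ≤ t) (u : B) (R : Set B) (hu : u ∈ R)
    (hR : ∀ y ∈ R, Desc TB.p u y) (hRp : ∀ y ∈ R, y ≠ u → TB.p y ∈ R)
    (hno : ∀ a b c : F × B, a.2 ∈ R → b.2 ∈ R → c.2 ∈ R → ¬ Rb TF TB f t α a b c)
    (hU : ∀ a b : F × B, a.2 ∈ R → b.2 ∈ R → Nr TF TB a b → (f a < t ↔ f b < t) → U a = U b)
    (a b : F × B) (ha : a.2 ∈ R) (hb : b.2 ∈ R) (hab : Nr TF TB a b) :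
    W TF TB f t U α u a + W TF TB f t U α u b = E f t U α a b := by
  have hev : ∀ a b c : F × B, a.2 ∈ R → b.2 ∈ R → c.2 ∈ R → Nr TF TB a b → Nr TF TB b c →
      Nr TF TB a c → E f t U α a b + E f t U α b c + E f t U α a c = 0 := by
    intro a b c ha hb hc hab hbc hac
    exact E_even TF TB f t U hα {v | v.2 ∈ R} (fun a ha b hb c hc => hno a b c ha hb hc)
      (fun a ha b hb => hU a b ha hb) ha hb hc hab hbc hac
  -- horizontal edges
  have hor : ∀ (i : ℕ) (y : B), y ∈ R → TB.p^[i] y = u → ∀ x : F,
      W TF TB f t U α u (x, y) + W TF TB f t U α u (TF.p x, y)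
        = E f t U α (x, y) (TF.p x, y) := by
    intro i
    induction i with
    | zero =>
      intro y hy hyu x
      have hyu' : y = u := hyu
      subst hyu'
      rw [← hp_step]
      unfold W
      simp only
      generalize hp TF f t U α y x = a
      generalize vp TB f t U α x y = b
      generalize hp TF f t U α y (TF.p x) = c
      generalize vp TB f t U α (TF.p x) y = e
      revert a b c e
      decide
    | succ i ih =>
      intro y hy hyu x
      by_cases hyu' : y = u
      · subst hyu'
        rw [← hp_step]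
        unfold W
        simp only
        generalize hp TF f t U α y x = a
        generalize vp TB f t U α x y = b
        generalize hp TF f t U α y (TF.p x) = c
        generalize vp TB f t U α (TF.p x) y = e
        revert a b c e
        decide
      · have hpy : TB.p y ∈ R := hRp y hy hyu'
        have h1 := ih (TB.p y) hpy (by rwa [Function.iterate_succ_apply] at hyu) x
        have h2 := W_vert TF TB f t U α u x y (TB.p y) (nr.par y)
        have h3 := W_vert TF TB f t U α u (TF.p x) y (TB.p y) (nr.par y)
        have t1 := hev (x, y) (x, TB.p y) (TF.p x, TB.p y) hy hpy hpy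
          ⟨nr.refl _, nr.par _⟩ ⟨nr.par _, nr.refl _⟩ ⟨nr.par _, nr.par _⟩
        have t2 := hev (x, y) (TF.p x, y) (TF.p x, TB.p y) hy hy hpy
          ⟨nr.par _, nr.refl _⟩ ⟨nr.refl _, nr.par _⟩ ⟨nr.par _, nr.par _⟩
        rw [← h2, ← h1] at t1
        rw [← h3] at t2
        revert t1 t2
        generalize E f t U α (x, y) (TF.p x, y) = e1
        generalize E f t U α (x, y) (TF.p x, TB.p y) = e2
        generalize W TF TB f t U α u (x, y) = w1
        generalize W TF TB f t U α u (TF.p x, y) = w2
        generalize W TF TB f t U α u (x, TB.p y) = w3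
        generalize W TF TB f t U α u (TF.p x, TB.p y) = w4
        revert e1 e2 w1 w2 w3 w4
        decide
  have hor' : ∀ (y : B), y ∈ R → ∀ x x' : F, nr TF.p x x' →
      W TF TB f t U α u (x, y) + W TF TB f t U α u (x', y)
        = E f t U α (x, y) (x', y) := by
    intro y hy x x' h
    obtain ⟨i, hi⟩ := hR y hy
    rcases h with h | h | h
    · subst h
      rw [zadd_self, E_self]
    · subst h
      exact hor i y hy hi x
    · subst h
      rw [add_comm, hor i y hy hi x', E_symm]
  obtain ⟨x, y⟩ := a
  obtain ⟨x', y'⟩ := b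
  simp only at ha hb
  have h1 := W_vert TF TB f t U α u x y y' hab.2
  have h2 := hor' y' hb x x' hab.1
  have t1 := hev (x, y) (x, y') (x', y') ha hb hb ⟨nr.refl _, hab.2⟩ ⟨hab.1, nr.refl _⟩ hab
  rw [← h1, ← h2] at t1
  revert t1
  generalize E f t U α (x, y) (x', y') = e1
  generalize W TF TB f t U α u (x, y) = w1
  generalize W TF TB f t U α u (x', y') = w2
  generalize W TF TB f t U α u (x, y') = w3
  revert e1 w1 w2 w3
  decide

/-- Horizontal potentials compute differences of `W`. -/
lemma hp_eq_W {α : ℕ} (u : B) (y : B)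
    (hW : ∀ x : F, W TF TB f t U α u (x, y) + W TF TB f t U α u (TF.p x, y)
        = E f t U α (x, y) (TF.p x, y)) (x : F) :
    hp TF f t U α y x = W TF TB f t U α u (x, y) + W TF TB f t U α u (TF.r, y) := by
  have key : ∀ (n : ℕ) (x : F), TF.d x = n →
      hp TF f t U α y x = W TF TB f t U α u (x, y) + W TF TB f t U α u (TF.r, y) := by
    intro n
    induction n with
    | zero =>
      intro x hx
      have : x = TF.r := by
        by_contra hne
        have := TF.dp x hne
        omega
      subst this
      rw [hp_root, zadd_self]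
    | succ n ih =>
      intro x hx
      have hne : x ≠ TF.r := by
        intro h
        rw [h, TF.dr] at hx
        omega
      have h1 := TF.dp x hne
      have h2 := ih (TF.p x) (by omega)
      have h3 := hp_step TF f t U α y x
      have h4 := hW x
      rw [h2, ← h4] at h3
      revert h3
      generalize hp TF f t U α y x = e1
      generalize W TF TB f t U α u (x, y) = w1
      generalize W TF TB f t U α u (TF.p x, y) = w2
      generalize W TF TB f t U α u (TF.r, y) = w3
      revert e1 w1 w2 w3
      decide
  exact key _ x rfl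

end generic

end Pool.Agent.Helper61.Stack
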