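import Pool.Agent.Helper61.StackA

set_option autoImplicit false
set_option linter.unusedTactic false
set_option linter.unreachableTactic false

namespace Pool.Agent.Helper61.Stack

open Relation

/-- ternary tree of decorated base vertices -/
inductive TT (F B : Type) : Type
  | leaf (y : B) (x1 x0 : F) : TT F B
  | node (y : B) (x1 x0 : F) (c0 c1 c2 : TT F B) : TT F B

namespace TT
variable {F B : Type}

/-- base vertex at the top -/
def y : TT F B → B
  | leaf y _ _ => y
  | node y _ _ _ _ _ => y

/-- first decoration -/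
def x1 : TT F B → F
  | leaf _ x _ => x
  | node _ x _ _ _ _ => x

/-- second decoration -/
def x0 : TT F B → F
  | leaf _ _ x => x
  | node _ _ x _ _ _ => x

end TT

section generic

variable {F B : Type} (TF : RTree F) (TB : RTree B) (f : F × B → ℕ) (t : ℕ) (U : F × B → ZMod 2)

/-- connection by steps that do not change `U`, inside `S` -/
def UC (S : Set (F × B)) : F × B → F × B → Prop :=
  ReflTransGen (fun a b => a ∈ S ∧ b ∈ S ∧ Nr TF TB a b ∧ U a = U b)

/-- the two subtrees have no common vertex -/
def Dis (p : B → B) (w w' : B) : Prop := ∀ z, Desc p w z → Desc p w' z → False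

lemma Dis.symm {p : B → B} {w w' : B} (h : Dis p w w') : Dis p w' w := fun z h1 h2 => h z h2 h1

/-- the part below `u` outside of the subtrees at `w` and `w'` -/
def Rg (p : B → B) (u w w' : B) : Set (F × B) :=
  {v | Desc p u v.2 ∧ ¬ Desc p w v.2 ∧ ¬ Desc p w' v.2}

/-- validity of a decorated ternary tree of depth `k` -/
def Valid : ℕ → TT F B → Prop
  | 0, .leaf y x1 x0 => U (x1, y) + U (x0, y) = 1
  | k + 1, .node y x1 x0 c0 c1 c2 =>
      (Desc TB.p y c0.y ∧ Desc TB.p y c1.y ∧ Desc TB.p y c2.y) ∧
      (Dis TB.p c0.y c1.y ∧ Dis TB.p c0.y c2.y ∧ Dis TB.p c1.y c2.y) ∧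
      (Valid k c0 ∧ Valid k c1 ∧ Valid k c2) ∧
      (UC TF TB U (Rg TB.p y c1.y c2.y) (x1, y) (c0.x1, c0.y) ∧
        UC TF TB U (Rg TB.p y c1.y c2.y) (x0, y) (c0.x0, c0.y)) ∧
      (UC TF TB U (Rg TB.p y c0.y c2.y) (x1, y) (c1.x1, c1.y) ∧
        UC TF TB U (Rg TB.p y c0.y c2.y) (x0, y) (c1.x0, c1.y)) ∧
      (UC TF TB U (Rg TB.p y c0.y c1.y) (x1, y) (c2.x1, c2.y) ∧
        UC TF TB U (Rg TB.p y c0.y c1.y) (x0, y) (c2.x0, c2.y))
  | 0, .node _ _ _ _ _ _ => False
  | _ + 1, .leaf _ _ _ => False

/-- majority in `ZMod 2` -/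
def maj (a b c : ZMod 2) : ZMod 2 := a * b + b * c + c * a

/-- recursive majority of the leaf values -/
def Mj (α : ℕ) : TT F B → ZMod 2
  | .leaf y x1 x0 => hp TF f t U α y x1 + hp TF f t U α y x0
  | .node _ _ _ c0 c1 c2 => maj (Mj α c0) (Mj α c1) (Mj α c2)

lemma UC_W {α : ℕ} (u : B) (R : Set B)
    (hW : ∀ a b : F × B, a.2 ∈ R → b.2 ∈ R → Nr TF TB a b →
      W TF TB f t U α u a + W TF TB f t U α u b = E f t U α a b)
    (S : Set (F × B)) (hS : ∀ a ∈ S, a.2 ∈ R) (a b : F × B) (h : UC TF TB U S a b) :
    W TF TB f t U α u a = W TF TB f t U α u b := by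
  induction h with
  | refl => rfl
  | @tail v w _ hbc ih =>
    obtain ⟨hb, hc, hn, hUU⟩ := hbc
    have h1 := hW _ _ (hS _ hb) (hS _ hc) hn
    have h2 : E f t U α v w = 0 := by
      unfold E
      rw [hUU]
      split_ifs
      · exact zadd_self _
      · rfl
    rw [h2] at h1
    rw [ih]
    exact CharTwo.add_eq_zero.mp h1

lemma Mj_const {α : ℕ} (u : B) (R : Set B)
    (hW : ∀ a b : F × B, a.2 ∈ R → b.2 ∈ R → Nr TF TB a b →
      W TF TB f t U α u a + W TF TB f t U α u b = E f t U α a b) :
    ∀ (k : ℕ) (st : TT F B), Valid TF TB U k st → (∀ z, Desc TB.p st.y z → z ∈ R) →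
      Mj TF f t U α st = W TF TB f t U α u (st.x1, st.y) + W TF TB f t U α u (st.x0, st.y) := by
  intro k
  induction k with
  | zero =>
    intro st hv hR
    cases st with
    | node _ _ _ _ _ _ => exact absurd hv (by simp [Valid])
    | leaf y x1 x0 =>
      have hy : y ∈ R := hR y Desc.rfl'
      have hW' : ∀ x : F, W TF TB f t U α u (x, y) + W TF TB f t U α u (TF.p x, y)
          = E f t U α (x, y) (TF.p x, y) := fun x => hW _ _ hy hy ⟨nr.par _, nr.refl _⟩
      simp only [Mj, TT.x1, TT.x0, TT.y]
      rw [hp_eq_W TF TB f t U u y hW' x1, hp_eq_W TF TB f t U u y hW' x0]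
      generalize W TF TB f t U α u (x1, y) = a
      generalize W TF TB f t U α u (x0, y) = b
      generalize W TF TB f t U α u (TF.r, y) = c
      revert a b c
      decide
  | succ k ih =>
    intro st hv hR
    cases st with
    | leaf _ _ _ => exact absurd hv (by simp [Valid])
    | node y x1 x0 c0 c1 c2 =>
      simp only [Valid] at hv
      obtain ⟨⟨d0, d1, d2⟩, -, ⟨v0, v1, v2⟩, ⟨a1, a0⟩, ⟨b1, b0⟩, ⟨e1, e0⟩⟩ := hv
      simp only [TT.y] at hR
      have i0 := ih c0 v0 (fun z hz => hR z (d0.trans hz))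
      have i1 := ih c1 v1 (fun z hz => hR z (d1.trans hz))
      have i2 := ih c2 v2 (fun z hz => hR z (d2.trans hz))
      have hS : ∀ w w' : B, ∀ a ∈ (Rg TB.p y w w' : Set (F × B)), a.2 ∈ R :=
        fun w w' a ha => hR _ ha.1
      have a1' := UC_W TF TB f t U u R hW _ (hS _ _) _ _ a1
      have a0' := UC_W TF TB f t U u R hW _ (hS _ _) _ _ a0
      have b1' := UC_W TF TB f t U u R hW _ (hS _ _) _ _ b1
      have b0' := UC_W TF TB f t U u R hW _ (hS _ _) _ _ b0
      have e1' := UC_W TF TB f t U u R hW _ (hS _ _) _ _ e1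
      have e0' := UC_W TF TB f t U u R hW _ (hS _ _) _ _ e0
      simp only [Mj, TT.x1, TT.x0, TT.y]
      rw [i0, i1, i2, ← a1', ← a0', ← b1', ← b0', ← e1', ← e0']
      generalize W TF TB f t U α u (x1, y) + W TF TB f t U α u (x0, y) = m
      revert m
      unfold maj
      decide

/-- Siblings with different values give a rainbow triangle outside of the third subtree. -/
lemma disagree {α : ℕ} (hα : α ≤ t) (top : B)
    (hU : ∀ a b : F × B, Desc TB.p top a.2 → Desc TB.p top b.2 → Nr TF TB a b →
      (f a < t ↔ f b < t) → U a = U b)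
    (k : ℕ) (y : B) (x1 x0 : F) (ci cj cl : TT F B) (hy : Desc TB.p top y)
    (dj : Desc TB.p y cj.y) (dl : Desc TB.p y cl.y)
    (sij : Dis TB.p ci.y cj.y) (sil : Dis TB.p ci.y cl.y)
    (vj : Valid TF TB U k cj) (vl : Valid TF TB U k cl)
    (j1 : UC TF TB U (Rg TB.p y ci.y cl.y) (x1, y) (cj.x1, cj.y))
    (j0 : UC TF TB U (Rg TB.p y ci.y cl.y) (x0, y) (cj.x0, cj.y))
    (l1 : UC TF TB U (Rg TB.p y ci.y cj.y) (x1, y) (cl.x1, cl.y))
    (l0 : UC TF TB U (Rg TB.p y ci.y cj.y) (x0, y) (cl.x0, cl.y))
    (hne : Mj TF f t U α cj ≠ Mj TF f t U α cl) :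
    ∃ a b c : F × B, Rb TF TB f t α a b c ∧ (Desc TB.p y a.2 ∧ ¬ Desc TB.p ci.y a.2) ∧
      (Desc TB.p y b.2 ∧ ¬ Desc TB.p ci.y b.2) ∧ (Desc TB.p y c.2 ∧ ¬ Desc TB.p ci.y c.2) := by
  by_contra hno
  apply hne
  set R : Set B := {z | Desc TB.p y z ∧ ¬ Desc TB.p ci.y z} with hRdef
  have hyR : y ∈ R := by
    refine ⟨Desc.rfl', fun h => ?_⟩
    exact sij cj.y (h.trans dj) Desc.rfl'
  have hcl : ∀ z ∈ R, z ≠ y → TB.p z ∈ R := by
    intro z hz hne
    exact ⟨hz.1.par_of_ne hne, fun h => hz.2 h.of_par⟩
  have hW := W_cob TF TB f t U hα y R hyR (fun z hz => hz.1) hcl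
    (fun a b c ha hb hc hr => hno ⟨a, b, c, hr, ha, hb, hc⟩)
    (fun a b ha hb => hU a b (hy.trans ha.1) (hy.trans hb.1))
  have mj := Mj_const TF TB f t U y R hW k cj vj
    (fun z hz => ⟨dj.trans hz, fun h => sij z h hz⟩)
  have ml := Mj_const TF TB f t U y R hW k cl vl
    (fun z hz => ⟨dl.trans hz, fun h => sil z h hz⟩)
  have hS : ∀ w : B, ∀ a ∈ (Rg TB.p y ci.y w : Set (F × B)), a.2 ∈ R :=
    fun w a ha => ⟨ha.1, ha.2.1⟩
  have j1' := UC_W TF TB f t U y R hW _ (hS _) _ _ j1
  have j0' := UC_W TF TB f t U y R hW _ (hS _) _ _ j0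
  have l1' := UC_W TF TB f t U y R hW _ (hS _) _ _ l1
  have l0' := UC_W TF TB f t U y R hW _ (hS _) _ _ l0
  rw [mj, ml, ← j1', ← j0', ← l1', ← l0']

/-- If the moving vertex is not below the top of `st`, the value does not change. -/
lemma Mj_loc {α : ℕ} : ∀ (k : ℕ) (st : TT F B), Valid TF TB U k st →
    (∀ v : F × B, f v = α → ¬ Desc TB.p st.y v.2) → Mj TF f t U α st = Mj TF f t U (α + 1) st := by
  intro k
  induction k with
  | zero =>
    intro st hv h
    cases st with
    | node _ _ _ _ _ _ => exact absurd hv (by simp [Valid])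
    | leaf y x1 x0 =>
      have key : ∀ a b : F, E f t U α (a, y) (b, y) = E f t U (α + 1) (a, y) (b, y) := by
        intro a b
        have ha : f (a, y) ≠ α := fun h' => h (a, y) h' Desc.rfl'
        have hb : f (b, y) ≠ α := fun h' => h (b, y) h' Desc.rfl'
        unfold E
        have : ((f (a, y) < α ∧ t ≤ f (b, y)) ∨ (f (b, y) < α ∧ t ≤ f (a, y))) ↔
            ((f (a, y) < α + 1 ∧ t ≤ f (b, y)) ∨ (f (b, y) < α + 1 ∧ t ≤ f (a, y))) := by
          omega
        by_cases hh : (f (a, y) < α ∧ t ≤ f (b, y)) ∨ (f (b, y) < α ∧ t ≤ f (a, y))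
        · rw [if_pos hh, if_pos (this.mp hh)]
        · rw [if_neg hh, if_neg (fun h' => hh (this.mpr h'))]
      have hh : ∀ x : F, hp TF f t U α y x = hp TF f t U (α + 1) y x := by
        intro x
        unfold hp
        exact Finset.sum_congr rfl (fun i _ => key _ _)
      simp only [Mj]
      rw [hh, hh]
  | succ k ih =>
    intro st hv h
    cases st with
    | leaf _ _ _ => exact absurd hv (by simp [Valid])
    | node y x1 x0 c0 c1 c2 =>
      simp only [Valid] at hv
      obtain ⟨⟨d0, d1, d2⟩, -, ⟨v0, v1, v2⟩, -⟩ := hv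
      simp only [TT.y] at h
      simp only [Mj]
      rw [ih c0 v0 (fun v hv hd => h v hv (d0.trans hd)),
        ih c1 v1 (fun v hv hd => h v hv (d1.trans hd)),
        ih c2 v2 (fun v hv hd => h v hv (d2.trans hd))]

/-- `k` rainbow triangles over pairwise disjoint parts of the base, all inside `R` -/
def HasTri (α : ℕ) (k : ℕ) (R : Set B) : Prop :=
  ∃ tri : ℕ → (F × B) × (F × B) × (F × B),
    (∀ i < k, Rb TF TB f t α (tri i).1 (tri i).2.1 (tri i).2.2 ∧
      (tri i).1.2 ∈ R ∧ (tri i).2.1.2 ∈ R ∧ (tri i).2.2.2 ∈ R) ∧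
    (∀ i < k, ∀ j < k, i ≠ j → (tri i).1.2 ≠ (tri j).1.2 ∧ (tri i).2.1.2 ≠ (tri j).2.1.2 ∧
      (tri i).2.2.2 ≠ (tri j).2.2.2)

lemma HasTri.zero (α : ℕ) (R : Set B) [Nonempty (F × B)] : HasTri TF TB f t α 0 R := by
  obtain ⟨v⟩ := (inferInstance : Nonempty (F × B))
  exact ⟨fun _ => (v, v, v), fun i hi => absurd hi (by omega), fun i hi => absurd hi (by omega)⟩

lemma HasTri.add {α k : ℕ} {R R' : Set B} (h : HasTri TF TB f t α k R) (hRR : R ⊆ R')
    (h' : ∃ a b c : F × B, Rb TF TB f t α a b c ∧ (a.2 ∈ R' ∧ a.2 ∉ R) ∧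
      (b.2 ∈ R' ∧ b.2 ∉ R) ∧ (c.2 ∈ R' ∧ c.2 ∉ R)) : HasTri TF TB f t α (k + 1) R' := by
  obtain ⟨tri, h1, h2⟩ := h
  obtain ⟨a, b, c, hr, ⟨ha, ha'⟩, ⟨hb, hb'⟩, ⟨hc, hc'⟩⟩ := h'
  refine ⟨fun i => if i < k then tri i else (a, b, c), ?_, ?_⟩
  · intro i hi
    by_cases hik : i < k
    · simp only [hik, if_true]
      obtain ⟨r1, r2, r3, r4⟩ := h1 i hik
      exact ⟨r1, hRR r2, hRR r3, hRR r4⟩
    · simp only [hik, if_false]
      exact ⟨hr, ha, hb, hc⟩
  · intro i hi j hj hij
    by_cases hik : i < k
    · by_cases hjk : j < k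
      · simp only [hik, hjk, if_true]
        exact h2 i hik j hjk hij
      · simp only [hik, hjk, if_true, if_false]
        obtain ⟨-, r2, r3, r4⟩ := h1 i hik
        exact ⟨fun h => ha' (h ▸ r2), fun h => hb' (h ▸ r3), fun h => hc' (h ▸ r4)⟩
    · by_cases hjk : j < k
      · simp only [hik, hjk, if_true, if_false]
        obtain ⟨-, r2, r3, r4⟩ := h1 j hjk
        exact ⟨fun h => ha' (h ▸ r2), fun h => hb' (h ▸ r3), fun h => hc' (h ▸ r4)⟩
      · omega

lemma maj_flip1 : ∀ a b c a' : ZMod 2, maj a b c ≠ maj a' b c → b ≠ c := by unfold maj; decide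

lemma maj_rot (a b c : ZMod 2) : maj a b c = maj b c a := by unfold maj; ring

lemma maj_swap (a b c : ZMod 2) : maj a b c = maj b a c := by unfold maj; ring

/-- a change of the recursive majority produces many disjoint rainbow triangles -/
lemma flip {α : ℕ} (hα : α < t) (top : B)
    (hU : ∀ a b : F × B, Desc TB.p top a.2 → Desc TB.p top b.2 → Nr TF TB a b →
      (f a < t ↔ f b < t) → U a = U b)
    (hinj : ∀ a b : F × B, f a = f b → a.2 = b.2) :
    ∀ (k : ℕ) (st : TT F B), Valid TF TB U k st → Desc TB.p top st.y →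
      Mj TF f t U α st ≠ Mj TF f t U (α + 1) st →
      HasTri TF TB f t α k {z | Desc TB.p st.y z} := by
  intro k
  induction k with
  | zero =>
    intro st hv hd hne
    have : Nonempty (F × B) := ⟨(st.x1, st.y)⟩
    exact HasTri.zero TF TB f t α _
  | succ k ih =>
    intro st hv hd hne
    cases st with
    | leaf _ _ _ => exact absurd hv (by simp [Valid])
    | node y x1 x0 c0 c1 c2 =>
      simp only [Valid] at hv
      obtain ⟨⟨d0, d1, d2⟩, ⟨s01, s02, s12⟩, ⟨v0, v1, v2⟩, ⟨a1, a0⟩, ⟨b1, b0⟩, ⟨e1, e0⟩⟩ := hv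
      simp only [TT.y] at hd
      simp only [Mj] at hne
      simp only [TT.y]
      -- locality: a changed child contains the moving vertex
      have loc : ∀ c : TT F B, Valid TF TB U k c → Mj TF f t U α c ≠ Mj TF f t U (α + 1) c →
          ∃ v : F × B, f v = α ∧ Desc TB.p c.y v.2 := by
        intro c vc hc
        by_contra hno
        exact hc (Mj_loc TF TB f t U k c vc (fun v hv hd => hno ⟨v, hv, hd⟩))
      have loc2 : ∀ c c' : TT F B, Valid TF TB U k c → Valid TF TB U k c' → Dis TB.p c.y c'.y →
          Mj TF f t U α c ≠ Mj TF f t U (α + 1) c → Mj TF f t U α c' = Mj TF f t U (α + 1) c' := by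
        intro c c' vc vc' hdis hc
        by_contra hc'
        obtain ⟨v, hv, hvd⟩ := loc c vc hc
        obtain ⟨v', hv', hvd'⟩ := loc c' vc' hc'
        have := hinj v v' (hv.trans hv'.symm)
        exact hdis v.2 hvd (this ▸ hvd')
      -- one of the children changes
      by_cases h0 : Mj TF f t U α c0 = Mj TF f t U (α + 1) c0
      · by_cases h1 : Mj TF f t U α c1 = Mj TF f t U (α + 1) c1
        · by_cases h2 : Mj TF f t U α c2 = Mj TF f t U (α + 1) c2
          · exact absurd (by rw [h0, h1, h2]) hne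
          · -- child 2 changes
            have hcc : Mj TF f t U α c0 ≠ Mj TF f t U α c1 := by
              have := hne
              rw [← h0, ← h1, maj_rot, maj_rot, maj_rot (Mj TF f t U α c0), maj_rot (Mj TF f t U α c1)] at this
              exact maj_flip1 _ _ _ _ this
            refine HasTri.add TF TB f t (ih c2 v2 (hd.trans d2) h2)
              (fun z hz => d2.trans hz) ?_
            exact disagree TF TB f t U hα.le top hU k y x1 x0 c2 c0 c1 hd d0 d1 s02.symm s12.symm
              v0 v1 (by
                have : (Rg TB.p y c2.y c1.y : Set (F × B)) = Rg TB.p y c1.y c2.y := by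
                  unfold Rg; ext v; simp only [Set.mem_ofPred_eq]; tauto
                rw [this]; exact a1)
              (by
                have : (Rg TB.p y c2.y c1.y : Set (F × B)) = Rg TB.p y c1.y c2.y := by
                  unfold Rg; ext v; simp only [Set.mem_ofPred_eq]; tauto
                rw [this]; exact a0)
              (by
                have : (Rg TB.p y c2.y c0.y : Set (F × B)) = Rg TB.p y c0.y c2.y := by
                  unfold Rg; ext v; simp only [Set.mem_ofPred_eq]; tauto
                rw [this]; exact b1)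
              (by
                have : (Rg TB.p y c2.y c0.y : Set (F × B)) = Rg TB.p y c0.y c2.y := by
                  unfold Rg; ext v; simp only [Set.mem_ofPred_eq]; tauto
                rw [this]; exact b0) hcc
        · -- child 1 changes
          have h2 := loc2 c1 c2 v1 v2 s12 h1
          have hcc : Mj TF f t U α c0 ≠ Mj TF f t U α c2 := by
            have := hne
            rw [← h0, ← h2, maj_swap, maj_swap (Mj TF f t U α c0)] at this
            exact maj_flip1 _ _ _ _ this
          refine HasTri.add TF TB f t (ih c1 v1 (hd.trans d1) h1)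
            (fun z hz => d1.trans hz) ?_
          exact disagree TF TB f t U hα.le top hU k y x1 x0 c1 c0 c2 hd d0 d2 s01.symm s12
            v0 v2 a1 a0 (by
                have : (Rg TB.p y c1.y c0.y : Set (F × B)) = Rg TB.p y c0.y c1.y := by
                  unfold Rg; ext v; simp only [Set.mem_ofPred_eq]; tauto
                rw [this]; exact e1)
              (by
                have : (Rg TB.p y c1.y c0.y : Set (F × B)) = Rg TB.p y c0.y c1.y := by
                  unfold Rg; ext v; simp only [Set.mem_ofPred_eq]; tauto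
                rw [this]; exact e0) hcc
      · -- child 0 changes
        have h1 := loc2 c0 c1 v0 v1 s01 h0
        have h2 := loc2 c0 c2 v0 v2 s02 h0
        have hcc : Mj TF f t U α c1 ≠ Mj TF f t U α c2 := by
          have := hne
          rw [← h1, ← h2] at this
          exact maj_flip1 _ _ _ _ this
        refine HasTri.add TF TB f t (ih c0 v0 (hd.trans d0) h0)
          (fun z hz => d0.trans hz) ?_
        exact disagree TF TB f t U hα.le top hU k y x1 x0 c0 c1 c2 hd d1 d2 s01 s02
          v1 v2 b1 b0 e1 e0 hcc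

lemma Mj_start : ∀ (k : ℕ) (st : TT F B), Valid TF TB U k st → Mj TF f t U 0 st = 0 := by
  intro k
  induction k with
  | zero =>
    intro st hv
    cases st with
    | node _ _ _ _ _ _ => exact absurd hv (by simp [Valid])
    | leaf y x1 x0 =>
      have hh : ∀ x : F, hp TF f t U 0 y x = 0 := by
        intro x
        unfold hp
        apply Finset.sum_eq_zero
        intro i _
        unfold E
        simp
      simp only [Mj]
      rw [hh, hh, add_zero]
  | succ k ih =>
    intro st hv
    cases st with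
    | leaf _ _ _ => exact absurd hv (by simp [Valid])
    | node y x1 x0 c0 c1 c2 =>
      simp only [Valid] at hv
      obtain ⟨-, -, ⟨v0, v1, v2⟩, -⟩ := hv
      simp only [Mj]
      rw [ih c0 v0, ih c1 v1, ih c2 v2]
      decide

lemma Mj_end (top : B)
    (hU : ∀ a b : F × B, Desc TB.p top a.2 → Desc TB.p top b.2 → Nr TF TB a b →
      (f a < t ↔ f b < t) → U a = U b) :
    ∀ (k : ℕ) (st : TT F B), Valid TF TB U k st → Desc TB.p top st.y →
      Mj TF f t U t st = 1 := by
  intro k
  induction k with
  | zero =>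
    intro st hv hd
    cases st with
    | node _ _ _ _ _ _ => exact absurd hv (by simp [Valid])
    | leaf y x1 x0 =>
      simp only [TT.y] at hd
      have key : ∀ x : F, E f t U t (x, y) (TF.p x, y) = U (x, y) + U (TF.p x, y) := by
        intro x
        unfold E
        split_ifs with h
        · rfl
        · rw [hU (x, y) (TF.p x, y) hd hd ⟨nr.par _, nr.refl _⟩ (by omega), zadd_self]
      have hh : ∀ (n : ℕ) (x : F), TF.d x = n →
          hp TF f t U t y x = U (x, y) + U (TF.r, y) := by
        intro n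
        induction n with
        | zero =>
          intro x hx
          have : x = TF.r := by
            by_contra hne
            have := TF.dp x hne
            omega
          subst this
          rw [hp_root, zadd_self]
        | succ n ih =>
          intro x hx
          have hne : x ≠ TF.r := by
            intro h
            rw [h, TF.dr] at hx
            omega
          have h1 := TF.dp x hne
          have h2 := ih (TF.p x) (by omega)
          have h3 := hp_step TF f t U t y x
          rw [h2, key x] at h3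
          revert h3
          generalize hp TF f t U t y x = e1
          generalize U (x, y) = w1
          generalize U (TF.p x, y) = w2
          generalize U (TF.r, y) = w3
          revert e1 w1 w2 w3
          decide
      simp only [Mj]
      simp only [Valid] at hv
      rw [hh _ x1 rfl, hh _ x0 rfl]
      revert hv
      generalize U (x1, y) = w1
      generalize U (x0, y) = w2
      generalize U (TF.r, y) = w3
      revert w1 w2 w3
      decide
  | succ k ih =>
    intro st hv hd
    cases st with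
    | leaf _ _ _ => exact absurd hv (by simp [Valid])
    | node y x1 x0 c0 c1 c2 =>
      simp only [Valid] at hv
      obtain ⟨⟨d0, d1, d2⟩, -, ⟨v0, v1, v2⟩, -⟩ := hv
      simp only [TT.y] at hd
      simp only [Mj]
      rw [ih c0 v0 (hd.trans d0), ih c1 v1 (hd.trans d1), ih c2 v2 (hd.trans d2)]
      decide

/-- **Generic theorem.** A valid decorated ternary tree of depth `k` forces `k` disjoint rainbow
triangles for some pair of thresholds. -/
theorem generic (top : B)
    (hU : ∀ a b : F × B, Desc TB.p top a.2 → Desc TB.p top b.2 → Nr TF TB a b →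
      (f a < t ↔ f b < t) → U a = U b)
    (hinj : ∀ a b : F × B, f a = f b → a.2 = b.2)
    (k : ℕ) (st : TT F B) (hv : Valid TF TB U k st) (hd : Desc TB.p top st.y) :
    ∃ α, α < t ∧ HasTri TF TB f t α k {z | Desc TB.p st.y z} := by
  by_contra hno
  have hall : ∀ α, α ≤ t → Mj TF f t U α st = 0 := by
    intro α
    induction α with
    | zero => intro _; exact Mj_start TF TB f t U k st hv
    | succ α ih =>
      intro h
      by_contra hne
      apply hno
      refine ⟨α, by omega, ?_⟩
      apply flip TF TB f t U (by omega) top hU hinj k st hv hd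
      rw [ih (by omega)]
      exact fun h => hne h.symm
  have h1 := hall t le_rfl
  rw [Mj_end TF TB f t U top hU k st hv hd] at h1
  exact one_ne_zero h1

end generic

end Pool.Agent.Helper61.Stack
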