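import Pool.Agent.Helper61.StackB

set_option autoImplicit false
set_option linter.unusedTactic false
set_option linter.unreachableTactic false

namespace Pool.Agent.Helper61.Stack

open Relation

section trees

variable {B : Type} (TB : RTree B)

lemma Desc.eq_or_lt {u v : B} (h : Desc TB.p u v) : u = v ∨ TB.d u < TB.d v := by
  obtain ⟨i, hi⟩ := h
  revert v
  induction i with
  | zero => intro v hi; exact Or.inl hi.symm
  | succ i ih =>
    intro v hi
    rw [Function.iterate_succ_apply] at hi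
    by_cases hv : v = TB.r
    · have : TB.p v = v := by rw [hv, TB.pr]
      rw [this] at hi
      exact ih hi
    · have h1 := TB.dp v hv
      rcases ih hi with h2 | h2
      · right; rw [h2]; omega
      · right; omega

lemma Desc.antisymm' {u v : B} (h : Desc TB.p u v) (h' : Desc TB.p v u) : u = v := by
  rcases h.eq_or_lt TB with h1 | h1
  · exact h1
  · rcases h'.eq_or_lt TB with h2 | h2
    · exact h2.symm
    · omega

lemma Desc.root (v : B) : Desc TB.p TB.r v := by
  have key : ∀ (n : ℕ) (v : B), TB.d v = n → Desc TB.p TB.r v := by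
    intro n
    induction n with
    | zero =>
      intro v hv
      have : v = TB.r := by
        by_contra hne
        have := TB.dp v hne
        omega
      rw [this]
      exact Desc.rfl'
    | succ n ih =>
      intro v hv
      by_cases hr : v = TB.r
      · rw [hr]; exact Desc.rfl'
      · have := TB.dp v hr
        exact (ih (TB.p v) (by omega)).of_par
  exact key _ v rfl

/-- `N`-ary branching structure of depth `k` below `u` -/
def St (p : B → B) (N : ℕ) : ℕ → B → Prop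
  | 0, _ => True
  | k + 1, u => ∃ w : Fin N → B, (∀ i, Desc p u (w i)) ∧
      (∀ i j, i ≠ j → Dis p (w i) (w j)) ∧ ∀ i, St p N k (w i)

end trees

section conn

variable {F B : Type} (TF : RTree F) (TB : RTree B)

/-- connection inside `S` by steps in the strong product -/
def Conn (S : Set (F × B)) (a b : F × B) : Prop :=
  a ∈ S ∧ ReflTransGen (fun a b => a ∈ S ∧ b ∈ S ∧ Nr TF TB a b) a b

variable {TF TB}

lemma Conn.refl' {S : Set (F × B)} {a : F × B} (h : a ∈ S) : Conn TF TB S a a :=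
  ⟨h, ReflTransGen.refl⟩

lemma Conn.mem_right {S : Set (F × B)} {a b : F × B} (h : Conn TF TB S a b) : b ∈ S := by
  obtain ⟨h1, h2⟩ := h
  cases h2 with
  | refl => exact h1
  | tail _ h => exact h.2.1

lemma Conn.step {S : Set (F × B)} {a b c : F × B} (h : Conn TF TB S a b) (hc : c ∈ S)
    (hn : Nr TF TB b c) : Conn TF TB S a c :=
  ⟨h.1, h.2.tail ⟨h.mem_right, hc, hn⟩⟩

lemma Conn.trans {S : Set (F × B)} {a b c : F × B} (h : Conn TF TB S a b)
    (h' : Conn TF TB S b c) : Conn TF TB S a c := ⟨h.1, h.2.trans h'.2⟩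

lemma Conn.symm {S : Set (F × B)} {a b : F × B} (h : Conn TF TB S a b) : Conn TF TB S b a := by
  refine ⟨h.mem_right, ?_⟩
  have := h.2
  clear h
  induction this with
  | refl => exact ReflTransGen.refl
  | tail _ h ih => exact ReflTransGen.head ⟨h.2.1, h.1, h.2.2.symm⟩ ih

lemma Conn.mono {S S' : Set (F × B)} (hS : S ⊆ S') {a b : F × B} (h : Conn TF TB S a b) :
    Conn TF TB S' a b :=
  ⟨hS h.1, ReflTransGen.mono (fun _ _ h => ⟨hS h.1, hS h.2.1, h.2.2⟩) _ _ h.2⟩

lemma Conn.exit {S : Set (F × B)} {a b : F × B} {w : B} (h : Conn TF TB S a b)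
    (ha : Desc TB.p w a.2) (hb : b.2 = w ∨ ¬ Desc TB.p w b.2) :
    ∃ x, Conn TF TB (S ∩ {v | Desc TB.p w v.2}) a (x, w) ∧ Conn TF TB S (x, w) b := by
  obtain ⟨haS, h⟩ := h
  have key : (∃ x, Conn TF TB (S ∩ {v | Desc TB.p w v.2}) a (x, w) ∧ Conn TF TB S (x, w) b) ∨
      (Desc TB.p w b.2 ∧ Conn TF TB (S ∩ {v | Desc TB.p w v.2}) a b) := by
    clear hb
    induction h with
    | refl => exact Or.inr ⟨ha, Conn.refl' ⟨haS, ha⟩⟩
    | @tail b c _ hbc ih =>
      obtain ⟨hbS, hcS, hn⟩ := hbc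
      rcases ih with ⟨x, h1, h2⟩ | ⟨h1, h2⟩
      · exact Or.inl ⟨x, h1, h2.step hcS hn⟩
      · by_cases hc : Desc TB.p w c.2
        · exact Or.inr ⟨hc, h2.step ⟨hcS, hc⟩ hn⟩
        · have hbw : b.2 = w := by
            by_contra hne
            rcases hn.2 with h | h | h
            · exact hc (h ▸ h1)
            · exact hc (h ▸ (h1.par_of_ne hne))
            · exact hc (Desc.of_par (h ▸ h1))
          left
          refine ⟨b.1, ?_, ?_⟩
          · rw [← hbw]; rw [← hbw] at h2; exact h2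
          · rw [← hbw]
            exact (Conn.refl' hbS).step hcS hn
  rcases key with h | ⟨h1, h2⟩
  · exact h
  · rcases hb with hb | hb
    · refine ⟨b.1, ?_, ?_⟩
      · have : (b.1, w) = b := by rw [← hb]
        rw [this]; exact h2
      · have : (b.1, w) = b := by rw [← hb]
        rw [this]
        exact Conn.refl' h2.mem_right.1
    · exact absurd h1 hb

lemma UC_of_Conn {U : F × B → ZMod 2} {S S' : Set (F × B)} (hS : S ⊆ S')
    (hU : ∀ a ∈ S, ∀ b ∈ S, U a = U b) {a b : F × B} (h : Conn TF TB S a b) :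
    UC TF TB U S' a b :=
  ReflTransGen.mono (fun _ _ h => ⟨hS h.1, hS h.2.1, h.2.2, hU _ h.1 _ h.2.1⟩) _ _ h.2

end conn

section two

variable {F B : Type} (TF : RTree F) (TB : RTree B) (f : F × B → ℕ)

/-- colour of a vertex at time `t` -/
def colr {V : Type} (f : V → ℕ) (t : ℕ) (v : V) : Bool := decide (f v < t)

/-- region for crossings between the fibres over `η` and `u` -/
def CS (t : ℕ) (c : Bool) (u η : B) : Set (F × B) :=
  {v | Desc TB.p u v.2 ∧ Desc TB.p v.2 η ∧ colr f t v = c}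

/-- a monochromatic crossing of colour `c` -/
def Cross (t : ℕ) (c : Bool) (u η : B) : Prop :=
  ∃ x x' : F, Conn TF TB (CS TB f t c u η) (x, η) (x', u)

/-- the colour as an element of `ZMod 2` -/
def Uc (t : ℕ) (v : F × B) : ZMod 2 := if f v < t then 1 else 0

/-- If all leaves are crossed by both colours there is a valid decorated ternary tree. -/
lemma two_aux [Fintype F] (t N : ℕ) (hN : Fintype.card (F × F) * 2 < N) (u : B)
    (hall : ∀ η, Desc TB.p u η → Cross TF TB f t true u η ∧ Cross TF TB f t false u η) :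
    ∀ (k : ℕ) (w : B), Desc TB.p u w → St TB.p N k w →
      ∃ (η : B) (st : TT F B), Desc TB.p w η ∧ st.y = w ∧ Valid TF TB (Uc f t) k st ∧
        (∃ x', Conn TF TB (CS TB f t true u η) (st.x1, w) (x', u)) ∧
        (∃ x', Conn TF TB (CS TB f t false u η) (st.x0, w) (x', u)) := by
  classical
  intro k
  induction k with
  | zero =>
    intro w hw _
    obtain ⟨⟨x1, x1', h1⟩, ⟨x0, x0', h0⟩⟩ := hall w hw
    refine ⟨w, TT.leaf w x1 x0, Desc.rfl', rfl, ?_, ⟨x1', h1⟩, ⟨x0', h0⟩⟩
    have c1 : colr f t (x1, w) = true := h1.1.2.2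
    have c0 : colr f t (x0, w) = false := h0.1.2.2
    simp only [colr, decide_eq_true_eq, decide_eq_false_iff_not] at c1 c0
    simp only [Valid, Uc, c1, c0, if_true, if_false, add_zero]
  | succ k ih =>
    intro w hw hst
    obtain ⟨ws, hws1, hws2, hws3⟩ := hst
    have hch : ∀ i : Fin N, ∃ (η : B) (st : TT F B) (X1 X0 : F), Desc TB.p (ws i) η ∧
        st.y = ws i ∧ Valid TF TB (Uc f t) k st ∧
        Conn TF TB (CS TB f t true u η ∩ {v | Desc TB.p w v.2}) (st.x1, ws i) (X1, w) ∧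
        Conn TF TB (CS TB f t false u η ∩ {v | Desc TB.p w v.2}) (st.x0, ws i) (X0, w) ∧
        (∃ x', Conn TF TB (CS TB f t true u η) (X1, w) (x', u)) ∧
        (∃ x', Conn TF TB (CS TB f t false u η) (X0, w) (x', u)) := by
      intro i
      obtain ⟨η, st, h1, h2, h3, ⟨x', h4⟩, ⟨x'', h5⟩⟩ := ih (ws i) (hw.trans (hws1 i)) (hws3 i)
      have hend : u = w ∨ ¬ Desc TB.p w u := by
        by_cases h : Desc TB.p w u
        · exact Or.inl (Desc.antisymm' TB hw h)
        · exact Or.inr h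
      obtain ⟨X1, g1, g2⟩ := h4.exit (w := w) (hws1 i) hend
      obtain ⟨X0, g3, g4⟩ := h5.exit (w := w) (hws1 i) hend
      exact ⟨η, st, X1, X0, h1, h2, h3, g1, g3, ⟨x', g2⟩, ⟨x'', g4⟩⟩
    choose η st X1 X0 h1 h2 h3 h4 h5 h6 h7 using hch
    obtain ⟨⟨Y1, Y0⟩, hY⟩ := Fintype.exists_lt_card_fiber_of_mul_lt_card
      (fun i : Fin N => (X1 i, X0 i)) (n := 2) (by simpa using hN)
    obtain ⟨a, ha, b, hb, c, hc, hab, hac, hbc⟩ := Finset.two_lt_card.mp hY
    simp only [Finset.mem_filter, Finset.mem_univ, true_and, Prod.mk.injEq] at ha hb hc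
    obtain ⟨ha1, ha0⟩ := ha
    obtain ⟨hb1, hb0⟩ := hb
    obtain ⟨hc1, hc0⟩ := hc
    have hUt : ∀ η' : B, ∀ v ∈ (CS TB f t true u η' ∩ {v | Desc TB.p w v.2} : Set (F × B)),
        ∀ v' ∈ (CS TB f t true u η' ∩ {v | Desc TB.p w v.2} : Set (F × B)),
        Uc f t v = Uc f t v' := by
      intro η' v hv v' hv'
      have c1 := hv.1.2.2
      have c2 := hv'.1.2.2
      simp only [colr, decide_eq_true_eq] at c1 c2
      simp only [Uc, c1, c2, if_true]
    have hUf : ∀ η' : B, ∀ v ∈ (CS TB f t false u η' ∩ {v | Desc TB.p w v.2} : Set (F × B)),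
        ∀ v' ∈ (CS TB f t false u η' ∩ {v | Desc TB.p w v.2} : Set (F × B)),
        Uc f t v = Uc f t v' := by
      intro η' v hv v' hv'
      have c1 := hv.1.2.2
      have c2 := hv'.1.2.2
      simp only [colr, decide_eq_false_iff_not] at c1 c2
      simp only [Uc, c1, c2, if_false]
    have hsub : ∀ (cc : Bool) (i j l : Fin N), i ≠ j → i ≠ l →
        (CS TB f t cc u (η i) ∩ {v | Desc TB.p w v.2} : Set (F × B)) ⊆ Rg TB.p w (ws j) (ws l) := by
      intro cc i j l hij hil v hv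
      refine ⟨hv.2, fun h => ?_, fun h => ?_⟩
      · exact hws2 i j hij (η i) (h1 i) (h.trans hv.1.2.1)
      · exact hws2 i l hil (η i) (h1 i) (h.trans hv.1.2.1)
    have hconn : ∀ i j l : Fin N, i ≠ j → i ≠ l →
        UC TF TB (Uc f t) (Rg TB.p w (ws j) (ws l)) (X1 i, w) ((st i).x1, ws i) ∧
        UC TF TB (Uc f t) (Rg TB.p w (ws j) (ws l)) (X0 i, w) ((st i).x0, ws i) := by
      intro i j l hij hil
      exact ⟨UC_of_Conn (hsub true i j l hij hil) (hUt (η i)) (h4 i).symm,
        UC_of_Conn (hsub false i j l hij hil) (hUf (η i)) (h5 i).symm⟩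
    refine ⟨η a, TT.node w Y1 Y0 (st a) (st b) (st c), (hws1 a).trans (h1 a), rfl, ?_, ?_, ?_⟩
    · simp only [Valid, h2]
      refine ⟨⟨hws1 a, hws1 b, hws1 c⟩, ⟨hws2 a b hab, hws2 a c hac, hws2 b c hbc⟩,
        ⟨h3 a, h3 b, h3 c⟩, ?_, ?_, ?_⟩
      · have := hconn a b c hab hac
        rwa [ha1, ha0] at this
      · have := hconn b a c hab.symm hbc
        rwa [hb1, hb0] at this
      · have := hconn c a b hac.symm hbc.symm
        rwa [hc1, hc0] at this
    · have := h6 a
      rwa [ha1] at this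
    · have := h7 a
      rwa [ha0] at this

/-- Some leaf is not crossed by both colours, unless there are many rainbow triangles. -/
theorem two [Fintype F] (hf : Function.Injective f) (t N k : ℕ)
    (hN : Fintype.card (F × F) * 2 < N) (u : B) (hst : St TB.p N k u)
    (hno : ∀ (α : ℕ) (R : Set B), ¬ HasTri TF TB f t α k R) :
    ∃ η, Desc TB.p u η ∧ ∃ c, ¬ Cross TF TB f t c u η := by
  by_contra hcon
  have hall : ∀ η, Desc TB.p u η → Cross TF TB f t true u η ∧ Cross TF TB f t false u η := by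
    intro η hη
    constructor
    · by_contra h; exact hcon ⟨η, hη, true, h⟩
    · by_contra h; exact hcon ⟨η, hη, false, h⟩
  obtain ⟨η, st, -, hy, hv, -, -⟩ := two_aux TF TB f t N hN u hall k u Desc.rfl' hst
  obtain ⟨α, -, h⟩ := generic TF TB f t (Uc f t) u
    (by
      intro a b _ _ _ hab
      unfold Uc
      by_cases h : f a < t
      · rw [if_pos h, if_pos (hab.mp h)]
      · rw [if_neg h, if_neg (fun h' => h (hab.mpr h'))])
    (by
      intro a b hab
      rw [hf hab])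
    k st hv (by rw [hy]; exact Desc.rfl')
  exact hno α _ h

end two

section one

/-- the natural numbers as a rooted path -/
def TN : RTree ℕ where
  p := fun n => n - 1
  r := 0
  d := fun n => n
  pr := rfl
  dr := rfl
  dp := by intro v hv; omega

variable {F B : Type} (TF : RTree F) (TB : RTree B) (f : F × B → ℕ)

/-- Crossing lemma in the index space. -/
theorem one_idx (g : ℕ × F → ℕ) (hg : ∀ a b : ℕ × F, g a = g b → a.2 = b.2) (t k n : ℕ) (a : F)
    (hst : St TF.p 3 k a)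
    (hno : ∀ (α : ℕ) (R : Set F), ¬ HasTri TN TF g t α k R) :
    ∃ (c : Bool) (x x' : F), Conn TN TF {v | Desc TF.p a v.2 ∧ colr g t v = c} (0, x) (n, x') := by
  classical
  by_contra hcon
  let U : ℕ × F → ZMod 2 := fun v =>
    if ∃ (c : Bool) (x : F), Conn TN TF {v | Desc TF.p a v.2 ∧ colr g t v = c} (0, x) v
    then 1 else 0
  have hU0 : ∀ x, Desc TF.p a x → U (0, x) = 1 := by
    intro x hx
    have : ∃ (c : Bool) (x' : F),
        Conn TN TF {v | Desc TF.p a v.2 ∧ colr g t v = c} (0, x') (0, x) :=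
      ⟨colr g t (0, x), x, Conn.refl' ⟨hx, rfl⟩⟩
    simp only [U, if_pos this]
  have hUn : ∀ x, U (n, x) = 0 := by
    intro x
    have : ¬ ∃ (c : Bool) (x' : F),
        Conn TN TF {v | Desc TF.p a v.2 ∧ colr g t v = c} (0, x') (n, x) := by
      rintro ⟨c, x', h⟩
      exact hcon ⟨c, x', x, h⟩
    simp only [U, if_neg this]
  have hUU : ∀ v w : ℕ × F, Desc TF.p a v.2 → Desc TF.p a w.2 → Nr TN TF v w →
      (g v < t ↔ g w < t) → U v = U w := by
    have key : ∀ v w : ℕ × F, Desc TF.p a w.2 → Nr TN TF v w →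
      (g v < t ↔ g w < t) →
      (∃ (c : Bool) (x : F), Conn TN TF {v | Desc TF.p a v.2 ∧ colr g t v = c} (0, x) v) →
      (∃ (c : Bool) (x : F), Conn TN TF {v | Desc TF.p a v.2 ∧ colr g t v = c} (0, x) w) := by
      rintro v w hw hn hvw ⟨c, x, h⟩
      refine ⟨c, x, h.step ⟨hw, ?_⟩ hn⟩
      have h1 := h.mem_right.2
      rw [← h1]
      unfold colr
      simp only [decide_eq_decide]
      exact hvw.symm
    intro v w hv hw hn hvw
    have e : (∃ (c : Bool) (x : F), Conn TN TF {v | Desc TF.p a v.2 ∧ colr g t v = c} (0, x) v) ↔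
      (∃ (c : Bool) (x : F), Conn TN TF {v | Desc TF.p a v.2 ∧ colr g t v = c} (0, x) w) :=
      ⟨key v w hw hn hvw, key w v hv hn.symm hvw.symm⟩
    simp only [U]
    by_cases h : ∃ (c : Bool) (x : F),
        Conn TN TF {v | Desc TF.p a v.2 ∧ colr g t v = c} (0, x) v
    · rw [if_pos h, if_pos (e.mp h)]
    · rw [if_neg h, if_neg (fun h' => h (e.mpr h'))]
  -- rows are connected
  have hrow : ∀ (i : ℕ) (hi : ∀ x x', Desc TF.p a x → Desc TF.p a x' → U (i, x) = U (i, x'))
      (w w1 w2 w3 : F), Desc TF.p a w → Desc TF.p w w1 → Dis TF.p w1 w2 → Dis TF.p w1 w3 →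
      UC TN TF U (Rg TF.p w w2 w3) (i, w) (i, w1) := by
    intro i hi w w1 w2 w3 haw hw1 d2 d3
    have key : ∀ (m : ℕ) (z : F), TF.p^[m] z = w → Desc TF.p z w1 →
        UC TN TF U (Rg TF.p w w2 w3) (i, w) (i, z) := by
      intro m
      induction m with
      | zero => intro z hz _; rw [← (show z = w from hz)]; exact ReflTransGen.refl
      | succ m ihm =>
        intro z hz hz1
        rw [Function.iterate_succ_apply] at hz
        have hpz : Desc TF.p (TF.p z) w1 := (Desc.rfl'.of_par : Desc TF.p (TF.p z) z).trans hz1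
        refine (ihm (TF.p z) hz hpz).tail ⟨⟨⟨m, hz⟩, ?_, ?_⟩, ⟨Desc.of_par ⟨m, hz⟩, ?_, ?_⟩,
          ⟨nr.refl _, nr.par' _⟩, ?_⟩
        · exact fun h => d2 w1 Desc.rfl' (h.trans hpz)
        · exact fun h => d3 w1 Desc.rfl' (h.trans hpz)
        · exact fun h => d2 w1 Desc.rfl' (h.trans hz1)
        · exact fun h => d3 w1 Desc.rfl' (h.trans hz1)
        · exact hi _ _ (haw.trans ⟨m, hz⟩) (haw.trans (Desc.of_par ⟨m, hz⟩))
    obtain ⟨m, hm⟩ := hw1
    exact key m w1 hm Desc.rfl'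
  have hrow0 := hrow 0 (fun x x' hx hx' => by rw [hU0 x hx, hU0 x' hx'])
  have hrown := hrow n (fun x x' _ _ => by rw [hUn x, hUn x'])
  have hbuild : ∀ (k : ℕ) (w : F), Desc TF.p a w → St TF.p 3 k w →
      ∃ st : TT ℕ F, Valid TN TF U k st ∧ st.y = w ∧ st.x1 = 0 ∧ st.x0 = n := by
    intro k
    induction k with
    | zero =>
      intro w hw _
      refine ⟨TT.leaf w 0 n, ?_, rfl, rfl, rfl⟩
      simp only [Valid]
      rw [hU0 w hw, hUn w, add_zero]
    | succ k ih =>
      intro w hw hs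
      obtain ⟨ws, g1, g2, g3⟩ := hs
      obtain ⟨s0, v0, y0, p0, q0⟩ := ih (ws 0) (hw.trans (g1 0)) (g3 0)
      obtain ⟨s1, v1, y1, p1, q1⟩ := ih (ws 1) (hw.trans (g1 1)) (g3 1)
      obtain ⟨s2, v2, y2, p2, q2⟩ := ih (ws 2) (hw.trans (g1 2)) (g3 2)
      have d01 := g2 0 1 (by decide)
      have d02 := g2 0 2 (by decide)
      have d12 := g2 1 2 (by decide)
      refine ⟨TT.node w 0 n s0 s1 s2, ?_, rfl, rfl, rfl⟩
      simp only [Valid, y0, y1, y2, p0, p1, p2, q0, q1, q2]
      exact ⟨⟨g1 0, g1 1, g1 2⟩, ⟨d01, d02, d12⟩, ⟨v0, v1, v2⟩,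
        ⟨hrow0 w _ _ _ hw (g1 0) d01 d02, hrown w _ _ _ hw (g1 0) d01 d02⟩,
        ⟨hrow0 w _ _ _ hw (g1 1) d01.symm d12, hrown w _ _ _ hw (g1 1) d01.symm d12⟩,
        ⟨hrow0 w _ _ _ hw (g1 2) d02.symm d12.symm, hrown w _ _ _ hw (g1 2) d02.symm d12.symm⟩⟩
  obtain ⟨st, hv, hy, -, -⟩ := hbuild k a Desc.rfl' hst
  obtain ⟨α, -, h⟩ := generic TN TF g t U a hUU hg k st hv (by rw [hy]; exact Desc.rfl')
  exact hno α _ h

/-- Crossing lemma in the product. -/
theorem one (hf : Function.Injective f) (y : ℕ → B) (hy : ∀ i, nr TB.p (y i) (y (i + 1)))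
    (t k n : ℕ) (a : F) (hst : St TF.p 3 k a)
    (hno : ∀ (α : ℕ) (R : Set F), ¬ HasTri TN TF (fun v : ℕ × F => f (v.2, y v.1)) t α k R) :
    ∃ (c : Bool) (x x' : F), Conn TF TB
      {v | Desc TF.p a v.1 ∧ (∃ i, v.2 = y i) ∧ colr f t v = c} (x, y 0) (x', y n) := by
  obtain ⟨c, x, x', h1, h2⟩ := one_idx TF (fun v : ℕ × F => f (v.2, y v.1))
    (by
      intro v w h
      have := hf h
      simp only [Prod.mk.injEq] at this
      exact this.1) t k n a hst hno
  refine ⟨c, x, x', ⟨h1.1, ⟨0, rfl⟩, h1.2⟩, ?_⟩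
  have : ∀ v : ℕ × F, ReflTransGen (fun v w : ℕ × F =>
      v ∈ {v | Desc TF.p a v.2 ∧ colr (fun v : ℕ × F => f (v.2, y v.1)) t v = c} ∧
      w ∈ {v | Desc TF.p a v.2 ∧ colr (fun v : ℕ × F => f (v.2, y v.1)) t v = c} ∧
      Nr TN TF v w) (0, x) v →
      ReflTransGen (fun a_1 b => a_1 ∈ {v : F × B | Desc TF.p a v.1 ∧ (∃ i, v.2 = y i) ∧
        colr f t v = c} ∧ b ∈ {v : F × B | Desc TF.p a v.1 ∧ (∃ i, v.2 = y i) ∧
        colr f t v = c} ∧ Nr TF TB a_1 b) (x, y 0) (v.2, y v.1) := by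
    intro v hv
    induction hv with
    | refl => exact ReflTransGen.refl
    | @tail v w _ hvw ih =>
      obtain ⟨hv, hw, hn⟩ := hvw
      refine ih.tail ⟨⟨hv.1, ⟨_, rfl⟩, hv.2⟩, ⟨hw.1, ⟨_, rfl⟩, hw.2⟩, hn.2, ?_⟩
      have : ∀ i j : ℕ, nr TN.p i j → nr TB.p (y i) (y j) := by
        intro i j hij
        have h2 : ∀ i : ℕ, nr TB.p (y i) (y (i - 1)) := by
          intro i
          cases i with
          | zero => exact nr.refl _
          | succ i => exact (hy i).symm
        rcases hij with h | h | h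
        · rw [h]; exact nr.refl _
        · have : j = i - 1 := h.symm
          rw [this]; exact h2 i
        · have : i = j - 1 := h.symm
          rw [this]; exact (h2 j).symm
      exact this _ _ hn.1
  exact this _ h2

end one

end Pool.Agent.Helper61.Stack
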