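import Pool.Agent.Helper61.StackC

set_option autoImplicit false
set_option linter.unusedTactic false
set_option linter.unreachableTactic false

namespace Pool.Agent.Helper61.Stack

open Relation

/-- the strong product of two rooted trees as a simple graph -/
def SP {F B : Type} (TF : RTree F) (TB : RTree B) : SimpleGraph (F × B) where
  Adj a b := a ≠ b ∧ Nr TF TB a b
  symm := ⟨fun _ _ h => ⟨h.1.symm, h.2.symm⟩⟩
  loopless := ⟨fun _ h => h.1 rfl⟩

/-- the layout condition of the problem -/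
def Lay {V : Type} (G : SimpleGraph V) (s : ℕ) (f : V → ℕ) (col : V → V → Fin s) : Prop :=
  ∀ a b x y : V, G.Adj a b → G.Adj x y →
    f a < f x → f x < f b → f b < f y → col a b ≠ col x y

/-- Three interval lemma: `s ^ 3 + 1` disjoint rainbow triangles are impossible. -/
lemma three_int {V : Type} (G : SimpleGraph V) (s : ℕ) (f : V → ℕ) (hf : Function.Injective f)
    (col : V → V → Fin s) (hl : Lay G s f col) (α t : ℕ) (a b c : ℕ → V)
    (hadj : ∀ i < s ^ 3 + 1, G.Adj (a i) (b i) ∧ G.Adj (b i) (c i) ∧ G.Adj (a i) (c i))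
    (hpos : ∀ i < s ^ 3 + 1, f (a i) < α ∧ α ≤ f (b i) ∧ f (b i) < t ∧ t ≤ f (c i))
    (hne : ∀ i < s ^ 3 + 1, ∀ j < s ^ 3 + 1, i ≠ j → a i ≠ a j ∧ b i ≠ b j ∧ c i ≠ c j) :
    False := by
  have key : ∀ i < s ^ 3 + 1, ∀ j < s ^ 3 + 1, i ≠ j → f (a i) < f (a j) →
      col (a i) (b i) = col (a j) (b j) → col (b i) (c i) = col (b j) (c j) →
      col (a i) (c i) = col (a j) (c j) → False := by
    intro i hi j hj hij hlt h1 h2 h3
    obtain ⟨ai1, ai2, ai3⟩ := hadj i hi
    obtain ⟨aj1, aj2, aj3⟩ := hadj j hj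
    obtain ⟨pi1, pi2, pi3, pi4⟩ := hpos i hi
    obtain ⟨pj1, pj2, pj3, pj4⟩ := hpos j hj
    obtain ⟨na, nb, nc⟩ := hne i hi j hj hij
    have nb' : f (b i) ≠ f (b j) := fun h => nb (hf h)
    have nc' : f (c i) ≠ f (c j) := fun h => nc (hf h)
    rcases Nat.lt_or_gt_of_ne nb' with hb | hb
    · exact hl _ _ _ _ ai1 aj1 hlt (by omega) hb h1
    · rcases Nat.lt_or_gt_of_ne nc' with hc | hc
      · exact hl _ _ _ _ ai3 aj3 hlt (by omega) hc h3
      · exact hl _ _ _ _ aj2 ai2 hb (by omega) hc h2.symm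
  let φ : Fin (s ^ 3 + 1) → Fin s × Fin s × Fin s := fun i =>
    (col (a i) (b i), col (b i) (c i), col (a i) (c i))
  obtain ⟨i, j, hij, hφ⟩ := Fintype.exists_ne_map_eq_of_card_lt φ (by
    simp only [Fintype.card_prod, Fintype.card_fin]
    have : s * (s * s) = s ^ 3 := by ring
    omega)
  simp only [φ, Prod.mk.injEq] at hφ
  have hij' : (i : ℕ) ≠ (j : ℕ) := fun h => hij (Fin.ext h)
  have na := (hne i i.2 j j.2 hij').1
  have na' : f (a i) ≠ f (a j) := fun h => na (hf h)
  rcases Nat.lt_or_gt_of_ne na' with h | h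
  · exact key i i.2 j j.2 hij' h hφ.1 hφ.2.1 hφ.2.2
  · exact key j j.2 i i.2 hij'.symm h hφ.1.symm hφ.2.1.symm hφ.2.2.symm

section lower

variable {F B : Type} (TF : RTree F) (TB : RTree B)

lemma no_tri1 (s : ℕ) (f : F × B → ℕ) (hf : Function.Injective f)
    (col : F × B → F × B → Fin s) (hl : Lay (SP TF TB) s f col) (t α : ℕ) (R : Set B) :
    ¬ HasTri TF TB f t α (s ^ 3 + 1) R := by
  rintro ⟨tri, h1, h2⟩
  refine three_int (SP TF TB) s f hf col hl α t (fun i => (tri i).1) (fun i => (tri i).2.1)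
    (fun i => (tri i).2.2) ?_ ?_ ?_
  · intro i hi
    obtain ⟨⟨⟨p1, p2, p3, p4⟩, n1, n2, n3⟩, -⟩ := h1 i hi
    refine ⟨⟨fun h => ?_, n1⟩, ⟨fun h => ?_, n2⟩, ⟨fun h => ?_, n3⟩⟩
    · rw [h] at p1; omega
    · rw [h] at p3; omega
    · rw [h] at p1; omega
  · intro i hi
    exact (h1 i hi).1.1
  · intro i hi j hj hij
    obtain ⟨d1, d2, d3⟩ := h2 i hi j hj hij
    exact ⟨fun h => d1 (by rw [h]), fun h => d2 (by rw [h]),
      fun h => d3 (by rw [h])⟩

lemma nr_index (y : ℕ → B) (hy : ∀ i, nr TB.p (y i) (y (i + 1))) :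
    ∀ i j : ℕ, nr TN.p i j → nr TB.p (y i) (y j) := by
  intro i j hij
  have h2 : ∀ i : ℕ, nr TB.p (y i) (y (i - 1)) := by
    intro i
    cases i with
    | zero => exact nr.refl _
    | succ i => exact (hy i).symm
  rcases hij with h | h | h
  · rw [h]; exact nr.refl _
  · have : j = i - 1 := h.symm
    rw [this]; exact h2 i
  · have : i = j - 1 := h.symm
    rw [this]; exact (h2 j).symm

lemma no_tri2 (s : ℕ) (f : F × B → ℕ) (hf : Function.Injective f)
    (col : F × B → F × B → Fin s) (hl : Lay (SP TF TB) s f col) (y : ℕ → B)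
    (hy : ∀ i, nr TB.p (y i) (y (i + 1))) (t α : ℕ) (R : Set F) :
    ¬ HasTri TN TF (fun v : ℕ × F => f (v.2, y v.1)) t α (s ^ 3 + 1) R := by
  rintro ⟨tri, h1, h2⟩
  have hN : ∀ v w : ℕ × F, Nr TN TF v w → Nr TF TB (v.2, y v.1) (w.2, y w.1) :=
    fun v w h => ⟨h.2, nr_index TB y hy _ _ h.1⟩
  refine three_int (SP TF TB) s f hf col hl α t (fun i => ((tri i).1.2, y (tri i).1.1))
    (fun i => ((tri i).2.1.2, y (tri i).2.1.1))
    (fun i => ((tri i).2.2.2, y (tri i).2.2.1)) ?_ ?_ ?_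
  · intro i hi
    obtain ⟨⟨⟨p1, p2, p3, p4⟩, n1, n2, n3⟩, -⟩ := h1 i hi
    simp only at p1 p2 p3 p4
    refine ⟨⟨fun h => ?_, hN _ _ n1⟩, ⟨fun h => ?_, hN _ _ n2⟩, ⟨fun h => ?_, hN _ _ n3⟩⟩
    · rw [h] at p1; omega
    · rw [h] at p3; omega
    · rw [h] at p1; omega
  · intro i hi
    exact (h1 i hi).1.1
  · intro i hi j hj hij
    obtain ⟨d1, d2, d3⟩ := h2 i hi j hj hij
    exact ⟨fun h => d1 (Prod.mk.inj h).1, fun h => d2 (Prod.mk.inj h).1,
      fun h => d3 (Prod.mk.inj h).1⟩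

/-- The two-time crossing lemma. -/
lemma two_time (s : ℕ) (f : F × B → ℕ) (hf : Function.Injective f)
    (col : F × B → F × B → Fin s) (hl : Lay (SP TF TB) s f col) (a1 a2 : F)
    (h12 : Dis TF.p a1 a2) (s1 : St TF.p 3 (s ^ 3 + 1) a1) (s2 : St TF.p 3 (s ^ 3 + 1) a2)
    (u u' : B) (huu : Dis TB.p u u') (t : ℕ) (η η' : B) (hη : Desc TB.p u η)
    (hη' : Desc TB.p u' η') :
    ∃ c, Cross TF TB f t c u η ∧ Cross TF TB f (t + 1) c u' η' := by
  -- choose the part of the first factor that avoids the moving vertex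
  have hch : ∃ a : F, St TF.p 3 (s ^ 3 + 1) a ∧ ∀ v, f v = t → ¬ Desc TF.p a v.1 := by
    by_cases h : ∀ v, f v = t → ¬ Desc TF.p a1 v.1
    · exact ⟨a1, s1, h⟩
    · push Not at h
      obtain ⟨v, hv, hd⟩ := h
      refine ⟨a2, s2, fun w hw hdw => ?_⟩
      have : w = v := hf (hw.trans hv.symm)
      rw [this] at hdw
      exact h12 _ hd hdw
  obtain ⟨a, sa, ha⟩ := hch
  obtain ⟨m, hm⟩ := Desc.root TB η
  obtain ⟨m', hm'⟩ := Desc.root TB η'
  let y : ℕ → B := fun i => if i ≤ m then TB.p^[i] η else TB.p^[m + m' - i] η'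
  have hy : ∀ i, nr TB.p (y i) (y (i + 1)) := by
    intro i
    by_cases h1 : i + 1 ≤ m
    · have h2 : i ≤ m := by omega
      simp only [y, if_pos h1, if_pos h2]
      rw [Function.iterate_succ_apply']
      exact nr.par _
    · by_cases h2 : i ≤ m
      · have h3 : i = m := by omega
        simp only [y, if_neg h1, if_pos h2]
        rw [h3, hm]
        by_cases h4 : m' = 0
        · have : m + m' - (m + 1) = 0 := by omega
          rw [this]
          have : η' = TB.r := by rw [h4] at hm'; exact hm'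
          rw [this]
          exact nr.refl _
        · have h5 : m + m' - (m + 1) = m' - 1 := by omega
          rw [h5]
          right; right
          rw [← Function.iterate_succ_apply' TB.p]
          have : (m' - 1).succ = m' := by omega
          rw [this, hm']
      · simp only [y, if_neg h1, if_neg h2]
        by_cases h3 : m + m' - i = 0
        · have : m + m' - (i + 1) = 0 := by omega
          rw [h3, this]
          exact nr.refl _
        · right; right
          rw [← Function.iterate_succ_apply' TB.p]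
          have : (m + m' - (i + 1)).succ = m + m' - i := by omega
          rw [this]
  have hy0 : y 0 = η := by simp [y]
  have hyn : y (m + m') = η' := by
    by_cases h : m + m' ≤ m
    · have h4 : m' = 0 := by omega
      simp only [y, if_pos h]
      rw [h4] at hm' ⊢
      rw [add_zero, hm]
      exact hm'.symm
    · simp only [y, if_neg h]
      simp
  have hyd : ∀ i, Desc TB.p (y i) η ∨ Desc TB.p (y i) η' := by
    intro i
    by_cases h : i ≤ m
    · left; exact ⟨i, by simp only [y, if_pos h]⟩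
    · right; exact ⟨m + m' - i, by simp only [y, if_neg h]⟩
  obtain ⟨c, x, x', h⟩ := one TF TB f hf y hy t (s ^ 3 + 1) (m + m') a sa
    (fun α R => no_tri2 TF TB s f hf col hl y hy t α R)
  rw [hy0, hyn] at h
  have hcol : ∀ v : F × B, Desc TF.p a v.1 → colr f t v = colr f (t + 1) v := by
    intro v hv
    have hne : f v ≠ t := fun h => ha v h hv
    unfold colr
    simp only [decide_eq_decide]
    omega
  refine ⟨c, ?_, ?_⟩
  · obtain ⟨x'', h1, -⟩ := h.exit (w := u) hη (Or.inr (fun h => huu _ h hη'))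
    refine ⟨x, x'', h1.mono ?_⟩
    rintro v ⟨⟨-, ⟨i, hi⟩, hc⟩, hd⟩
    refine ⟨hd, ?_, hc⟩
    rw [hi]
    rcases hyd i with h | h
    · exact h
    · have hd' : Desc TB.p u (y i) := by rw [← hi]; exact hd
      exact absurd hη' (fun h' => huu _ (hd'.trans h) h')
  · obtain ⟨x'', h1, -⟩ := h.symm.exit (w := u') hη' (Or.inr (fun h => huu _ hη h))
    refine ⟨x', x'', h1.mono ?_⟩
    rintro v ⟨⟨hav, ⟨i, hi⟩, hc⟩, hd⟩
    refine ⟨hd, ?_, by rw [← hcol v hav]; exact hc⟩
    rw [hi]
    rcases hyd i with h | h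
    · have hd' : Desc TB.p u' (y i) := by rw [← hi]; exact hd
      exact absurd (hd'.trans h) (fun h' => huu _ hη h')
    · exact h

/-- **Lower bound.** -/
theorem lower [Fintype F] [Finite B] (s N : ℕ) (hN : Fintype.card (F × F) * 2 < N) (a1 a2 : F)
    (h12 : Dis TF.p a1 a2) (s1 : St TF.p 3 (s ^ 3 + 1) a1) (s2 : St TF.p 3 (s ^ 3 + 1) a2)
    (u u' : B) (huu : Dis TB.p u u') (su : St TB.p N (s ^ 3 + 1) u)
    (su' : St TB.p N (s ^ 3 + 1) u') (f : F × B → ℕ) (hf : Function.Injective f)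
    (col : F × B → F × B → Fin s) (hl : Lay (SP TF TB) s f col) : False := by
  have hII : ∀ (t : ℕ) (w : B), St TB.p N (s ^ 3 + 1) w →
      ∃ η, Desc TB.p w η ∧ ∃ c, ¬ Cross TF TB f t c w η := fun t w hw =>
    two TF TB f hf t N (s ^ 3 + 1) hN w hw (fun α R => no_tri1 TF TB s f hf col hl t α R)
  have hI := two_time TF TB s f hf col hl a1 a2 h12 s1 s2 u u' huu
  have hI' := two_time TF TB s f hf col hl a1 a2 h12 s1 s2 u' u huu.symm
  have hall : ∀ t : ℕ, (∃ η, Desc TB.p u η ∧ ¬ Cross TF TB f t true u η) ∧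
      (∃ η, Desc TB.p u' η ∧ ¬ Cross TF TB f t true u' η) := by
    intro t
    induction t with
    | zero =>
      have h0 : ∀ w η, ¬ Cross TF TB f 0 true w η := by
        rintro w η ⟨x, x', h⟩
        have := h.1.2.2
        simp [colr] at this
      exact ⟨⟨u, Desc.rfl', h0 _ _⟩, ⟨u', Desc.rfl', h0 _ _⟩⟩
    | succ t ih =>
      obtain ⟨⟨η, hη, hc⟩, ⟨η', hη', hc'⟩⟩ := ih
      constructor
      · obtain ⟨ζ, hζ, c, hcc⟩ := hII (t + 1) u su
        refine ⟨ζ, hζ, ?_⟩
        cases c with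
        | true => exact hcc
        | false =>
          exfalso
          obtain ⟨c, g1, g2⟩ := hI' t η' ζ hη' hζ
          cases c with
          | true => exact hc' g1
          | false => exact hcc g2
      · obtain ⟨ζ, hζ, c, hcc⟩ := hII (t + 1) u' su'
        refine ⟨ζ, hζ, ?_⟩
        cases c with
        | true => exact hcc
        | false =>
          exfalso
          obtain ⟨c, g1, g2⟩ := hI t η ζ hη hζ
          cases c with
          | true => exact hc g1
          | false => exact hcc g2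
  -- a time at which every vertex has been passed
  obtain ⟨M, hM⟩ : ∃ M : ℕ, ∀ v : F × B, f v < M := by
    obtain ⟨M, hM⟩ := (Set.finite_range f).bddAbove
    exact ⟨M + 1, fun v => Nat.lt_succ_of_le (hM ⟨v, rfl⟩)⟩
  obtain ⟨⟨η, hη, hc⟩, -⟩ := hall M
  obtain ⟨-, ⟨η', hη', hc'⟩⟩ := hall (M + 1)
  obtain ⟨c, g1, g2⟩ := hI M η η' hη hη'
  cases c with
  | true => exact hc g1
  | false =>
    obtain ⟨x, x', h⟩ := g1
    have h1 := h.1.2.2
    have h2 := hM (x, η)
    simp only [colr, decide_eq_false_iff_not] at h1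
    exact h1 h2

end lower

end Pool.Agent.Helper61.Stack
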