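import Pool.Agent.Helper61.StackD

set_option autoImplicit false
set_option linter.unusedTactic false
set_option linter.unreachableTactic false

namespace Pool.Agent.Helper61.Stack

open Relation

section comb

/-- The comb over `T`: a path with `N` copies of `T` attached at regular distance. -/
noncomputable def combT (N : ℕ) {V : Type} [Fintype V] (T : RTree V) :
    RTree (Fin (N * Fintype.card V + 1) ⊕ (Fin N × V)) := by
  classical
  exact
  { p := fun z => match z with
      | Sum.inl i => Sum.inl ⟨i.1 - 1, by omega⟩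
      | Sum.inr (c, v) => if v = T.r then
          Sum.inl ⟨(c.1 + 1) * Fintype.card V,
            Nat.lt_succ_of_le (Nat.mul_le_mul_right _ c.2)⟩ else Sum.inr (c, T.p v)
    r := Sum.inl ⟨0, by omega⟩
    d := fun z => match z with
      | Sum.inl i => i.1
      | Sum.inr (c, v) => (c.1 + 1) * Fintype.card V + 1 + T.d v
    pr := rfl
    dr := rfl
    dp := by
      rintro (i | ⟨c, v⟩) h
      · have : i.1 ≠ 0 := fun h0 => h (by congr 1; exact Fin.ext h0)
        show i.1 = i.1 - 1 + 1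
        omega
      · by_cases hv : v = T.r
        · subst hv
          simp only [if_true, T.dr]
        · simp only [if_neg hv]
          have := T.dp v hv
          omega }

variable {N : ℕ} {V : Type} [Fintype V] (T : RTree V)

lemma comb_inl (i : Fin (N * Fintype.card V + 1)) :
    (combT N T).p (Sum.inl i) = Sum.inl ⟨i.1 - 1, by omega⟩ := rfl

lemma comb_root (c : Fin N) : (combT N T).p (Sum.inr (c, T.r)) =
    Sum.inl ⟨(c.1 + 1) * Fintype.card V, Nat.lt_succ_of_le (Nat.mul_le_mul_right _ c.2)⟩ := by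
  simp [combT]

lemma comb_inr (c : Fin N) (v : V) (hv : v ≠ T.r) :
    (combT N T).p (Sum.inr (c, v)) = Sum.inr (c, T.p v) := by
  simp [combT, hv]

lemma comb_d_inl (i : Fin (N * Fintype.card V + 1)) : (combT N T).d (Sum.inl i) = i.1 := rfl

lemma comb_d_inr (c : Fin N) (v : V) :
    (combT N T).d (Sum.inr (c, v)) = (c.1 + 1) * Fintype.card V + 1 + T.d v := rfl

lemma comb_iter (c : Fin N) (v : V) : ∀ (j : ℕ) (z : Fin (N * Fintype.card V + 1) ⊕ (Fin N × V)),
    (combT N T).p^[j] z = Sum.inr (c, v) → ∃ w, z = Sum.inr (c, w) ∧ T.p^[j] w = v := by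
  intro j
  induction j with
  | zero => intro z hz; exact ⟨v, hz, rfl⟩
  | succ j ih =>
    intro z hz
    rw [Function.iterate_succ_apply] at hz
    obtain ⟨w, hw, hw'⟩ := ih _ hz
    rcases z with i | ⟨c', w'⟩
    · rw [comb_inl] at hw
      exact absurd hw (by simp)
    · by_cases hr : w' = T.r
      · subst hr
        rw [comb_root] at hw
        exact absurd hw (by simp)
      · rw [comb_inr T c' w' hr] at hw
        simp only [Sum.inr.injEq, Prod.mk.injEq] at hw
        refine ⟨w', by rw [hw.1], ?_⟩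
        rw [Function.iterate_succ_apply, hw.2, hw']

lemma comb_desc (c : Fin N) : ∀ (j : ℕ) (v w : V), T.p^[j] w = v →
    Desc (combT N T).p (Sum.inr (c, v)) (Sum.inr (c, w)) := by
  intro j
  induction j with
  | zero => intro v w h; rw [← (show w = v from h)]; exact Desc.rfl'
  | succ j ih =>
    intro v w h
    rw [Function.iterate_succ_apply] at h
    have h1 := ih v (T.p w) h
    by_cases hr : w = T.r
    · have : T.p w = w := by rw [hr, T.pr]
      rw [this] at h1
      exact h1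
    · rw [← comb_inr T c w hr] at h1
      exact h1.of_par

lemma comb_dis {c : Fin N} {w w' : V} (h : Dis T.p w w') :
    Dis (combT N T).p (Sum.inr (c, w)) (Sum.inr (c, w')) := by
  rintro z ⟨i, hi⟩ ⟨j, hj⟩
  obtain ⟨x, hx, hx'⟩ := comb_iter T c w i z hi
  obtain ⟨y, hy, hy'⟩ := comb_iter T c w' j z hj
  rw [hx] at hy
  simp only [Sum.inr.injEq, Prod.mk.injEq, true_and] at hy
  subst hy
  exact h x ⟨i, hx'⟩ ⟨j, hy'⟩

lemma comb_dis' {c c' : Fin N} (hc : c ≠ c') (w w' : V) :
    Dis (combT N T).p (Sum.inr (c, w)) (Sum.inr (c', w')) := by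
  rintro z ⟨i, hi⟩ ⟨j, hj⟩
  obtain ⟨x, hx, hx'⟩ := comb_iter T c w i z hi
  obtain ⟨y, hy, hy'⟩ := comb_iter T c' w' j z hj
  rw [hx] at hy
  simp only [Sum.inr.injEq, Prod.mk.injEq] at hy
  exact hc hy.1

lemma comb_St (M : ℕ) (c : Fin N) : ∀ (k : ℕ) (v : V), St T.p M k v →
    St (combT N T).p M k (Sum.inr (c, v)) := by
  intro k
  induction k with
  | zero => intro v _; trivial
  | succ k ih =>
    rintro v ⟨w, h1, h2, h3⟩
    refine ⟨fun i => Sum.inr (c, w i), ?_, ?_, fun i => ih _ (h3 i)⟩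
    · intro i
      obtain ⟨j, hj⟩ := h1 i
      exact comb_desc T c j _ _ hj
    · intro i j hij
      exact comb_dis T (h2 i j hij)

lemma comb_St_root (k : ℕ) (h : St T.p N k T.r) : St (combT N T).p N (k + 1) (combT N T).r := by
  refine ⟨fun i => Sum.inr (i, T.r), fun i => Desc.root _ _, fun i j hij => comb_dis' T hij _ _,
    fun i => comb_St T N i k T.r h⟩

end comb

section growth

/-- descendants within distance `R` -/
def dsc {V : Type} (T : RTree V) (u : V) (R : ℕ) : Set V := {v | ∃ i ≤ R, T.p^[i] v = u}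

variable {V : Type} (T : RTree V)

lemma d_par_le (v : V) : T.d (T.p v) ≤ T.d v ∧ T.d v ≤ T.d (T.p v) + 1 := by
  by_cases h : v = T.r
  · rw [h, T.pr]; omega
  · have := T.dp v h; omega

lemma d_iter (i : ℕ) (v : V) : T.d (T.p^[i] v) ≤ T.d v ∧ T.d v ≤ T.d (T.p^[i] v) + i := by
  induction i generalizing v with
  | zero => simp
  | succ i ih =>
    rw [Function.iterate_succ_apply]
    have h1 := ih (T.p v)
    have h2 := d_par_le T v
    omega

lemma iter_d (v : V) : T.p^[T.d v] v = T.r := by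
  have key : ∀ (n : ℕ) (v : V), T.d v = n → T.p^[n] v = T.r := by
    intro n
    induction n with
    | zero =>
      intro v hv
      by_contra hne
      have := T.dp v hne
      omega
    | succ n ih =>
      intro v hv
      rw [Function.iterate_succ_apply]
      by_cases hr : v = T.r
      · rw [hr, T.dr] at hv; omega
      · have := T.dp v hr
        exact ih _ (by omega)
  exact key _ v rfl

lemma mem_dsc_root (v : V) (R : ℕ) : v ∈ dsc T T.r R ↔ T.d v ≤ R := by
  constructor
  · rintro ⟨i, hi, h⟩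
    have := d_iter T i v
    rw [h, T.dr] at this
    omega
  · intro h
    exact ⟨T.d v, h, iter_d T v⟩

lemma ncard_fin_le {M : ℕ} (S : Set (Fin M)) (g : ℕ → ℕ) (a b : ℕ)
    (h : ∀ i ∈ S, a ≤ g i.1 ∧ g i.1 ≤ b) (hg : ∀ i j : ℕ, g i = g j → i = j) :
    S.ncard ≤ b + 1 - a := by
  have h1 : S.ncard ≤ ((Finset.Icc a b : Finset ℕ) : Set ℕ).ncard := by
    apply Set.ncard_le_ncard_of_injOn (fun i : Fin M => g i.1)
    · intro i hi
      simp only [Finset.coe_Icc, Set.mem_Icc]
      exact h i hi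
    · intro i _ j _ hij
      exact Fin.ext (hg _ _ hij)
  rwa [Set.ncard_coe_finset, Nat.card_Icc] at h1

variable {N : ℕ} [Fintype V]

lemma ncard_split {A B : Type} [Finite A] [Finite B] (S : Set (A ⊕ B)) (SA : Set A) (SB : Set B)
    (h : ∀ z ∈ S, (∃ a ∈ SA, z = Sum.inl a) ∨ (∃ b ∈ SB, z = Sum.inr b)) :
    S.ncard ≤ SA.ncard + SB.ncard := by
  have h1 : S ⊆ Sum.inl '' SA ∪ Sum.inr '' SB := by
    intro z hz
    rcases h z hz with ⟨a, ha, rfl⟩ | ⟨b, hb, rfl⟩
    · exact Or.inl ⟨a, ha, rfl⟩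
    · exact Or.inr ⟨b, hb, rfl⟩
  calc S.ncard ≤ (Sum.inl '' SA ∪ Sum.inr '' SB : Set (A ⊕ B)).ncard :=
        Set.ncard_le_ncard h1 (Set.toFinite _)
    _ ≤ (Sum.inl '' SA : Set (A ⊕ B)).ncard + (Sum.inr '' SB : Set (A ⊕ B)).ncard :=
        Set.ncard_union_le _ _
    _ = SA.ncard + SB.ncard := by
        rw [Set.ncard_image_of_injective _ Sum.inl_injective,
          Set.ncard_image_of_injective _ Sum.inr_injective]

/-- first growth property -/
def G1 {V : Type} (T : RTree V) : Prop := ∀ R, (dsc T T.r R).ncard ≤ 2 * R + 1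

/-- second growth property -/
def G2 {V : Type} (T : RTree V) : Prop := ∀ u R, (dsc T u R).ncard ≤ 4 * R + 2

omit T in
lemma card_pos' (T : RTree V) : 0 < Fintype.card V := Fintype.card_pos_iff.mpr ⟨T.r⟩

lemma comb_G1 : G1 (combT N T) := by
  intro R
  have hnpos : 0 < Fintype.card V := card_pos' T
  have h1 := ncard_split (dsc (combT N T) (combT N T).r R) {i | i.1 ≤ R}
    ({c | (c.1 + 1) * Fintype.card V < R} ×ˢ Set.univ) (by
      intro z hz
      rw [mem_dsc_root] at hz
      rcases z with i | ⟨c, v⟩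
      · left; exact ⟨i, hz, rfl⟩
      · right
        refine ⟨(c, v), ⟨?_, trivial⟩, rfl⟩
        rw [comb_d_inr] at hz
        show (c.1 + 1) * Fintype.card V < R
        omega)
  have h2 := ncard_fin_le {i : Fin (N * Fintype.card V + 1) | i.1 ≤ R} id 0 R
    (fun i hi => ⟨Nat.zero_le _, hi⟩) (fun i j h => h)
  have h3 := ncard_fin_le {c : Fin N | (c.1 + 1) * Fintype.card V < R} (fun i => i + 1) 1
    (R / Fintype.card V)
    (fun i hi => ⟨by omega, by
      rw [Nat.le_div_iff_mul_le hnpos]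
      exact le_of_lt hi⟩) (fun i j h => by simpa using h)
  rw [Set.ncard_prod, Set.ncard_univ, Nat.card_eq_fintype_card] at h1
  have h4 : {c : Fin N | (c.1 + 1) * Fintype.card V < R}.ncard * Fintype.card V ≤ R := by
    calc {c : Fin N | (c.1 + 1) * Fintype.card V < R}.ncard * Fintype.card V
        ≤ (R / Fintype.card V) * Fintype.card V := by
          apply Nat.mul_le_mul_right
          generalize R / Fintype.card V = q at h3 ⊢
          omega
      _ ≤ R := Nat.div_mul_le_self R _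
  omega

lemma comb_inl_desc (i : Fin (N * Fintype.card V + 1)) (c : Fin N) : ∀ (j : ℕ) (v : V),
    (combT N T).p^[j] (Sum.inr (c, v)) = Sum.inl i → i.1 ≤ (c.1 + 1) * Fintype.card V := by
  intro j
  induction j with
  | zero => intro v h; exact absurd h (by simp)
  | succ j ih =>
    intro v h
    rw [Function.iterate_succ_apply] at h
    by_cases hv : v = T.r
    · subst hv
      rw [comb_root] at h
      have := (d_iter (combT N T) j (Sum.inl ⟨(c.1 + 1) * Fintype.card V,
        Nat.lt_succ_of_le (Nat.mul_le_mul_right _ c.2)⟩)).1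
      rw [h] at this
      exact this
    · rw [comb_inr T c v hv] at h
      exact ih _ h

lemma comb_G2 (h1 : G1 T) (h2 : G2 T) : G2 (combT N T) := by
  intro u R
  have hnpos : 0 < Fintype.card V := card_pos' T
  rcases u with i | ⟨c, v0⟩
  · have g1 := ncard_split (dsc (combT N T) (Sum.inl i) R) {i' | i.1 ≤ i'.1 ∧ i'.1 ≤ i.1 + R}
      ({c | i.1 ≤ (c.1 + 1) * Fintype.card V ∧ (c.1 + 1) * Fintype.card V < i.1 + R} ×ˢ
        dsc T T.r R) (by
        rintro z ⟨j, hj, hz⟩
        rcases z with i' | ⟨c, v⟩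
        · left
          refine ⟨i', ?_, rfl⟩
          have := d_iter (combT N T) j (Sum.inl i')
          rw [hz, comb_d_inl, comb_d_inl] at this
          exact ⟨this.1, by omega⟩
        · right
          have k1 := comb_inl_desc T i c j v hz
          have k2 := d_iter (combT N T) j (Sum.inr (c, v))
          rw [hz, comb_d_inl, comb_d_inr] at k2
          refine ⟨(c, v), ⟨⟨k1, ?_⟩, ?_⟩, rfl⟩
          · show (c.1 + 1) * Fintype.card V < i.1 + R
            omega
          · show v ∈ dsc T T.r R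
            rw [mem_dsc_root]
            omega)
    have g2 := ncard_fin_le {i' : Fin (N * Fintype.card V + 1) | i.1 ≤ i'.1 ∧ i'.1 ≤ i.1 + R}
      id i.1 (i.1 + R) (fun i' hi' => hi') (fun i j h => h)
    rw [Set.ncard_prod] at g1
    by_cases hnR : Fintype.card V ≤ R
    · have g3 := ncard_fin_le {c : Fin N | i.1 ≤ (c.1 + 1) * Fintype.card V ∧
          (c.1 + 1) * Fintype.card V < i.1 + R}
        (fun i => i + 1) (i.1 / Fintype.card V) ((i.1 + R) / Fintype.card V)
        (fun c hc => ⟨by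
          have := hc.1
          calc i.1 / Fintype.card V ≤ ((c.1 + 1) * Fintype.card V) / Fintype.card V :=
                Nat.div_le_div_right this
            _ = c.1 + 1 := Nat.mul_div_cancel _ hnpos, by
          rw [Nat.le_div_iff_mul_le hnpos]
          exact le_of_lt hc.2⟩) (fun i j h => by simpa using h)
      have g4 : (i.1 + R) / Fintype.card V ≤ i.1 / Fintype.card V + R / Fintype.card V + 1 := by
        rw [Nat.div_le_iff_le_mul_add_pred hnpos]
        have e1 := Nat.div_add_mod i.1 (Fintype.card V)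
        have e2 := Nat.div_add_mod R (Fintype.card V)
        have e3 := Nat.mod_lt i.1 hnpos
        have e4 := Nat.mod_lt R hnpos
        have e5 : Fintype.card V * (i.1 / Fintype.card V + R / Fintype.card V + 1) =
          Fintype.card V * (i.1 / Fintype.card V) + Fintype.card V * (R / Fintype.card V) +
            Fintype.card V := by ring
        rw [e5]
        omega
      have g5 : {c : Fin N | i.1 ≤ (c.1 + 1) * Fintype.card V ∧
          (c.1 + 1) * Fintype.card V < i.1 + R}.ncard ≤ R / Fintype.card V + 2 := by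
        revert g3 g4
        generalize (i.1 + R) / Fintype.card V = q1
        generalize i.1 / Fintype.card V = q2
        generalize R / Fintype.card V = q3
        intro g3 g4
        omega
      have g6 : (dsc T T.r R).ncard ≤ Fintype.card V := by
        rw [← Nat.card_eq_fintype_card]
        exact Set.ncard_le_card _
      have g7 : {c : Fin N | i.1 ≤ (c.1 + 1) * Fintype.card V ∧
          (c.1 + 1) * Fintype.card V < i.1 + R}.ncard *
          (dsc T T.r R).ncard ≤ (R / Fintype.card V + 2) * Fintype.card V := Nat.mul_le_mul g5 g6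
      have g8 := Nat.div_mul_le_self R (Fintype.card V)
      have g9 : (R / Fintype.card V + 2) * Fintype.card V =
        R / Fintype.card V * Fintype.card V + 2 * Fintype.card V := by ring
      rw [g9] at g7
      generalize R / Fintype.card V * Fintype.card V = q at g7 g8
      omega
    · have g3 : {c : Fin N | i.1 ≤ (c.1 + 1) * Fintype.card V ∧
          (c.1 + 1) * Fintype.card V < i.1 + R}.ncard ≤ 1 := by
        rw [Set.ncard_le_one_iff]
        intro c c' hc hc'
        obtain ⟨a1, a2⟩ := hc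
        obtain ⟨b1, b2⟩ := hc'
        by_contra hne
        have hne' : c.1 ≠ c'.1 := fun h => hne (Fin.ext h)
        rcases Nat.lt_or_gt_of_ne hne' with hlt | hlt
        · have : (c.1 + 1) * Fintype.card V + Fintype.card V ≤ (c'.1 + 1) * Fintype.card V := by
            have : (c.1 + 1 + 1) * Fintype.card V ≤ (c'.1 + 1) * Fintype.card V :=
              Nat.mul_le_mul_right _ (by omega)
            linarith [this, (by ring : (c.1 + 1 + 1) * Fintype.card V =
              (c.1 + 1) * Fintype.card V + Fintype.card V)]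
          omega
        · have : (c'.1 + 1) * Fintype.card V + Fintype.card V ≤ (c.1 + 1) * Fintype.card V := by
            have : (c'.1 + 1 + 1) * Fintype.card V ≤ (c.1 + 1) * Fintype.card V :=
              Nat.mul_le_mul_right _ (by omega)
            linarith [this, (by ring : (c'.1 + 1 + 1) * Fintype.card V =
              (c'.1 + 1) * Fintype.card V + Fintype.card V)]
          omega
      have g4 := h1 R
      have g5 : {c : Fin N | i.1 ≤ (c.1 + 1) * Fintype.card V ∧
          (c.1 + 1) * Fintype.card V < i.1 + R}.ncard *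
          (dsc T T.r R).ncard ≤ 1 * (2 * R + 1) := Nat.mul_le_mul g3 g4
      omega
  · have g1 : (dsc (combT N T) (Sum.inr (c, v0)) R) ⊆
        (fun v => (Sum.inr (c, v) : Fin (N * Fintype.card V + 1) ⊕ (Fin N × V))) '' (dsc T v0 R) := by
      rintro z ⟨j, hj, hz⟩
      obtain ⟨w, hw, hw'⟩ := comb_iter T c v0 j z hz
      exact ⟨w, ⟨j, hj, hw'⟩, hw.symm⟩
    calc (dsc (combT N T) (Sum.inr (c, v0)) R).ncard
        ≤ ((fun v => (Sum.inr (c, v) : Fin (N * Fintype.card V + 1) ⊕ (Fin N × V))) ''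
            (dsc T v0 R)).ncard := Set.ncard_le_ncard g1 (Set.toFinite _)
      _ ≤ (dsc T v0 R).ncard := Set.ncard_image_le (Set.toFinite _)
      _ ≤ 4 * R + 2 := h2 v0 R

end growth

section final

/-- a finite rooted tree -/
structure FT where
  V : Type
  fin : Fintype V
  T : RTree V

attribute [instance] FT.fin

/-- the one vertex tree -/
def ptT : RTree Unit where
  p := id
  r := ()
  d := fun _ => 0
  pr := rfl
  dr := rfl
  dp := by intro v h; exact absurd rfl h

/-- the comb trees -/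
noncomputable def CT (N : ℕ) : ℕ → FT
  | 0 => ⟨Unit, inferInstance, ptT⟩
  | k + 1 => ⟨Fin (N * Fintype.card (CT N k).V + 1) ⊕ (Fin N × (CT N k).V), inferInstance,
      combT N (CT N k).T⟩

lemma CT_St (N k : ℕ) : St (CT N k).T.p N k (CT N k).T.r := by
  induction k with
  | zero => trivial
  | succ k ih => exact comb_St_root (CT N k).T k ih

lemma CT_G (N k : ℕ) : G1 (CT N k).T ∧ G2 (CT N k).T := by
  induction k with
  | zero =>
    have h : ∀ S : Set Unit, S.ncard ≤ 1 := by
      intro S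
      have := Set.ncard_le_card S
      simpa using this
    exact ⟨fun R => le_trans (h _) (by omega), fun u R => le_trans (h _) (by omega)⟩
  | succ k ih => exact ⟨comb_G1 (CT N k).T, comb_G2 (CT N k).T ih.1 ih.2⟩

lemma ball_tree {V : Type} [Finite V] (T : RTree V) (h2 : G2 T) (x : V) (r : ℕ) (hr : 1 ≤ r) :
    {x' : V | ∃ i j, i ≤ r ∧ j ≤ r ∧ T.p^[i] x = T.p^[j] x'}.ncard ≤ 10 * r := by
  have h1 : {x' : V | ∃ i j, i ≤ r ∧ j ≤ r ∧ T.p^[i] x = T.p^[j] x'} ⊆
      dsc T (T.p^[r] x) (2 * r) := by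
    rintro x' ⟨i, j, hi, hj, h⟩
    refine ⟨(r - i) + j, by omega, ?_⟩
    rw [Function.iterate_add_apply, ← h, ← Function.iterate_add_apply]
    congr 2
    omega
  calc _ ≤ (dsc T (T.p^[r] x) (2 * r)).ncard := Set.ncard_le_ncard h1 (Set.toFinite _)
    _ ≤ 4 * (2 * r) + 2 := h2 _ _
    _ ≤ 10 * r := by omega

lemma ball_SP {F B : Type} [Finite F] [Finite B] (TF : RTree F) (TB : RTree B) (hF : G2 TF)
    (hB : G2 TB) (v : F × B) (r : ℕ) (hr : 1 ≤ r) :
    {w : F × B | (SP TF TB).edist v w ≤ (r : ℕ∞)}.ncard ≤ 100 * r ^ 2 := by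
  have hwalk : ∀ (w : F × B) (p : (SP TF TB).Walk v w), ∃ (i j i' j' : ℕ),
      (i ≤ p.length ∧ j ≤ p.length ∧ TF.p^[i] v.1 = TF.p^[j] w.1) ∧
      (i' ≤ p.length ∧ j' ≤ p.length ∧ TB.p^[i'] v.2 = TB.p^[j'] w.2) := by
    have step : ∀ {V : Type} (T : RTree V) (x z z' : V) (n i j : ℕ), i ≤ n → j ≤ n →
        T.p^[i] z = T.p^[j] x → nr T.p z' z → ∃ i' j', i' ≤ n + 1 ∧ j' ≤ n + 1 ∧
        T.p^[i'] z' = T.p^[j'] x := by
      intro V T x z z' n i j hi hj h hn
      rcases hn with h1 | h1 | h1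
      · exact ⟨i, j, by omega, by omega, by rw [h1]; exact h⟩
      · refine ⟨i + 1, j, by omega, by omega, ?_⟩
        rw [Function.iterate_succ_apply, h1]; exact h
      · cases i with
        | zero =>
          refine ⟨0, j + 1, by omega, by omega, ?_⟩
          rw [Function.iterate_succ_apply', ← h]
          exact h1.symm
        | succ i =>
          refine ⟨i, j, by omega, by omega, ?_⟩
          rw [← h1]
          rw [Function.iterate_succ_apply] at h
          exact h
    intro w p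
    induction p with
    | nil => exact ⟨0, 0, 0, 0, ⟨le_rfl, le_rfl, rfl⟩, ⟨le_rfl, le_rfl, rfl⟩⟩
    | @cons a b c hab q ih =>
      obtain ⟨i, j, i', j', ⟨h1, h2, h3⟩, ⟨h4, h5, h6⟩⟩ := ih
      obtain ⟨k, l, g1, g2, g3⟩ := step TF c.1 b.1 a.1 q.length i j h1 h2 h3 hab.2.1
      obtain ⟨k', l', g4, g5, g6⟩ := step TB c.2 b.2 a.2 q.length i' j' h4 h5 h6 hab.2.2
      rw [SimpleGraph.Walk.length_cons]
      exact ⟨k, l, k', l', ⟨g1, g2, g3⟩, ⟨g4, g5, g6⟩⟩
  have h1 : {w : F × B | (SP TF TB).edist v w ≤ (r : ℕ∞)} ⊆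
      {x' : F | ∃ i j, i ≤ r ∧ j ≤ r ∧ TF.p^[i] v.1 = TF.p^[j] x'} ×ˢ
      {x' : B | ∃ i j, i ≤ r ∧ j ≤ r ∧ TB.p^[i] v.2 = TB.p^[j] x'} := by
    intro w hw
    have hw' : (SP TF TB).edist v w ≤ (r : ℕ∞) := hw
    have hne : (SP TF TB).edist v w ≠ ⊤ := fun h => by
      rw [h] at hw'
      exact absurd hw' (by simp)
    obtain ⟨p, hp⟩ := SimpleGraph.exists_walk_of_edist_ne_top hne
    rw [← hp] at hw'
    have hlen : p.length ≤ r := by exact_mod_cast hw'
    obtain ⟨i, j, i', j', ⟨g1, g2, g3⟩, ⟨g4, g5, g6⟩⟩ := hwalk w p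
    exact ⟨⟨i, j, by omega, by omega, g3⟩, ⟨i', j', by omega, by omega, g6⟩⟩
  calc _ ≤ ({x' : F | ∃ i j, i ≤ r ∧ j ≤ r ∧ TF.p^[i] v.1 = TF.p^[j] x'} ×ˢ
      {x' : B | ∃ i j, i ≤ r ∧ j ≤ r ∧ TB.p^[i] v.2 = TB.p^[j] x'}).ncard :=
        Set.ncard_le_ncard h1 (Set.toFinite _)
    _ = _ := Set.ncard_prod
    _ ≤ (10 * r) * (10 * r) := Nat.mul_le_mul (ball_tree TF hF v.1 r hr) (ball_tree TB hB v.2 r hr)
    _ = 100 * r ^ 2 := by ring

/-- **Main theorem**: quadratic growth does not imply bounded stack number. -/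
theorem main_neg :
    ¬ (∀ c : ℕ, ∃ s : ℕ, ∀ (V : Type) [Finite V] (G : SimpleGraph V),
      (∀ v : V, ∀ r : ℕ, 1 ≤ r →
        {w : V | G.edist v w ≤ (r : ℕ∞)}.ncard ≤ c * r ^ 2) →
      ∃ f : V → ℕ, Function.Injective f ∧
        ∃ col : V → V → Fin s,
          ∀ a b x y : V, G.Adj a b → G.Adj x y →
            f a < f x → f x < f b → f b < f y → col a b ≠ col x y) := by
  intro h
  obtain ⟨s, hs⟩ := h 100
  let X : FT := CT 3 (s ^ 3 + 2)
  let N : ℕ := Fintype.card (X.V × X.V) * 2 + 1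
  let Y : FT := CT N (s ^ 3 + 2)
  have hN : 2 ≤ N := by
    have : 0 < Fintype.card (X.V × X.V) := Fintype.card_pos_iff.mpr ⟨(X.T.r, X.T.r)⟩
    omega
  obtain ⟨f, hf, col, hcol⟩ := hs (X.V × Y.V) (SP X.T Y.T)
    (ball_SP X.T Y.T (CT_G _ _).2 (CT_G _ _).2)
  let T3 : RTree (CT 3 (s ^ 3 + 1)).V := (CT 3 (s ^ 3 + 1)).T
  let TN' : RTree (CT N (s ^ 3 + 1)).V := (CT N (s ^ 3 + 1)).T
  let a1 : X.V := (Sum.inr ((0 : Fin 3), T3.r) :
    Fin (3 * Fintype.card (CT 3 (s ^ 3 + 1)).V + 1) ⊕ (Fin 3 × (CT 3 (s ^ 3 + 1)).V))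
  let a2 : X.V := (Sum.inr ((1 : Fin 3), T3.r) :
    Fin (3 * Fintype.card (CT 3 (s ^ 3 + 1)).V + 1) ⊕ (Fin 3 × (CT 3 (s ^ 3 + 1)).V))
  let u1 : Y.V := (Sum.inr ((⟨0, by omega⟩ : Fin N), TN'.r) :
    Fin (N * Fintype.card (CT N (s ^ 3 + 1)).V + 1) ⊕ (Fin N × (CT N (s ^ 3 + 1)).V))
  let u2 : Y.V := (Sum.inr ((⟨1, by omega⟩ : Fin N), TN'.r) :
    Fin (N * Fintype.card (CT N (s ^ 3 + 1)).V + 1) ⊕ (Fin N × (CT N (s ^ 3 + 1)).V))
  refine lower X.T Y.T s N (by omega) a1 a2 ?_ ?_ ?_ u1 u2 ?_ ?_ ?_ f hf col hcol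
  · exact comb_dis' T3 (by decide) _ _
  · exact comb_St T3 3 0 _ _ (CT_St 3 (s ^ 3 + 1))
  · exact comb_St T3 3 1 _ _ (CT_St 3 (s ^ 3 + 1))
  · exact comb_dis' TN' (by simp) _ _
  · exact comb_St TN' N _ _ _ (CT_St N (s ^ 3 + 1))
  · exact comb_St TN' N _ _ _ (CT_St N (s ^ 3 + 1))

end final

end Pool.Agent.Helper61.Stack
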